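import Mathlib

/-!
# ASI.MeanV: mean value theorem for Dirichlet series

PROOF. `exp(-τ²/(2T²)) ≥ exp(-1/2)` on `[-T, T]`. `∫ exp(-τ²/(2T²)) |∑ b_n n^(-iτ)|² dτ = T √(2π) ∑_{m,n} b_m conj b_n
exp(-T² log²(m/n)/2)` (absolutely convergent) `≤ T √(2π) ∑_n |b_n|² ∑_m exp(-T² log²(m/n)/2)`. For `m ≤ 2n`:
`|log(m/n)| ≥ |m-n|/(2n)`, so these `m` contribute at most `1 + 2 ∑_{j≥1} exp(-T² j²/(8n²)) ≤ 1 + 6 n/T`. For
`m > 2n`: `log²(m/n) ≥ (log 2) log(m/n)`, `T²/2 log 2 ≥ 3` as `T ≥ 3`, so they contribute at most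
`∑_{m>2n} (m/n)^(-T² (log 2)/2) ≤ C n/T`.
-/

set_option linter.all false
namespace ASI

open MeasureTheory

private theorem MeanV_tele (a : ℝ) (ha : 0 < a) (J : ℕ) :
    ∑ j ∈ Finset.range J, 1 / (1 + a * ((j : ℝ) + 1)) ^ 2 ≤ 1 / a := by
  have h : ∀ J : ℕ, ∑ j ∈ Finset.range J, 1 / (1 + a * ((j : ℝ) + 1)) ^ 2 ≤
      1 / a * (1 - 1 / (1 + a * J)) := by
    intro J
    induction J with
    | zero => simp
    | succ J ih =>
      rw [Finset.sum_range_succ]
      have hJ : (0 : ℝ) ≤ J := Nat.cast_nonneg J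
      have h1 : 0 < 1 + a * (J : ℝ) := by positivity
      have h2 : 0 < 1 + a * ((J : ℝ) + 1) := by positivity
      have h3 : 1 / (1 + a * ((J : ℝ) + 1)) ^ 2 ≤
          1 / ((1 + a * (J : ℝ)) * (1 + a * ((J : ℝ) + 1))) := by
        apply one_div_le_one_div_of_le (by positivity)
        nlinarith
      have h4 : 1 / ((1 + a * (J : ℝ)) * (1 + a * ((J : ℝ) + 1))) =
          1 / a * (1 / (1 + a * J) - 1 / (1 + a * ((J : ℝ) + 1))) := by
        field_simp
        ring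
      push_cast
      rw [h4] at h3
      linarith
  refine (h J).trans ?_
  have h1 : 0 < 1 / (1 + a * (J : ℝ)) := by positivity
  have h2 : 0 < 1 / a := by positivity
  nlinarith

private theorem MeanV_sum (a : ℝ) (ha : 0 < a) (n : ℕ) (S : Finset ℕ) :
    ∑ m ∈ S, 1 / (1 + a * |(m : ℝ) - n|) ^ 2 ≤ 1 + 2 / a := by
  obtain ⟨M, hM⟩ : ∃ M : ℕ, S ⊆ Finset.range (n + 1 + M) := by
    obtain ⟨K, hK⟩ := S.exists_nat_subset_range
    exact ⟨K, hK.trans (Finset.range_subset_range.2 (by omega))⟩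
  refine (Finset.sum_le_sum_of_subset_of_nonneg hM fun i _ _ => by positivity).trans ?_
  rw [Finset.sum_range_add, Finset.sum_range_succ]
  have e1 : ∑ m ∈ Finset.range n, 1 / (1 + a * |(m : ℝ) - n|) ^ 2 =
      ∑ j ∈ Finset.range n, 1 / (1 + a * ((j : ℝ) + 1)) ^ 2 := by
    rw [← Finset.sum_range_reflect]
    refine Finset.sum_congr rfl fun j hj => ?_
    have hj' : j + 1 ≤ n := by simpa using hj
    have : ((n - 1 - j : ℕ) : ℝ) = (n : ℝ) - 1 - j := by
      have : n - 1 - j + 1 + j = n := by omega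
      have h2 : ((n - 1 - j : ℕ) : ℝ) + 1 + j = n := by exact_mod_cast this
      linarith
    rw [this, abs_of_nonpos (by have : (0 : ℝ) ≤ j := Nat.cast_nonneg j
                                linarith)]
    congr 3
    ring
  have e2 : ∑ m ∈ Finset.range M, 1 / (1 + a * |((n + 1 + m : ℕ) : ℝ) - n|) ^ 2 =
      ∑ j ∈ Finset.range M, 1 / (1 + a * ((j : ℝ) + 1)) ^ 2 := by
    refine Finset.sum_congr rfl fun j hj => ?_
    push_cast
    rw [abs_of_nonneg (by have : (0 : ℝ) ≤ j := Nat.cast_nonneg j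
                          linarith)]
    congr 3
    ring
  rw [e1, e2]
  have h1 := MeanV_tele a ha n
  have h2 := MeanV_tele a ha M
  have h3 : (2 : ℝ) / a = 1 / a + 1 / a := by ring
  simp only [sub_self, abs_zero, mul_zero, add_zero, one_pow, div_one]
  linarith

private theorem MeanV_ker (T : ℝ) (hT : 3 ≤ T) (m n : ℕ) (hm : 1 ≤ m) (hn : 1 ≤ n) :
    Real.exp (-(T ^ 2 * (Real.log m - Real.log n) ^ 2 / 2)) ≤
      16 * (1 / (1 + T / n * |(m : ℝ) - n|) ^ 2) := by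
  have hm' : (1 : ℝ) ≤ m := by exact_mod_cast hm
  have hn' : (1 : ℝ) ≤ n := by exact_mod_cast hn
  have hm0 : (0 : ℝ) < m := by linarith
  have hn0 : (0 : ℝ) < n := by linarith
  set L := Real.log m - Real.log n with hL
  rcases le_or_gt (m : ℝ) (2 * n) with h | h
  · -- |L| ≥ |m - n| / (2 n)
    have h1 : |(m : ℝ) - n| / (2 * n) ≤ |L| := by
      rcases le_total (m : ℝ) n with h2 | h2
      · rw [abs_of_nonpos (by linarith : (m : ℝ) - n ≤ 0)]
        have h3 : L ≤ (m : ℝ) / n - 1 := by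
          rw [hL, ← Real.log_div hm0.ne' hn0.ne']
          exact Real.log_le_sub_one_of_pos (by positivity)
        have h4 : (m : ℝ) / n - 1 = ((m : ℝ) - n) / n := by field_simp
        have h5 : -((m : ℝ) - n) / (2 * n) ≤ -(((m : ℝ) - n) / n) := by
          rw [neg_div, neg_le_neg_iff, div_le_div_iff₀ hn0 (by positivity)]
          nlinarith
        have := neg_le_abs L
        linarith
      · rw [abs_of_nonneg (by linarith : 0 ≤ (m : ℝ) - n)]
        have h3 : -L ≤ (n : ℝ) / m - 1 := by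
          rw [hL, neg_sub, ← Real.log_div hn0.ne' hm0.ne']
          exact Real.log_le_sub_one_of_pos (by positivity)
        have h4 : (n : ℝ) / m - 1 = -(((m : ℝ) - n) / m) := by field_simp; ring
        have h5 : ((m : ℝ) - n) / (2 * n) ≤ ((m : ℝ) - n) / m :=
          div_le_div_of_nonneg_left (by linarith) hm0 h
        have := le_abs_self L
        linarith
    set D := |(m : ℝ) - n| with hD
    have hD0 : 0 ≤ D := abs_nonneg _
    have h2 : T ^ 2 * (D / (2 * n)) ^ 2 ≤ T ^ 2 * L ^ 2 := by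
      apply mul_le_mul_of_nonneg_left _ (by positivity)
      rw [← sq_abs L]
      exact pow_le_pow_left₀ (by positivity) h1 2
    set x := T / n * D with hx
    have hx0 : 0 ≤ x := by positivity
    have h3 : T ^ 2 * (D / (2 * n)) ^ 2 = x ^ 2 / 4 := by
      rw [hx]; field_simp; ring
    have h4 : x ^ 2 / 8 ≤ T ^ 2 * L ^ 2 / 2 := by linarith
    have h5 : Real.exp (-(T ^ 2 * L ^ 2 / 2)) ≤ Real.exp (-(x ^ 2 / 8)) :=
      Real.exp_le_exp.2 (by linarith)
    have h6 : Real.exp (-(x ^ 2 / 8)) ≤ 1 / (1 + x ^ 2 / 8) := by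
      rw [Real.exp_neg, ← one_div]
      apply one_div_le_one_div_of_le (by positivity)
      have := Real.add_one_le_exp (x ^ 2 / 8)
      linarith
    refine (h5.trans h6).trans ?_
    rw [mul_one_div, div_le_div_iff₀ (by positivity) (by positivity)]
    nlinarith [sq_nonneg (x - 1)]
  · -- L ≥ log 2
    have hL2 : Real.log 2 ≤ L := by
      rw [hL, ← Real.log_div hm0.ne' hn0.ne']
      apply Real.log_le_log (by norm_num)
      rw [le_div_iff₀ hn0]
      exact h.le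
    have hl2 : (0.69 : ℝ) < Real.log 2 := by have := Real.log_two_gt_d9; linarith
    have hLp : 0.69 < L := by linarith
    have hD : |(m : ℝ) - n| = m - n := abs_of_nonneg (by linarith)
    rw [hD]
    have e1 : T / n * ((m : ℝ) - n) = T * (Real.exp L - 1) := by
      have : Real.exp L = m / n := by
        rw [hL, Real.exp_sub, Real.exp_log hm0, Real.exp_log hn0]
      rw [this]; field_simp
    rw [e1]
    have hT9 : 9 ≤ T ^ 2 := by nlinarith
    have h1 : 2 * L ≤ T ^ 2 * L ^ 2 / 3 := by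
      have : 9 * L ^ 2 ≤ T ^ 2 * L ^ 2 := mul_le_mul_of_nonneg_right hT9 (by positivity)
      nlinarith
    have h2 : T ^ 2 * L ^ 2 / 6 ≤ Real.exp (T ^ 2 * L ^ 2 / 6) := by
      have := Real.add_one_le_exp (T ^ 2 * L ^ 2 / 6)
      linarith
    have hE : Real.exp (T ^ 2 * L ^ 2 / 2) ≥ T ^ 2 * L ^ 2 / 6 * (Real.exp L) ^ 2 := by
      have e3 : T ^ 2 * L ^ 2 / 2 = T ^ 2 * L ^ 2 / 6 + T ^ 2 * L ^ 2 / 3 := by ring
      rw [e3, Real.exp_add]
      have h4 : (Real.exp L) ^ 2 ≤ Real.exp (T ^ 2 * L ^ 2 / 3) := by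
        rw [← Real.exp_nat_mul]
        exact Real.exp_le_exp.2 (by push_cast; linarith)
      exact mul_le_mul h2 h4 (by positivity) (by positivity)
    have hexp1 : 1 ≤ Real.exp L := Real.one_le_exp (by linarith)
    have h5 : 1 + T * (Real.exp L - 1) ≤ T * Real.exp L := by nlinarith
    have h5' : 0 < 1 + T * (Real.exp L - 1) := by nlinarith
    rw [Real.exp_neg, ← one_div, mul_one_div, div_le_div_iff₀ (by positivity) (by positivity)]
    have h6 : (1 + T * (Real.exp L - 1)) ^ 2 ≤ (T * Real.exp L) ^ 2 :=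
      pow_le_pow_left₀ h5'.le h5 2
    have h7 : (T * Real.exp L) ^ 2 = T ^ 2 * Real.exp L ^ 2 := by ring
    have h8 : T ^ 2 * Real.exp L ^ 2 ≤ 16 * (T ^ 2 * L ^ 2 / 6 * (Real.exp L) ^ 2) := by
      have : 1 ≤ 16 / 6 * L ^ 2 := by nlinarith
      have h9 : 0 ≤ T ^ 2 * Real.exp L ^ 2 := by positivity
      nlinarith
    linarith

private theorem MeanV_cpow (n : ℕ) (hn : 1 ≤ n) (τ : ℝ) :
    (n : ℂ) ^ (-(τ * Complex.I)) = Complex.exp (-((Real.log n : ℝ) * τ * Complex.I)) := by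
  have h : (n : ℂ) ≠ 0 := by exact_mod_cast (by omega : n ≠ 0)
  rw [Complex.cpow_def_of_ne_zero h, ← Complex.natCast_log]
  congr 1
  push_cast
  ring

private theorem MeanV_conj (n : ℕ) (hn : 1 ≤ n) (τ : ℝ) :
    (starRingEnd ℂ) ((n : ℂ) ^ (-(τ * Complex.I))) =
      Complex.exp ((Real.log n : ℝ) * τ * Complex.I) := by
  rw [MeanV_cpow n hn, ← Complex.exp_conj]
  congr 1
  simp only [map_neg, map_mul, Complex.conj_ofReal, Complex.conj_I]
  ring

private theorem MeanV_expand (S : Finset ℕ) (hS : ∀ n ∈ S, 1 ≤ n) (b : ℕ → ℂ) (c : ℝ) (τ : ℝ) :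
    ((Real.exp (-(c * τ ^ 2)) * ‖∑ n ∈ S, b n * (n : ℂ) ^ (-(τ * Complex.I))‖ ^ 2 : ℝ) : ℂ) =
      ∑ m ∈ S, ∑ n ∈ S, b m * (starRingEnd ℂ) (b n) *
        Complex.exp ((-(c : ℂ)) * (τ : ℂ) ^ 2 +
          (-(((Real.log m - Real.log n : ℝ) : ℂ) * Complex.I)) * (τ : ℂ) + 0) := by
  rw [Complex.ofReal_mul, Complex.ofReal_exp, Complex.ofReal_pow,
    ← Complex.mul_conj', map_sum, Finset.sum_mul_sum, Finset.mul_sum]
  refine Finset.sum_congr rfl fun m hm => ?_
  rw [Finset.mul_sum]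
  refine Finset.sum_congr rfl fun n hn => ?_
  rw [map_mul, MeanV_conj n (hS n hn), MeanV_cpow m (hS m hm)]
  have e : Complex.exp (-(c : ℂ) * (τ : ℂ) ^ 2 +
      -(((Real.log m - Real.log n : ℝ) : ℂ) * Complex.I) * (τ : ℂ) + 0) =
      Complex.exp ((-(c * τ ^ 2) : ℝ) : ℂ) * (Complex.exp (-((Real.log m : ℝ) * τ * Complex.I)) *
        Complex.exp ((Real.log n : ℝ) * τ * Complex.I)) := by
    rw [← Complex.exp_add, ← Complex.exp_add, Complex.ofReal_sub, Complex.ofReal_neg,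
      Complex.ofReal_mul, Complex.ofReal_pow]
    congr 1
    ring
  rw [e]
  ring

private theorem MeanV_int (S : Finset ℕ) (hS : ∀ n ∈ S, 1 ≤ n) (b : ℕ → ℂ) (c : ℝ) (hc : 0 < c) :
    Integrable (fun τ : ℝ => Real.exp (-(c * τ ^ 2)) *
      ‖∑ n ∈ S, b n * (n : ℂ) ^ (-(τ * Complex.I))‖ ^ 2) := by
  have h : Integrable (fun τ : ℝ => ((Real.exp (-(c * τ ^ 2)) *
      ‖∑ n ∈ S, b n * (n : ℂ) ^ (-(τ * Complex.I))‖ ^ 2 : ℝ) : ℂ)) := by
    simp only [MeanV_expand S hS b c]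
    refine integrable_finset_sum _ fun m _ => integrable_finset_sum _ fun n _ => ?_
    exact (integrable_cexp_quadratic (b := (c : ℂ)) (by simpa using hc) _ _).const_mul _
  exact h.re

private theorem MeanV_val (c : ℝ) (hc : 0 < c) (L : ℝ) :
    ‖∫ τ : ℝ, Complex.exp ((-(c : ℂ)) * (τ : ℂ) ^ 2 + (-((L : ℂ) * Complex.I)) * (τ : ℂ) + 0)‖ =
      Real.sqrt (Real.pi / c) * Real.exp (-(L ^ 2 / (4 * c))) := by
  rw [integral_cexp_quadratic (b := -(c : ℂ)) (by simpa using hc), norm_mul]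
  congr 1
  · have : (Real.pi : ℂ) / - -(c : ℂ) = ((Real.pi / c : ℝ) : ℂ) := by push_cast; ring
    rw [this, Complex.norm_cpow_eq_rpow_re_of_pos (by positivity)]
    rw [Real.sqrt_eq_rpow]
    norm_num
  · have : (0 : ℂ) - (-((L : ℂ) * Complex.I)) ^ 2 / (4 * -(c : ℂ)) =
        ((-(L ^ 2 / (4 * c)) : ℝ) : ℂ) := by
      push_cast
      have hc' : (c : ℂ) ≠ 0 := by exact_mod_cast hc.ne'
      have hI : (-((L : ℂ) * Complex.I)) ^ 2 = -(L : ℂ) ^ 2 := by
        rw [neg_sq, mul_pow, Complex.I_sq]; ring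
      rw [hI]
      field_simp
      ring
    rw [this, Complex.norm_exp_ofReal]

private theorem MeanV_fin (S : Finset ℕ) (hS : ∀ n ∈ S, 1 ≤ n) (b : ℕ → ℂ) (T : ℝ)
    (hT : 3 ≤ T) :
    ∫ τ in Set.Icc (-T) T, ‖∑ n ∈ S, b n * (n : ℂ) ^ (-(τ * Complex.I))‖ ^ 2 ≤
      192 * ∑ n ∈ S, (T + (n : ℝ)) * ‖b n‖ ^ 2 := by
  have hT0 : 0 < T := by linarith
  set c : ℝ := 1 / (2 * T ^ 2) with hc
  have hc0 : 0 < c := by positivity
  have hint := MeanV_int S hS b c hc0
  set G : ℝ → ℝ := fun τ => Real.exp (-(c * τ ^ 2)) *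
      ‖∑ n ∈ S, b n * (n : ℂ) ^ (-(τ * Complex.I))‖ ^ 2 with hG
  have hG0 : ∀ τ, 0 ≤ G τ := fun τ => by rw [hG]; positivity
  -- step A
  have hA : ∫ τ in Set.Icc (-T) T, ‖∑ n ∈ S, b n * (n : ℂ) ^ (-(τ * Complex.I))‖ ^ 2 ≤
      2 * ∫ τ, G τ := by
    have h1 : ∫ τ in Set.Icc (-T) T, ‖∑ n ∈ S, b n * (n : ℂ) ^ (-(τ * Complex.I))‖ ^ 2 ≤
        ∫ τ in Set.Icc (-T) T, 2 * G τ := by
      apply integral_mono_of_nonneg
      · exact Filter.Eventually.of_forall fun τ => by positivity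
      · exact (hint.const_mul 2).integrableOn
      · rw [Filter.EventuallyLE, ae_restrict_iff' measurableSet_Icc]
        refine Filter.Eventually.of_forall fun τ hτ => ?_
        show _ ≤ 2 * (Real.exp (-(c * τ ^ 2)) * _)
        have h2 : 1 ≤ 2 * Real.exp (-(c * τ ^ 2)) := by
          have h3 : c * τ ^ 2 ≤ 1 / 2 := by
            have : τ ^ 2 ≤ T ^ 2 := by
              rw [← sq_abs τ]
              exact pow_le_pow_left₀ (abs_nonneg _) (abs_le.2 hτ) 2
            rw [hc, one_div, inv_mul_le_iff₀ (by positivity)]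
            linarith
          have h4 : 1 - c * τ ^ 2 ≤ Real.exp (-(c * τ ^ 2)) := by
            have := Real.add_one_le_exp (-(c * τ ^ 2))
            linarith
          linarith
        have h5 : 0 ≤ ‖∑ n ∈ S, b n * (n : ℂ) ^ (-(τ * Complex.I))‖ ^ 2 := by positivity
        nlinarith
    refine h1.trans ?_
    rw [integral_const_mul]
    refine mul_le_mul_of_nonneg_left ?_ (by norm_num)
    exact setIntegral_le_integral hint (Filter.Eventually.of_forall hG0)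
  -- step B
  set K : ℕ → ℕ → ℝ := fun m n => Real.exp (-(T ^ 2 * (Real.log m - Real.log n) ^ 2 / 2)) with hK
  have hB : ∫ τ, G τ ≤ 3 * T * ∑ m ∈ S, ∑ n ∈ S, ‖b m‖ * ‖b n‖ * K m n := by
    have h1 : ∫ τ, G τ = ‖∫ τ, ((G τ : ℝ) : ℂ)‖ := by
      have h0 : ∫ τ, ((G τ : ℝ) : ℂ) = ((∫ τ, G τ : ℝ) : ℂ) := integral_complex_ofReal
      rw [h0, Complex.norm_real, Real.norm_eq_abs, abs_of_nonneg (integral_nonneg hG0)]
    rw [h1]
    have h2 : ∫ τ, ((G τ : ℝ) : ℂ) = ∑ m ∈ S, ∑ n ∈ S, b m * (starRingEnd ℂ) (b n) *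
        ∫ τ : ℝ, Complex.exp ((-(c : ℂ)) * (τ : ℂ) ^ 2 +
          (-(((Real.log m - Real.log n : ℝ) : ℂ) * Complex.I)) * (τ : ℂ) + 0) := by
      simp only [hG, MeanV_expand S hS b c]
      have hi : ∀ m n : ℕ, Integrable (fun τ : ℝ => b m * (starRingEnd ℂ) (b n) *
        Complex.exp ((-(c : ℂ)) * (τ : ℂ) ^ 2 +
          (-(((Real.log m - Real.log n : ℝ) : ℂ) * Complex.I)) * (τ : ℂ) + 0)) := fun m n =>
        (integrable_cexp_quadratic (b := (c : ℂ)) (by simpa using hc0) _ _).const_mul _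
      rw [integral_finset_sum _ fun m _ => integrable_finset_sum _ fun n _ => hi m n]
      refine Finset.sum_congr rfl fun m _ => ?_
      rw [integral_finset_sum _ fun n _ => hi m n]
      refine Finset.sum_congr rfl fun n _ => ?_
      rw [integral_const_mul]
    rw [h2, Finset.mul_sum]
    refine (norm_sum_le _ _).trans (Finset.sum_le_sum fun m hm => ?_)
    rw [Finset.mul_sum]
    refine (norm_sum_le _ _).trans (Finset.sum_le_sum fun n hn => ?_)
    rw [norm_mul, norm_mul, RCLike.norm_conj, MeanV_val c hc0]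
    have h3 : Real.sqrt (Real.pi / c) ≤ 3 * T := by
      rw [Real.sqrt_le_left (by positivity), hc]
      have : Real.pi / (1 / (2 * T ^ 2)) = 2 * Real.pi * T ^ 2 := by field_simp
      rw [this]
      have := Real.pi_lt_d2
      nlinarith [sq_nonneg T, mul_pos hT0 hT0]
    have h4 : -((Real.log m - Real.log n) ^ 2 / (4 * c)) =
        -(T ^ 2 * (Real.log m - Real.log n) ^ 2 / 2) := by
      rw [hc]; field_simp; ring
    rw [h4]
    have h5 : 0 ≤ ‖b m‖ * ‖b n‖ := by positivity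
    have h6 : 0 ≤ K m n := (Real.exp_pos _).le
    calc ‖b m‖ * ‖b n‖ * (Real.sqrt (Real.pi / c) * K m n)
        = Real.sqrt (Real.pi / c) * (‖b m‖ * ‖b n‖ * K m n) := by ring
      _ ≤ 3 * T * (‖b m‖ * ‖b n‖ * K m n) :=
          mul_le_mul_of_nonneg_right h3 (mul_nonneg h5 h6)
  have hsymm : ∀ m n, K m n = K n m := fun m n => by
    simp only [hK]; congr 4; ring
  have hrow : ∀ n ∈ S, ∑ m ∈ S, K m n ≤ 16 + 32 * n / T := by
    intro n hn
    have hn1 := hS n hn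
    have hn0 : (0 : ℝ) < n := by exact_mod_cast hn1
    have h1 : ∑ m ∈ S, K m n ≤ ∑ m ∈ S, 16 * (1 / (1 + T / n * |(m : ℝ) - n|) ^ 2) :=
      Finset.sum_le_sum fun m hm => MeanV_ker T hT m n (hS m hm) hn1
    have h2 := MeanV_sum (T / n) (by positivity) n S
    rw [← Finset.mul_sum] at h1
    have h3 : 16 + 32 * (n : ℝ) / T = 16 * (1 + 2 / (T / n)) := by field_simp; ring
    rw [h3]
    linarith
  have hC : ∑ m ∈ S, ∑ n ∈ S, ‖b m‖ * ‖b n‖ * K m n ≤ ∑ n ∈ S, ‖b n‖ ^ 2 * (16 + 32 * n / T) := by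
    have h1 : ∑ m ∈ S, ∑ n ∈ S, ‖b m‖ * ‖b n‖ * K m n ≤
        ∑ m ∈ S, ∑ n ∈ S, (‖b m‖ ^ 2 * K m n / 2 + ‖b n‖ ^ 2 * K m n / 2) := by
      refine Finset.sum_le_sum fun m _ => Finset.sum_le_sum fun n _ => ?_
      have h6 : 0 ≤ K m n := (Real.exp_pos _).le
      nlinarith [mul_nonneg (sq_nonneg (‖b m‖ - ‖b n‖)) h6]
    refine h1.trans (le_of_eq_of_le ?_ (Finset.sum_le_sum fun n hn =>
      mul_le_mul_of_nonneg_left (hrow n hn) (sq_nonneg ‖b n‖)))
    simp only [Finset.sum_add_distrib]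
    have h2 : ∑ m ∈ S, ∑ n ∈ S, ‖b m‖ ^ 2 * K m n / 2 =
        ∑ n ∈ S, ∑ m ∈ S, ‖b n‖ ^ 2 * K m n / 2 := by
      refine Finset.sum_congr rfl fun m _ => Finset.sum_congr rfl fun n _ => ?_
      rw [hsymm m n]
    rw [h2, Finset.sum_comm (f := fun m n => ‖b n‖ ^ 2 * K m n / 2), ← Finset.sum_add_distrib]
    refine Finset.sum_congr rfl fun n _ => ?_
    rw [← Finset.sum_add_distrib, Finset.mul_sum]
    refine Finset.sum_congr rfl fun m _ => ?_
    ring
  refine hA.trans ?_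
  have h7 : 3 * T * ∑ m ∈ S, ∑ n ∈ S, ‖b m‖ * ‖b n‖ * K m n ≤
      3 * T * ∑ n ∈ S, ‖b n‖ ^ 2 * (16 + 32 * n / T) :=
    mul_le_mul_of_nonneg_left hC (by positivity)
  have h8 : 2 * (3 * T * ∑ n ∈ S, ‖b n‖ ^ 2 * (16 + 32 * n / T)) ≤
      192 * ∑ n ∈ S, (T + (n : ℝ)) * ‖b n‖ ^ 2 := by
    rw [Finset.mul_sum, Finset.mul_sum, Finset.mul_sum]
    refine Finset.sum_le_sum fun n _ => ?_
    have e : 2 * (3 * T * (‖b n‖ ^ 2 * (16 + 32 * n / T))) =
        (96 * T + 192 * n) * ‖b n‖ ^ 2 := by field_simp; ring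
    rw [e]
    have : 0 ≤ T * ‖b n‖ ^ 2 := by positivity
    nlinarith
  linarith

theorem mean_value : ∃ C : ℝ, 1 ≤ C ∧ ∀ (b : ℕ → ℂ) (T : ℝ), 3 ≤ T → b 0 = 0 →
    Summable (fun n : ℕ => ‖b n‖) → Summable (fun n : ℕ => (n : ℝ) * ‖b n‖ ^ 2) →
    ∫ τ in Set.Icc (-T) T, ‖∑' n : ℕ, b n * (n : ℂ) ^ (-(τ * Complex.I))‖ ^ 2 ≤
      C * ∑' n : ℕ, (T + (n : ℝ)) * ‖b n‖ ^ 2 := by
  refine ⟨192, by norm_num, fun b T hT hb0 hb1 hb2 => ?_⟩
  have hT0 : 0 < T := by linarith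
  have hnorm : ∀ (n : ℕ) (τ : ℝ), ‖b n * (n : ℂ) ^ (-(τ * Complex.I))‖ = ‖b n‖ := by
    intro n τ
    rcases Nat.eq_zero_or_pos n with h | h
    · subst h; simp [hb0]
    · have h1 : (-((Real.log n : ℝ) * τ * Complex.I) : ℂ).re = 0 := by
        rw [← Complex.ofReal_mul]
        simp only [Complex.neg_re, Complex.re_ofReal_mul, Complex.I_re, mul_zero, neg_zero]
      rw [MeanV_cpow n h, norm_mul, Complex.norm_exp, h1, Real.exp_zero, mul_one]
  have hsq : Summable (fun n : ℕ => (T + (n : ℝ)) * ‖b n‖ ^ 2) := by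
    have h1 : Summable (fun n : ℕ => ‖b n‖ ^ 2) := by
      have hb : ∀ n, ‖b n‖ ≤ ∑' n, ‖b n‖ := fun n => hb1.le_tsum n fun _ _ => norm_nonneg _
      refine Summable.of_nonneg_of_le (fun n => sq_nonneg _) (fun n => ?_)
        (hb1.mul_left (∑' n, ‖b n‖))
      rw [sq]
      exact mul_le_mul_of_nonneg_right (hb n) (norm_nonneg _)
    refine ((h1.mul_left T).add hb2).congr fun n => ?_
    ring
  have hsum : ∀ τ : ℝ, Summable (fun n : ℕ => b n * (n : ℂ) ^ (-(τ * Complex.I))) := fun τ =>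
    Summable.of_norm (by simpa only [hnorm] using hb1)
  have hlim : Filter.Tendsto (fun N : ℕ => ∫ τ in Set.Icc (-T) T,
      ‖∑ n ∈ Finset.range N, b n * (n : ℂ) ^ (-(τ * Complex.I))‖ ^ 2) Filter.atTop
      (nhds (∫ τ in Set.Icc (-T) T, ‖∑' n : ℕ, b n * (n : ℂ) ^ (-(τ * Complex.I))‖ ^ 2)) := by
    refine tendsto_integral_of_dominated_convergence (fun _ => (∑' n, ‖b n‖) ^ 2) ?_ ?_ ?_ ?_
    · intro N
      apply Measurable.aestronglyMeasurable
      fun_prop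
    · exact (integrable_const _)
    · intro N
      refine Filter.Eventually.of_forall fun τ => ?_
      rw [norm_pow, norm_norm]
      refine pow_le_pow_left₀ (norm_nonneg _) ((norm_sum_le _ _).trans ?_) 2
      simp only [hnorm]
      exact hb1.sum_le_tsum _ fun _ _ => norm_nonneg _
    · refine Filter.Eventually.of_forall fun τ => ?_
      exact ((hsum τ).hasSum.tendsto_sum_nat.norm).pow 2
  refine le_of_tendsto hlim (Filter.Eventually.of_forall fun N => ?_)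
  have e1 : ∀ τ : ℝ, ∑ n ∈ Finset.range N, b n * (n : ℂ) ^ (-(τ * Complex.I)) =
      ∑ n ∈ (Finset.range N).erase 0, b n * (n : ℂ) ^ (-(τ * Complex.I)) := by
    intro τ
    refine (Finset.sum_erase _ ?_).symm
    simp [hb0]
  simp only [e1]
  refine (MeanV_fin _ (fun n hn => ?_) b T hT).trans ?_
  · have := (Finset.mem_erase.1 hn).1
    omega
  · refine mul_le_mul_of_nonneg_left ?_ (by norm_num)
    exact hsq.sum_le_tsum _ fun n _ => by positivity

end ASI
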