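import Mathlib

/-!
# ASI.Planch: Gaussian Plancherel identity for finite measures

PROOF. `∫ exp(-(x-u)²/(2δ²)) exp(-(y-u)²/(2δ²)) du = δ √π exp(-(x-y)²/(4δ²))` and
`exp(-z²/(4δ²)) = (δ/√π) ∫ exp(-δ²τ²) exp(iτz) dτ`. Expand both squares and use Fubini (finite measures, bounded
continuous integrands with Gaussian decay in `u`, resp. `τ`):
`∫ (G1 - G2)² du = ∫∫ δ √π exp(-(x-y)²/(4δ²)) d(μ1-μ2)(x) d(μ1-μ2)(y) = δ² ∫ exp(-δ²τ²) |μ1^(τ) - μ2^(τ)|² dτ`.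
-/

namespace ASI

open MeasureTheory

private noncomputable def gK (δ x y : ℝ) : ℝ :=
  δ * Real.sqrt Real.pi * Real.exp (-(x - y) ^ 2 / (4 * δ ^ 2))

private lemma planch_A1 {δ : ℝ} (hδ : 0 < δ) (x y : ℝ) :
    Integrable (fun u : ℝ => Real.exp (-(x - u) ^ 2 / (2 * δ ^ 2)) *
      Real.exp (-(y - u) ^ 2 / (2 * δ ^ 2))) ∧
    ∫ u : ℝ, Real.exp (-(x - u) ^ 2 / (2 * δ ^ 2)) * Real.exp (-(y - u) ^ 2 / (2 * δ ^ 2)) =
      gK δ x y := by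
  have e1 : (fun u : ℝ => Real.exp (-(x - u) ^ 2 / (2 * δ ^ 2)) *
      Real.exp (-(y - u) ^ 2 / (2 * δ ^ 2))) =
      fun u : ℝ => Real.exp (-(1 / δ ^ 2) * (u - (x + y) / 2) ^ 2) *
        Real.exp (-(x - y) ^ 2 / (4 * δ ^ 2)) := by
    funext u
    rw [← Real.exp_add, ← Real.exp_add]
    congr 1
    field_simp
    ring
  have hb : (0 : ℝ) < 1 / δ ^ 2 := by positivity
  rw [e1]
  constructor
  · exact ((integrable_exp_neg_mul_sq hb).comp_sub_right ((x + y) / 2)).mul_const _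
  · rw [integral_mul_const, integral_sub_right_eq_self
      (fun u : ℝ => Real.exp (-(1 / δ ^ 2) * u ^ 2)) ((x + y) / 2), integral_gaussian]
    unfold gK
    congr 1
    rw [show Real.pi / (1 / δ ^ 2) = δ ^ 2 * Real.pi by field_simp,
      Real.sqrt_mul (by positivity), Real.sqrt_sq hδ.le]

private lemma planch_A2 (μ ν : Measure ℝ) [IsFiniteMeasure μ] [IsFiniteMeasure ν] {δ : ℝ}
    (hδ : 0 < δ) :
    Integrable (fun p : ℝ × (ℝ × ℝ) => Real.exp (-(p.2.1 - p.1) ^ 2 / (2 * δ ^ 2)) *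
      Real.exp (-(p.2.2 - p.1) ^ 2 / (2 * δ ^ 2))) (volume.prod (μ.prod ν)) := by
  have hm : AEStronglyMeasurable (fun p : ℝ × (ℝ × ℝ) =>
      Real.exp (-(p.2.1 - p.1) ^ 2 / (2 * δ ^ 2)) *
      Real.exp (-(p.2.2 - p.1) ^ 2 / (2 * δ ^ 2))) (volume.prod (μ.prod ν)) := by
    apply Continuous.aestronglyMeasurable
    fun_prop
  rw [integrable_prod_iff' hm]
  refine ⟨Filter.Eventually.of_forall (fun z => (planch_A1 hδ z.1 z.2).1), ?_⟩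
  have e1 : (fun z : ℝ × ℝ => ∫ u : ℝ, ‖Real.exp (-(z.1 - u) ^ 2 / (2 * δ ^ 2)) *
      Real.exp (-(z.2 - u) ^ 2 / (2 * δ ^ 2))‖) = fun z => gK δ z.1 z.2 := by
    funext z
    rw [← (planch_A1 hδ z.1 z.2).2]
    refine integral_congr_ae (Filter.Eventually.of_forall (fun u => ?_))
    simp only
    rw [Real.norm_of_nonneg (by positivity)]
  show Integrable (fun z : ℝ × ℝ => ∫ u : ℝ, ‖Real.exp (-(z.1 - u) ^ 2 / (2 * δ ^ 2)) *
      Real.exp (-(z.2 - u) ^ 2 / (2 * δ ^ 2))‖) (μ.prod ν)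
  rw [e1]
  refine Integrable.of_bound (C := δ * Real.sqrt Real.pi) ?_ ?_
  · apply Continuous.aestronglyMeasurable
    unfold gK
    fun_prop
  · refine Filter.Eventually.of_forall (fun z => ?_)
    unfold gK
    rw [Real.norm_of_nonneg (by positivity)]
    have h1 : Real.exp (-(z.1 - z.2) ^ 2 / (4 * δ ^ 2)) ≤ 1 := by
      rw [Real.exp_le_one_iff]
      apply div_nonpos_of_nonpos_of_nonneg
      · nlinarith [sq_nonneg (z.1 - z.2)]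
      · positivity
    calc δ * Real.sqrt Real.pi * Real.exp (-(z.1 - z.2) ^ 2 / (4 * δ ^ 2))
        ≤ δ * Real.sqrt Real.pi * 1 := mul_le_mul_of_nonneg_left h1 (by positivity)
      _ = _ := by ring

private lemma planch_A3 (μ ν : Measure ℝ) [IsFiniteMeasure μ] [IsFiniteMeasure ν] {δ : ℝ}
    (hδ : 0 < δ) :
    Integrable (fun u : ℝ => (∫ x, Real.exp (-(x - u) ^ 2 / (2 * δ ^ 2)) ∂μ) *
      (∫ x, Real.exp (-(x - u) ^ 2 / (2 * δ ^ 2)) ∂ν)) ∧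
    ∫ u : ℝ, (∫ x, Real.exp (-(x - u) ^ 2 / (2 * δ ^ 2)) ∂μ) *
      (∫ x, Real.exp (-(x - u) ^ 2 / (2 * δ ^ 2)) ∂ν) =
      ∫ z, gK δ z.1 z.2 ∂(μ.prod ν) := by
  have e1 : (fun u : ℝ => (∫ x, Real.exp (-(x - u) ^ 2 / (2 * δ ^ 2)) ∂μ) *
      (∫ x, Real.exp (-(x - u) ^ 2 / (2 * δ ^ 2)) ∂ν)) =
      fun u : ℝ => ∫ z : ℝ × ℝ, Real.exp (-(z.1 - u) ^ 2 / (2 * δ ^ 2)) *
        Real.exp (-(z.2 - u) ^ 2 / (2 * δ ^ 2)) ∂(μ.prod ν) := by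
    funext u
    exact (integral_prod_mul (fun x : ℝ => Real.exp (-(x - u) ^ 2 / (2 * δ ^ 2)))
      (fun x : ℝ => Real.exp (-(x - u) ^ 2 / (2 * δ ^ 2)))).symm
  have h2 := planch_A2 μ ν hδ
  rw [e1]
  refine ⟨h2.integral_prod_left, ?_⟩
  have h3 := integral_integral_swap (f := fun (u : ℝ) (z : ℝ × ℝ) =>
    Real.exp (-(z.1 - u) ^ 2 / (2 * δ ^ 2)) * Real.exp (-(z.2 - u) ^ 2 / (2 * δ ^ 2)))
    (μ := volume) (ν := μ.prod ν) h2
  rw [h3]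
  refine integral_congr_ae (Filter.Eventually.of_forall (fun z => ?_))
  exact (planch_A1 hδ z.1 z.2).2


/-- the Fourier transform of a measure. -/
private noncomputable def gH (μ : Measure ℝ) (τ : ℝ) : ℂ := ∫ x, Complex.exp (-(τ * x * Complex.I)) ∂μ

private lemma planch_B1 {δ : ℝ} (hδ : 0 < δ) (x y : ℝ) :
    ∫ τ : ℝ, (Real.exp (-(δ ^ 2 * τ ^ 2)) : ℂ) * (Complex.exp (-(τ * x * Complex.I)) *
      (starRingEnd ℂ) (Complex.exp (-(τ * y * Complex.I)))) = ((gK δ x y / δ ^ 2 : ℝ) : ℂ) := by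
  have hb : 0 < ((δ ^ 2 : ℝ) : ℂ).re := by
    rw [Complex.ofReal_re]; positivity
  have h1 := fourierIntegral_gaussian hb ((y - x : ℝ) : ℂ)
  have e1 : (fun τ : ℝ => (Real.exp (-(δ ^ 2 * τ ^ 2)) : ℂ) * (Complex.exp (-(τ * x * Complex.I)) *
      (starRingEnd ℂ) (Complex.exp (-(τ * y * Complex.I))))) =
      fun τ : ℝ => Complex.exp (Complex.I * ((y - x : ℝ) : ℂ) * τ) *
        Complex.exp (-((δ ^ 2 : ℝ) : ℂ) * (τ : ℂ) ^ 2) := by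
    funext τ
    rw [← Complex.exp_conj, ← Complex.exp_add, ← Complex.exp_add, Complex.ofReal_exp,
      ← Complex.exp_add]
    congr 1
    simp only [map_neg, map_mul, Complex.conj_ofReal, Complex.conj_I]
    push_cast
    ring
  rw [e1, h1]
  have e2 : ((Real.pi : ℂ) / ((δ ^ 2 : ℝ) : ℂ)) ^ (1 / 2 : ℂ) =
      ((Real.sqrt Real.pi / δ : ℝ) : ℂ) := by
    rw [← Complex.ofReal_div, show (1 / 2 : ℂ) = ((1 / 2 : ℝ) : ℂ) by push_cast; ring,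
      ← Complex.ofReal_cpow (by positivity), ← Real.sqrt_eq_rpow, Real.sqrt_div (by positivity),
      Real.sqrt_sq hδ.le]
  rw [e2]
  have e3 : -((y - x : ℝ) : ℂ) ^ 2 / (4 * ((δ ^ 2 : ℝ) : ℂ)) =
      ((-(x - y) ^ 2 / (4 * δ ^ 2) : ℝ) : ℂ) := by
    push_cast; ring
  rw [e3, ← Complex.ofReal_exp, ← Complex.ofReal_mul]
  congr 1
  unfold gK
  field_simp

private lemma planch_B2 (μ ν : Measure ℝ) [IsFiniteMeasure μ] [IsFiniteMeasure ν] {δ : ℝ}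
    (hδ : 0 < δ) :
    Integrable (fun p : ℝ × (ℝ × ℝ) => (Real.exp (-(δ ^ 2 * p.1 ^ 2)) : ℂ) *
      (Complex.exp (-(p.1 * p.2.1 * Complex.I)) *
      (starRingEnd ℂ) (Complex.exp (-(p.1 * p.2.2 * Complex.I))))) (volume.prod (μ.prod ν)) := by
  have hg : Integrable (fun τ : ℝ => Real.exp (-(δ ^ 2 * τ ^ 2))) := by
    have := integrable_exp_neg_mul_sq (by positivity : (0 : ℝ) < δ ^ 2)
    simpa only [neg_mul] using this
  have h1 : Integrable (fun p : ℝ × (ℝ × ℝ) => Real.exp (-(δ ^ 2 * p.1 ^ 2)) * (1 : ℝ))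
      (volume.prod (μ.prod ν)) := hg.mul_prod (integrable_const (1 : ℝ))
  refine h1.mono' ?_ ?_
  · apply Continuous.aestronglyMeasurable
    refine Continuous.mul ?_ (Continuous.mul ?_ ?_)
    · exact Complex.continuous_ofReal.comp (by fun_prop)
    · fun_prop
    · exact Complex.continuous_conj.comp (by fun_prop)
  · refine Filter.Eventually.of_forall (fun p => ?_)
    have h2 : ∀ a b : ℝ, ‖Complex.exp (-(a * b * Complex.I))‖ = 1 := by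
      intro a b
      rw [show -((a : ℂ) * b * Complex.I) = ((-(a * b) : ℝ) : ℂ) * Complex.I by push_cast; ring]
      exact Complex.norm_exp_ofReal_mul_I _
    rw [norm_mul, norm_mul, RCLike.norm_conj, h2, h2, Complex.norm_real,
      Real.norm_of_nonneg (Real.exp_pos _).le]
    simp

private lemma planch_B3 (μ ν : Measure ℝ) [IsFiniteMeasure μ] [IsFiniteMeasure ν] {δ : ℝ}
    (hδ : 0 < δ) :
    Integrable (fun τ : ℝ => (Real.exp (-(δ ^ 2 * τ ^ 2)) : ℂ) *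
      (gH μ τ * (starRingEnd ℂ) (gH ν τ))) ∧
    ∫ τ : ℝ, (Real.exp (-(δ ^ 2 * τ ^ 2)) : ℂ) * (gH μ τ * (starRingEnd ℂ) (gH ν τ)) =
      (((∫ z, gK δ z.1 z.2 ∂(μ.prod ν)) / δ ^ 2 : ℝ) : ℂ) := by
  have e1 : (fun τ : ℝ => (Real.exp (-(δ ^ 2 * τ ^ 2)) : ℂ) *
      (gH μ τ * (starRingEnd ℂ) (gH ν τ))) =
      fun τ : ℝ => ∫ z : ℝ × ℝ, (Real.exp (-(δ ^ 2 * τ ^ 2)) : ℂ) *
        (Complex.exp (-(τ * z.1 * Complex.I)) *
        (starRingEnd ℂ) (Complex.exp (-(τ * z.2 * Complex.I)))) ∂(μ.prod ν) := by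
    funext τ
    rw [integral_const_mul]
    congr 1
    rw [integral_prod_mul (fun x : ℝ => Complex.exp (-(τ * x * Complex.I)))
      (fun x : ℝ => (starRingEnd ℂ) (Complex.exp (-(τ * x * Complex.I))))]
    unfold gH
    congr 1
    exact integral_conj.symm
  have h2 := planch_B2 μ ν hδ
  rw [e1]
  refine ⟨h2.integral_prod_left, ?_⟩
  have h3 := integral_integral_swap (f := fun (τ : ℝ) (z : ℝ × ℝ) =>
    (Real.exp (-(δ ^ 2 * τ ^ 2)) : ℂ) * (Complex.exp (-(τ * z.1 * Complex.I)) *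
        (starRingEnd ℂ) (Complex.exp (-(τ * z.2 * Complex.I)))))
    (μ := volume) (ν := μ.prod ν) h2
  rw [h3, ← integral_div, ← integral_complex_ofReal]
  refine integral_congr_ae (Filter.Eventually.of_forall (fun z => ?_))
  exact planch_B1 hδ z.1 z.2

private lemma planch_symm (μ ν : Measure ℝ) [IsFiniteMeasure μ] [IsFiniteMeasure ν] (δ : ℝ) :
    ∫ z, gK δ z.1 z.2 ∂(ν.prod μ) = ∫ z, gK δ z.1 z.2 ∂(μ.prod ν) := by
  rw [← integral_prod_swap]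
  refine integral_congr_ae (Filter.Eventually.of_forall (fun z => ?_))
  simp only [Prod.fst_swap, Prod.snd_swap, gK]
  rw [show (z.2 - z.1) ^ 2 = (z.1 - z.2) ^ 2 by ring]

private lemma planch_c3 {f g h : ℝ → ℝ} (hf : Integrable f) (hg : Integrable g)
    (hh : Integrable h) : ∫ u, (f u - 2 * g u + h u) = (∫ u, f u) - 2 * (∫ u, g u) + ∫ u, h u := by
  have h1 : Integrable (fun u => 2 * g u) := hg.const_mul 2
  have h2 : Integrable (fun u => f u - 2 * g u) := hf.sub h1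
  rw [integral_add h2 hh, integral_sub hf h1, integral_const_mul]

private lemma planch_c4 {f g h k : ℝ → ℂ} (hf : Integrable f) (hg : Integrable g)
    (hh : Integrable h) (hk : Integrable k) : ∫ u, (f u - g u - h u + k u) =
      (∫ u, f u) - (∫ u, g u) - (∫ u, h u) + ∫ u, k u := by
  have h2 : Integrable (fun u => f u - g u) := hf.sub hg
  have h3 : Integrable (fun u => f u - g u - h u) := h2.sub hh
  rw [integral_add h3 hk, integral_sub h2 hh, integral_sub hf hg]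

theorem planch (μ1 μ2 : Measure ℝ) [IsFiniteMeasure μ1] [IsFiniteMeasure μ2] {δ : ℝ} (hδ : 0 < δ) :
    ∫ u : ℝ, ((∫ x, Real.exp (-(x - u) ^ 2 / (2 * δ ^ 2)) ∂μ1) -
      (∫ x, Real.exp (-(x - u) ^ 2 / (2 * δ ^ 2)) ∂μ2)) ^ 2 =
    δ ^ 2 * ∫ τ : ℝ, Real.exp (-(δ ^ 2 * τ ^ 2)) *
      ‖(∫ x, Complex.exp (-(τ * x * Complex.I)) ∂μ1) - (∫ x, Complex.exp (-(τ * x * Complex.I)) ∂μ2)‖ ^ 2 := by
  obtain ⟨i11, v11⟩ := planch_A3 μ1 μ1 hδ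
  obtain ⟨i12, v12⟩ := planch_A3 μ1 μ2 hδ
  obtain ⟨i22, v22⟩ := planch_A3 μ2 μ2 hδ
  obtain ⟨j11, w11⟩ := planch_B3 μ1 μ1 hδ
  obtain ⟨j12, w12⟩ := planch_B3 μ1 μ2 hδ
  obtain ⟨j21, w21⟩ := planch_B3 μ2 μ1 hδ
  obtain ⟨j22, w22⟩ := planch_B3 μ2 μ2 hδ
  have hL : ∫ u : ℝ, ((∫ x, Real.exp (-(x - u) ^ 2 / (2 * δ ^ 2)) ∂μ1) -
      (∫ x, Real.exp (-(x - u) ^ 2 / (2 * δ ^ 2)) ∂μ2)) ^ 2 =
      (∫ z, gK δ z.1 z.2 ∂(μ1.prod μ1)) - 2 * (∫ z, gK δ z.1 z.2 ∂(μ1.prod μ2)) +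
        ∫ z, gK δ z.1 z.2 ∂(μ2.prod μ2) := by
    rw [← v11, ← v12, ← v22, ← planch_c3 i11 i12 i22]
    refine integral_congr_ae (Filter.Eventually.of_forall (fun u => ?_))
    simp only
    ring
  have hR : ((∫ τ : ℝ, Real.exp (-(δ ^ 2 * τ ^ 2)) * ‖gH μ1 τ - gH μ2 τ‖ ^ 2 : ℝ) : ℂ) =
      ((((∫ z, gK δ z.1 z.2 ∂(μ1.prod μ1)) - 2 * (∫ z, gK δ z.1 z.2 ∂(μ1.prod μ2)) +
        ∫ z, gK δ z.1 z.2 ∂(μ2.prod μ2)) / δ ^ 2 : ℝ) : ℂ) := by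
    rw [← integral_complex_ofReal]
    have e1 : (fun τ : ℝ => ((Real.exp (-(δ ^ 2 * τ ^ 2)) * ‖gH μ1 τ - gH μ2 τ‖ ^ 2 : ℝ) : ℂ)) =
        fun τ : ℝ => ((Real.exp (-(δ ^ 2 * τ ^ 2)) : ℂ) * (gH μ1 τ * (starRingEnd ℂ) (gH μ1 τ)) -
          (Real.exp (-(δ ^ 2 * τ ^ 2)) : ℂ) * (gH μ1 τ * (starRingEnd ℂ) (gH μ2 τ)) -
          (Real.exp (-(δ ^ 2 * τ ^ 2)) : ℂ) * (gH μ2 τ * (starRingEnd ℂ) (gH μ1 τ))) +
          (Real.exp (-(δ ^ 2 * τ ^ 2)) : ℂ) * (gH μ2 τ * (starRingEnd ℂ) (gH μ2 τ)) := by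
      funext τ
      rw [Complex.ofReal_mul, Complex.ofReal_pow, ← Complex.mul_conj', map_sub]
      ring
    rw [e1, planch_c4 j11 j12 j21 j22, w11, w12, w21, w22, planch_symm μ1 μ2 δ]
    push_cast
    ring
  have hR' := Complex.ofReal_injective hR
  rw [hL]
  have e4 : (∫ τ : ℝ, Real.exp (-(δ ^ 2 * τ ^ 2)) *
      ‖(∫ x, Complex.exp (-(τ * x * Complex.I)) ∂μ1) -
        (∫ x, Complex.exp (-(τ * x * Complex.I)) ∂μ2)‖ ^ 2) =
      ∫ τ : ℝ, Real.exp (-(δ ^ 2 * τ ^ 2)) * ‖gH μ1 τ - gH μ2 τ‖ ^ 2 := rfl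
  rw [e4, hR']
  field_simp

/-- Integrability of the left side. -/
theorem planch_int (μ1 μ2 : Measure ℝ) [IsFiniteMeasure μ1] [IsFiniteMeasure μ2] {δ : ℝ} (hδ : 0 < δ) :
    Integrable fun u : ℝ => ((∫ x, Real.exp (-(x - u) ^ 2 / (2 * δ ^ 2)) ∂μ1) -
      (∫ x, Real.exp (-(x - u) ^ 2 / (2 * δ ^ 2)) ∂μ2)) ^ 2 := by
  obtain ⟨i11, -⟩ := planch_A3 μ1 μ1 hδ
  obtain ⟨i12, -⟩ := planch_A3 μ1 μ2 hδ
  obtain ⟨i22, -⟩ := planch_A3 μ2 μ2 hδ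
  refine ((i11.sub (i12.const_mul 2)).add i22).congr (Filter.Eventually.of_forall (fun u => ?_))
  simp only [Pi.add_apply, Pi.sub_apply]
  ring

end ASI
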