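import Pool.Agent.ASI.PMS
import Pool.Agent.ASI.Planch

/-!
# ASI.Short: mean square over short intervals

`FF δ L u = ∑ Λ(n)/n exp(-(log n-L)²/8) exp(-(log n-u)²/(2δ²))`, `MM` is the same with `dx` in place of the primes.

PROOF. `planch` with `μ1 = ∑_n Λ(n)/n ps L (log n) · δ_{log n}` (a sum of Dirac measures, finite by
`div_gauss`) and `μ2 = ps L x dx`: `μ1^(τ) = P L τ`, `μ2^(τ) = mainT L τ`. Then
`∫ exp(-δ²τ²) ‖P - mainT‖² dτ ≤ ∫_{|τ| ≤ exp(L/2)} ‖..‖² + ∫_{|τ| > exp(L/2)} exp(-δ²τ²) C (1+L)^12 dτ`; the first part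
is `≤ L^(-A)/2` by `P_mean_sq`, and for `δ ≥ exp(-(1/2-ε) L)` the second one is
`≤ C (1+L)^12 exp(-exp(2εL)/2) ∫ exp(-δ²τ²/2) dτ`, tiny.
-/

namespace ASI

open MeasureTheory ArithmeticFunction

noncomputable def FF (δ L u : ℝ) : ℝ :=
  ∑' n : ℕ, vonMangoldt n / n * ps L (Real.log n) * Real.exp (-(Real.log n - u) ^ 2 / (2 * δ ^ 2))

noncomputable def MM (δ L u : ℝ) : ℝ :=
  ∫ x : ℝ, ps L x * Real.exp (-(x - u) ^ 2 / (2 * δ ^ 2))

private noncomputable def Short_w (L : ℝ) (n : ℕ) : ℝ := vonMangoldt n / n * ps L (Real.log n)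

private theorem Short_w_nonneg (L : ℝ) (n : ℕ) : 0 ≤ Short_w L n := by
  unfold Short_w ps
  have := @vonMangoldt_nonneg n
  positivity

private theorem Short_w_summable (L : ℝ) : Summable (Short_w L) := by
  obtain ⟨C, _, hC⟩ := div_gauss
  refine Summable.of_nonneg_of_le (Short_w_nonneg L) ?_ (hC L).1
  intro n
  rcases Nat.eq_zero_or_pos n with rfl | hn
  · simp [Short_w]
  have hn1 : (1 : ℝ) ≤ n := by exact_mod_cast hn
  have hlog : 0 ≤ Real.log n := Real.log_nonneg hn1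
  have h1 : vonMangoldt n ≤ Real.log n := vonMangoldt_le_log
  have h2 : (1 : ℝ) ≤ (n.divisors.card : ℝ) := by
    have : 0 < n.divisors.card := Finset.card_pos.2 ⟨1, by simp [hn.ne']⟩
    exact_mod_cast this
  have h3 : vonMangoldt n ≤ (n.divisors.card : ℝ) ^ 2 * (1 + Real.log n) ^ 2 := by
    have h4 : Real.log n ≤ (1 + Real.log n) ^ 2 := by nlinarith
    have h5 : (1 + Real.log n) ^ 2 ≤ (n.divisors.card : ℝ) ^ 2 * (1 + Real.log n) ^ 2 := by
      have : (1 : ℝ) ≤ (n.divisors.card : ℝ) ^ 2 := by nlinarith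
      nlinarith [sq_nonneg (1 + Real.log n)]
    linarith
  have h6 : ps L (Real.log n) ≤ Real.exp (-(Real.log n - L) ^ 2 / 16) := by
    unfold ps
    apply Real.exp_le_exp.2
    nlinarith [sq_nonneg (Real.log n - L)]
  unfold Short_w
  apply mul_le_mul _ h6 (by unfold ps; positivity) (by positivity)
  gcongr

private noncomputable def Short_mu1 (L : ℝ) : Measure ℝ :=
  Measure.sum fun n : ℕ => ENNReal.ofReal (Short_w L n) • Measure.dirac (Real.log n)

private noncomputable def Short_mu2 (L : ℝ) : Measure ℝ :=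
  volume.withDensity fun x => ENNReal.ofReal (ps L x)

private theorem Short_ps_int (L : ℝ) : Integrable (ps L) := by
  have h := (integrable_exp_neg_mul_sq (b := 1 / 8) (by norm_num)).comp_sub_right L
  refine h.congr (ae_of_all _ fun x => ?_)
  simp only [ps]
  congr 1
  ring

private instance Short_fin1 (L : ℝ) : IsFiniteMeasure (Short_mu1 L) := by
  constructor
  unfold Short_mu1
  rw [Measure.sum_apply _ MeasurableSet.univ]
  simp only [Measure.smul_apply, measure_univ, smul_eq_mul, mul_one]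
  rw [← ENNReal.ofReal_tsum_of_nonneg (Short_w_nonneg L) (Short_w_summable L)]
  exact ENNReal.ofReal_lt_top

private instance Short_fin2 (L : ℝ) : IsFiniteMeasure (Short_mu2 L) := by
  unfold Short_mu2
  exact isFiniteMeasure_withDensity_ofReal (Short_ps_int L).2

private theorem Short_integral1 {E : Type*} [NormedAddCommGroup E] [NormedSpace ℝ E]
    [CompleteSpace E] (L : ℝ) {f : ℝ → E} (hf : Integrable f (Short_mu1 L)) :
    ∫ x, f x ∂(Short_mu1 L) = ∑' n : ℕ, Short_w L n • f (Real.log n) := by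
  unfold Short_mu1 at hf ⊢
  rw [integral_sum_measure hf]
  refine tsum_congr fun n => ?_
  rw [integral_smul_measure, integral_dirac, ENNReal.toReal_ofReal (Short_w_nonneg L n)]

private theorem Short_integral2 {E : Type*} [NormedAddCommGroup E] [NormedSpace ℝ E]
    (L : ℝ) (f : ℝ → E) :
    ∫ x, f x ∂(Short_mu2 L) = ∫ x, ps L x • f x := by
  unfold Short_mu2
  have hm : Measurable (ps L) := by unfold ps; fun_prop
  rw [integral_withDensity_eq_integral_toReal_smul hm.ennreal_ofReal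
    (ae_of_all _ fun x => ENNReal.ofReal_lt_top)]
  refine integral_congr_ae (ae_of_all _ fun x => ?_)
  simp only
  rw [ENNReal.toReal_ofReal (show 0 ≤ ps L x from (Real.exp_pos _).le)]

private theorem Short_int_real (μ : Measure ℝ) [IsFiniteMeasure μ] (δ u : ℝ) :
    Integrable (fun x => Real.exp (-(x - u) ^ 2 / (2 * δ ^ 2))) μ := by
  refine Integrable.mono' (integrable_const (1 : ℝ)) (by fun_prop) (ae_of_all _ fun x => ?_)
  rw [Real.norm_eq_abs, abs_of_pos (Real.exp_pos _)]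
  apply Real.exp_le_one_iff.2
  have : 0 ≤ (x - u) ^ 2 / (2 * δ ^ 2) := by positivity
  rw [neg_div]
  linarith

private theorem Short_int_cplx (μ : Measure ℝ) [IsFiniteMeasure μ] (τ : ℝ) :
    Integrable (fun x : ℝ => Complex.exp (-(τ * x * Complex.I))) μ := by
  refine Integrable.mono' (integrable_const (1 : ℝ)) (by fun_prop) (ae_of_all _ fun x => ?_)
  rw [Complex.norm_exp]
  simp

private theorem Short_FF_eq (δ L u : ℝ) :
    FF δ L u = ∫ x, Real.exp (-(x - u) ^ 2 / (2 * δ ^ 2)) ∂(Short_mu1 L) := by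
  rw [Short_integral1 L (Short_int_real _ δ u)]
  rfl

private theorem Short_MM_eq (δ L u : ℝ) :
    MM δ L u = ∫ x, Real.exp (-(x - u) ^ 2 / (2 * δ ^ 2)) ∂(Short_mu2 L) := by
  rw [Short_integral2 L]
  rfl

private theorem Short_P_eq (L τ : ℝ) :
    P L τ = ∫ x : ℝ, Complex.exp (-(τ * x * Complex.I)) ∂(Short_mu1 L) := by
  rw [Short_integral1 L (Short_int_cplx _ τ)]
  unfold P
  refine tsum_congr fun n => ?_
  rcases Nat.eq_zero_or_pos n with rfl | hn
  · simp [Short_w]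
  have hn0 : (n : ℂ) ≠ 0 := by exact_mod_cast hn.ne'
  have h1 : np n τ = (1 / (n : ℂ)) * Complex.exp (-(τ * (Real.log n : ℝ) * Complex.I)) := by
    unfold np
    rw [Complex.cpow_def_of_ne_zero hn0]
    have h2 : Complex.log (n : ℂ) * -(1 + τ * Complex.I) =
        -Complex.log (n : ℂ) + -(τ * (Real.log n : ℝ) * Complex.I) := by
      rw [Complex.ofReal_log (by positivity), Complex.ofReal_natCast]
      ring
    rw [h2, Complex.exp_add, Complex.exp_neg, Complex.exp_log hn0, one_div]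
  rw [h1, Complex.real_smul]
  unfold Short_w
  push_cast
  ring

private theorem Short_mainT_eq (L τ : ℝ) :
    mainT L τ = ∫ x : ℝ, Complex.exp (-(τ * x * Complex.I)) ∂(Short_mu2 L) := by
  rw [Short_integral2 L]
  have h1 : ∀ x : ℝ, ps L x • Complex.exp (-(τ * x * Complex.I)) =
      Complex.exp ((-(1 / 8) : ℂ) * (x : ℂ) ^ 2 + ((L : ℂ) / 4 - τ * Complex.I) * x +
        (-(L : ℂ) ^ 2 / 8)) := by
    intro x
    rw [Complex.real_smul]
    unfold ps
    rw [Complex.ofReal_exp, ← Complex.exp_add]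
    congr 1
    push_cast
    ring
  simp only [h1]
  rw [integral_cexp_quadratic (by norm_num)]
  unfold mainT
  have h2 : ((Real.pi : ℂ) / -(-(1 / 8))) ^ (1 / 2 : ℂ) = (Real.sqrt (8 * Real.pi) : ℝ) := by
    rw [Real.sqrt_eq_rpow, Complex.ofReal_cpow (by positivity)]
    congr 1
    · push_cast
      ring
    · push_cast
      ring
  rw [h2, mul_assoc, Complex.ofReal_exp, ← Complex.exp_add]
  congr 2
  push_cast
  ring_nf
  rw [Complex.I_sq]
  ring

private theorem Short_cont (μ : Measure ℝ) [IsFiniteMeasure μ] (δ : ℝ) :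
    Continuous fun u : ℝ => ∫ x, Real.exp (-(x - u) ^ 2 / (2 * δ ^ 2)) ∂μ := by
  refine continuous_of_dominated (bound := fun _ => (1 : ℝ)) ?_ ?_ (integrable_const _) ?_
  · intro u
    exact (Short_int_real μ δ u).aestronglyMeasurable
  · intro u
    refine ae_of_all _ fun x => ?_
    rw [Real.norm_eq_abs, abs_of_pos (Real.exp_pos _)]
    apply Real.exp_le_one_iff.2
    have : 0 ≤ (x - u) ^ 2 / (2 * δ ^ 2) := by positivity
    rw [neg_div]
    linarith
  · exact ae_of_all _ fun x => by fun_prop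

private theorem Short_mainT_norm (L τ : ℝ) : ‖mainT L τ‖ ≤ 6 := by
  unfold mainT
  rw [norm_mul, norm_mul, Complex.norm_exp, Complex.norm_real, Complex.norm_real,
    Real.norm_eq_abs, Real.norm_eq_abs, abs_of_nonneg (Real.sqrt_nonneg _),
    abs_of_pos (Real.exp_pos _)]
  have h1 : Real.sqrt (8 * Real.pi) ≤ 6 := by
    rw [Real.sqrt_le_left (by norm_num)]
    nlinarith [Real.pi_le_four]
  have h2 : Real.exp (-2 * τ ^ 2) ≤ 1 := by
    apply Real.exp_le_one_iff.2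
    nlinarith [sq_nonneg τ]
  have h3 : Real.exp ((-(τ * L * Complex.I) : ℂ)).re = 1 := by simp
  rw [h3, mul_one]
  calc Real.sqrt (8 * Real.pi) * Real.exp (-2 * τ ^ 2) ≤ 6 * 1 := by
        apply mul_le_mul h1 h2 (Real.exp_pos _).le (by norm_num)
    _ = 6 := by norm_num

private theorem Short_mainT_cont (L : ℝ) : Continuous (mainT L) := by
  unfold mainT
  fun_prop

/-- The elementary part: the tail in `τ`. -/
private theorem Short_small {ε : ℝ} (hε : 0 < ε) (A K : ℝ) : ∃ L0 : ℝ, 1 ≤ L0 ∧ ∀ L : ℝ, L0 ≤ L →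
    K * (1 + L) ^ 12 * (Real.exp (-(Real.exp (2 * ε * L) / 2)) * Real.exp (L / 2)) ≤
      L ^ (-A) / 2 := by
  have h1 : Filter.Tendsto (fun L : ℝ => L ^ (12 + A) * Real.exp (-1 * L)) Filter.atTop
      (nhds 0) := tendsto_rpow_mul_exp_neg_mul_atTop_nhds_zero _ _ (by norm_num)
  have h2 : Filter.Tendsto (fun L : ℝ => |K| * 4096 * (L ^ (12 + A) * Real.exp (-1 * L)))
      Filter.atTop (nhds 0) := by simpa using h1.const_mul (|K| * 4096)
  have h3 : ∀ᶠ L : ℝ in Filter.atTop,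
      |K| * 4096 * (L ^ (12 + A) * Real.exp (-1 * L)) < 1 / 2 :=
    h2.eventually_lt_const (by norm_num)
  have h4 : Filter.Tendsto (fun L : ℝ => L ^ (1 : ℕ) * Real.exp (-(2 * ε * L)))
      Filter.atTop (nhds 0) := by
    have := tendsto_rpow_mul_exp_neg_mul_atTop_nhds_zero 1 (2 * ε) (by positivity)
    refine this.congr fun L => ?_
    rw [Real.rpow_one, pow_one, neg_mul]
  have h5 : ∀ᶠ L : ℝ in Filter.atTop, L ^ (1 : ℕ) * Real.exp (-(2 * ε * L)) < 1 / 3 :=
    h4.eventually_lt_const (by norm_num)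
  obtain ⟨L0, hL0⟩ := Filter.eventually_atTop.1 (h3.and h5)
  refine ⟨max L0 1, le_max_right _ _, fun L hL => ?_⟩
  have hL1 : 1 ≤ L := (le_max_right _ _).trans hL
  have hLp : 0 < L := by linarith
  obtain ⟨h6, h7⟩ := hL0 L ((le_max_left _ _).trans hL)
  have h8 : 3 * L ≤ Real.exp (2 * ε * L) := by
    rw [pow_one, Real.exp_neg, ← div_eq_mul_inv, div_lt_iff₀ (Real.exp_pos _)] at h7
    linarith
  have h9 : Real.exp (-(Real.exp (2 * ε * L) / 2)) * Real.exp (L / 2) ≤ Real.exp (-1 * L) := by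
    rw [← Real.exp_add]
    apply Real.exp_le_exp.2
    linarith
  have h10 : (1 + L) ^ 12 ≤ 4096 * L ^ 12 := by
    calc (1 + L) ^ 12 ≤ (2 * L) ^ 12 := by
          apply pow_le_pow_left₀ (by linarith)
          linarith
      _ = 4096 * L ^ 12 := by ring
  have h11 : L ^ (12 + A) = L ^ 12 * L ^ A := by
    rw [Real.rpow_add hLp]
    norm_cast
  have hLA : 0 < L ^ A := Real.rpow_pos_of_pos hLp _
  have h12 : K * (1 + L) ^ 12 * (Real.exp (-(Real.exp (2 * ε * L) / 2)) * Real.exp (L / 2)) ≤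
      |K| * (4096 * L ^ 12) * Real.exp (-1 * L) := by
    have hKK : K ≤ |K| := le_abs_self K
    have hK0 : 0 ≤ |K| := abs_nonneg K
    calc K * (1 + L) ^ 12 * (Real.exp (-(Real.exp (2 * ε * L) / 2)) * Real.exp (L / 2))
        ≤ |K| * (1 + L) ^ 12 * (Real.exp (-(Real.exp (2 * ε * L) / 2)) * Real.exp (L / 2)) := by
          gcongr
      _ ≤ |K| * (4096 * L ^ 12) * Real.exp (-1 * L) := by
          gcongr
  refine h12.trans ?_
  rw [Real.rpow_neg hLp.le, ← one_div, div_div, le_div_iff₀ (by positivity)]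
  rw [h11] at h6
  nlinarith [h6]

theorem short_ms {ε : ℝ} (hε : 0 < ε) (A : ℝ) : ∃ L0 : ℝ, 1 ≤ L0 ∧ ∀ L δ : ℝ, L0 ≤ L →
    Real.exp (-(1 / 2 - ε) * L) ≤ δ → δ ≤ 1 →
    Integrable (fun u : ℝ => (FF δ L u - MM δ L u) ^ 2) ∧
    ∫ u : ℝ, (FF δ L u - MM δ L u) ^ 2 ≤ δ ^ 2 * L ^ (-A) := by
  obtain ⟨C, hC1, hC⟩ := P_triv
  obtain ⟨L1, hL11, hL1⟩ := P_mean_sq (A + 1)
  obtain ⟨L2, hL21, hL2⟩ := Short_small hε A ((C + 6) ^ 2 * Real.sqrt (2 * Real.pi))
  refine ⟨max (max L1 L2) 2, le_trans (by norm_num) (le_max_right _ _), fun L δ hL hδ hδ1 => ?_⟩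
  have hLL1 : L1 ≤ L := ((le_max_left _ _).trans (le_max_left _ _)).trans hL
  have hLL2 : L2 ≤ L := ((le_max_right _ _).trans (le_max_left _ _)).trans hL
  have hLge : 2 ≤ L := (le_max_right _ _).trans hL
  have hLp : 0 < L := by linarith
  have hδ0 : 0 < δ := lt_of_lt_of_le (Real.exp_pos _) hδ
  have hfun : (fun u : ℝ => (FF δ L u - MM δ L u) ^ 2) = fun u : ℝ =>
      ((∫ x, Real.exp (-(x - u) ^ 2 / (2 * δ ^ 2)) ∂(Short_mu1 L)) -
      (∫ x, Real.exp (-(x - u) ^ 2 / (2 * δ ^ 2)) ∂(Short_mu2 L))) ^ 2 := by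
    funext u
    rw [Short_FF_eq, Short_MM_eq]
  refine ⟨by rw [hfun]; exact planch_int _ _ hδ0, ?_⟩
  have hpl := planch (Short_mu1 L) (Short_mu2 L) hδ0
  rw [hfun, hpl]
  simp only [← Short_P_eq, ← Short_mainT_eq]
  refine mul_le_mul_of_nonneg_left ?_ (sq_nonneg _)
  -- the function
  set g : ℝ → ℝ := fun τ => ‖P L τ - mainT L τ‖ ^ 2 with hg
  have hgc : Continuous g := by
    rw [hg]
    exact ((P_cont L).sub (Short_mainT_cont L)).norm.pow 2
  have hg0 : ∀ τ, 0 ≤ g τ := fun τ => by rw [hg]; positivity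
  have hgb : ∀ τ, g τ ≤ (C + 6) ^ 2 * (1 + L) ^ 12 := by
    intro τ
    have h1 : ‖P L τ - mainT L τ‖ ≤ (C + 6) * (1 + L) ^ 6 := by
      have h2 := hC L τ
      rw [abs_of_pos hLp] at h2
      have h3 : (1 : ℝ) ≤ (1 + L) ^ 6 := one_le_pow₀ (by linarith)
      calc ‖P L τ - mainT L τ‖ ≤ ‖P L τ‖ + ‖mainT L τ‖ := norm_sub_le _ _
        _ ≤ C * (1 + L) ^ 6 + 6 := add_le_add h2 (Short_mainT_norm L τ)
        _ ≤ (C + 6) * (1 + L) ^ 6 := by nlinarith
    calc g τ = ‖P L τ - mainT L τ‖ ^ 2 := rfl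
      _ ≤ ((C + 6) * (1 + L) ^ 6) ^ 2 := pow_le_pow_left₀ (norm_nonneg _) h1 2
      _ = (C + 6) ^ 2 * (1 + L) ^ 12 := by ring
  have hδ2 : (0 : ℝ) < δ ^ 2 := by positivity
  have hG : Integrable fun τ : ℝ => Real.exp (-(δ ^ 2 * τ ^ 2)) := by
    have := integrable_exp_neg_mul_sq (b := δ ^ 2) hδ2
    refine this.congr (ae_of_all _ fun x => ?_)
    simp only [neg_mul]
  have hG2 : Integrable fun τ : ℝ => Real.exp (-(δ ^ 2 / 2 * τ ^ 2)) := by
    have := integrable_exp_neg_mul_sq (b := δ ^ 2 / 2) (by positivity)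
    refine this.congr (ae_of_all _ fun x => ?_)
    simp only [neg_mul]
  have hGg : Integrable fun τ : ℝ => Real.exp (-(δ ^ 2 * τ ^ 2)) * g τ := by
    have h1 := hG.mul_const ((C + 6) ^ 2 * (1 + L) ^ 12)
    refine h1.mono' ?_ (ae_of_all _ fun τ => ?_)
    · exact (Continuous.mul (by fun_prop) hgc).aestronglyMeasurable
    · rw [Real.norm_eq_abs, abs_of_nonneg (mul_nonneg (Real.exp_pos _).le (hg0 τ))]
      exact mul_le_mul_of_nonneg_left (hgb τ) (Real.exp_pos _).le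
  set T : ℝ := Real.exp (L / 2) with hT
  have hTp : 0 < T := Real.exp_pos _
  set s : Set ℝ := Set.Icc (-T) T with hs
  have hsm : MeasurableSet s := measurableSet_Icc
  rw [← integral_add_compl hsm hGg]
  -- first part
  have hp1 : ∫ τ in s, Real.exp (-(δ ^ 2 * τ ^ 2)) * g τ ≤ L ^ (-A) / 2 := by
    have h1 : ∫ τ in s, Real.exp (-(δ ^ 2 * τ ^ 2)) * g τ ≤ ∫ τ in s, g τ := by
      refine setIntegral_mono_on hGg.integrableOn ?_ hsm fun τ _ => ?_
      · exact hgc.continuousOn.integrableOn_compact isCompact_Icc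
      · have : Real.exp (-(δ ^ 2 * τ ^ 2)) ≤ 1 := by
          apply Real.exp_le_one_iff.2
          have : 0 ≤ δ ^ 2 * τ ^ 2 := by positivity
          linarith
        calc Real.exp (-(δ ^ 2 * τ ^ 2)) * g τ ≤ 1 * g τ :=
              mul_le_mul_of_nonneg_right this (hg0 τ)
          _ = g τ := one_mul _
    have h2 : ∫ τ in s, g τ ≤ L ^ (-(A + 1)) := hL1 L hLL1
    have h3 : L ^ (-(A + 1)) ≤ L ^ (-A) / 2 := by
      rw [neg_add, Real.rpow_add hLp, Real.rpow_neg_one]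
      have h4 : 0 < L ^ (-A) := Real.rpow_pos_of_pos hLp _
      have h5 : L⁻¹ ≤ 1 / 2 := by
        rw [← one_div]
        exact one_div_le_one_div_of_le (by norm_num) hLge
      nlinarith
    linarith
  -- second part
  have hp2 : ∫ τ in sᶜ, Real.exp (-(δ ^ 2 * τ ^ 2)) * g τ ≤ L ^ (-A) / 2 := by
    have hδT : Real.exp (ε * L) ≤ δ * T := by
      calc Real.exp (ε * L) = Real.exp (-(1 / 2 - ε) * L) * Real.exp (L / 2) := by
            rw [← Real.exp_add]
            congr 1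
            ring
        _ ≤ δ * T := mul_le_mul_of_nonneg_right hδ hTp.le
    have hδT2 : Real.exp (2 * ε * L) ≤ δ ^ 2 * T ^ 2 := by
      calc Real.exp (2 * ε * L) = Real.exp (ε * L) ^ 2 := by
            rw [← Real.exp_nat_mul]
            congr 1
            push_cast
            ring
        _ ≤ (δ * T) ^ 2 := pow_le_pow_left₀ (Real.exp_pos _).le hδT 2
        _ = δ ^ 2 * T ^ 2 := by ring
    set q : ℝ := Real.exp (-(Real.exp (2 * ε * L) / 2)) with hq
    have hpt : ∀ τ ∈ sᶜ, Real.exp (-(δ ^ 2 * τ ^ 2)) * g τ ≤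
        ((C + 6) ^ 2 * (1 + L) ^ 12 * q) * Real.exp (-(δ ^ 2 / 2 * τ ^ 2)) := by
      intro τ hτ
      have hτ2 : T ^ 2 ≤ τ ^ 2 := by
        have h1 : T ≤ |τ| := by
          by_contra hcon
          push Not at hcon
          exact hτ ⟨by linarith [neg_abs_le τ], by linarith [le_abs_self τ]⟩
        calc T ^ 2 ≤ |τ| ^ 2 := pow_le_pow_left₀ hTp.le h1 2
          _ = τ ^ 2 := sq_abs _
      have h2 : Real.exp (-(δ ^ 2 * τ ^ 2)) ≤ q * Real.exp (-(δ ^ 2 / 2 * τ ^ 2)) := by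
        rw [hq, ← Real.exp_add]
        apply Real.exp_le_exp.2
        have h3 : δ ^ 2 * T ^ 2 ≤ δ ^ 2 * τ ^ 2 := mul_le_mul_of_nonneg_left hτ2 hδ2.le
        linarith
      calc Real.exp (-(δ ^ 2 * τ ^ 2)) * g τ
          ≤ (q * Real.exp (-(δ ^ 2 / 2 * τ ^ 2))) * ((C + 6) ^ 2 * (1 + L) ^ 12) :=
            mul_le_mul h2 (hgb τ) (hg0 τ) (by positivity)
        _ = _ := by ring
    have hint : ∫ τ : ℝ, Real.exp (-(δ ^ 2 / 2 * τ ^ 2)) = Real.sqrt (2 * Real.pi) / δ := by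
      have h1 := integral_gaussian (δ ^ 2 / 2)
      simp only [neg_mul] at h1
      rw [h1]
      have h2 : Real.pi / (δ ^ 2 / 2) = (2 * Real.pi) / δ ^ 2 := by
        field_simp
      rw [h2, Real.sqrt_div (by positivity), Real.sqrt_sq hδ0.le]
    have hdinv : 1 / δ ≤ Real.exp (L / 2) := by
      rw [div_le_iff₀ hδ0]
      calc (1 : ℝ) ≤ Real.exp (ε * L) := Real.one_le_exp (by positivity)
        _ ≤ δ * T := hδT
        _ = Real.exp (L / 2) * δ := by rw [hT]; ring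
    calc ∫ τ in sᶜ, Real.exp (-(δ ^ 2 * τ ^ 2)) * g τ
        ≤ ∫ τ in sᶜ, ((C + 6) ^ 2 * (1 + L) ^ 12 * q) * Real.exp (-(δ ^ 2 / 2 * τ ^ 2)) :=
          setIntegral_mono_on hGg.integrableOn (hG2.const_mul _).integrableOn hsm.compl hpt
      _ ≤ ∫ τ : ℝ, ((C + 6) ^ 2 * (1 + L) ^ 12 * q) * Real.exp (-(δ ^ 2 / 2 * τ ^ 2)) :=
          setIntegral_le_integral (hG2.const_mul _) (ae_of_all _ fun τ => by positivity)
      _ = ((C + 6) ^ 2 * (1 + L) ^ 12 * q) * (Real.sqrt (2 * Real.pi) / δ) := by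
          rw [integral_const_mul, hint]
      _ = (C + 6) ^ 2 * Real.sqrt (2 * Real.pi) * (1 + L) ^ 12 * (q * (1 / δ)) := by ring
      _ ≤ (C + 6) ^ 2 * Real.sqrt (2 * Real.pi) * (1 + L) ^ 12 * (q * Real.exp (L / 2)) := by
          gcongr
      _ ≤ L ^ (-A) / 2 := hL2 L hLL2
  calc (∫ τ in s, Real.exp (-(δ ^ 2 * τ ^ 2)) * g τ) +
        ∫ τ in sᶜ, Real.exp (-(δ ^ 2 * τ ^ 2)) * g τ ≤ L ^ (-A) / 2 + L ^ (-A) / 2 :=
        add_le_add hp1 hp2
    _ = L ^ (-A) := by ring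

theorem FF_cont {δ : ℝ} (hδ : 0 < δ) (L : ℝ) : Continuous (FF δ L) ∧ Continuous (MM δ L) := by
  have _ := hδ
  constructor
  · have h := Short_cont (Short_mu1 L) δ
    have h2 : FF δ L = fun u : ℝ => ∫ x, Real.exp (-(x - u) ^ 2 / (2 * δ ^ 2)) ∂(Short_mu1 L) := by
      funext u
      exact Short_FF_eq δ L u
    rw [h2]
    exact h
  · have h := Short_cont (Short_mu2 L) δ
    have h2 : MM δ L = fun u : ℝ => ∫ x, Real.exp (-(x - u) ^ 2 / (2 * δ ^ 2)) ∂(Short_mu2 L) := by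
      funext u
      exact Short_MM_eq δ L u
    rw [h2]
    exact h

end ASI
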