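import Pool.Agent.ASI.Defs

/-!
# ASI.Div: elementary sums with Gaussian weights

PROOF. `hL`, `hM` are between `0` and `1` (Gaussian integral); `1 - hM U x ≤ exp(-(x-U)²/8)` for `x ≥ U`,
`1 - hL U x ≤ exp(-(x-U)²/4)` for `x ≥ U`. `|bt U k| ≤ d(k)`. `∑_{n≤N} d(n)²/n ≤ (∑_{n≤N} 1/n)^4 ≤ (1 + log N)^4`, because
`d(n)² ≤ d_4(n)` (number of factorisations into four factors; it is enough to check prime powers, or:
`d(n)² = ∑ over pairs of divisors a, b`, map `(a, b) ↦ (gcd(a,b), a/gcd, b/gcd, n/lcm)` injective into the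
factorisations `g·a'·b'·m = n`). Weighted sums: split `n` by `⌊log n⌋ = j`, the weight is at most
`exp(-dist²/2)`, partial sums are `≤ (j+2)^4 (j+2)²`. The sum with `n^(-2)`: `exp(-(x-y)²/2 - x) =
exp(-y + 1/2) exp(-(x-y+1)²/2)`.
-/

namespace ASI

open ArithmeticFunction

private theorem gs_int {c : ℝ} (hc : 0 < c) (x : ℝ) :
    ∫ w : ℝ, Real.exp (-(x - w) ^ 2 / c) = Real.sqrt (c * Real.pi) := by
  have h := MeasureTheory.integral_sub_left_eq_self (fun w : ℝ => Real.exp (-w ^ 2 / c))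
    (MeasureTheory.volume) x
  rw [h]
  have h2 := integral_gaussian (1 / c)
  have h3 : (fun w : ℝ => Real.exp (-w ^ 2 / c)) = fun w : ℝ => Real.exp (-(1 / c) * w ^ 2) := by
    funext w
    congr 1
    ring
  rw [h3, h2]
  congr 1
  field_simp

private theorem gs_integrable {c : ℝ} (hc : 0 < c) (x : ℝ) :
    MeasureTheory.Integrable (fun w : ℝ => Real.exp (-(x - w) ^ 2 / c)) := by
  have h := (integrable_exp_neg_mul_sq (b := 1 / c) (by positivity)).comp_sub_left x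
  refine h.congr (Filter.Eventually.of_forall fun w => ?_)
  simp only
  congr 1
  ring

private theorem gs_Ioi_le {c : ℝ} (hc : 0 < c) (U x : ℝ) :
    ∫ w in Set.Ioi U, Real.exp (-(x - w) ^ 2 / c) ≤ Real.sqrt (c * Real.pi) := by
  rw [← gs_int hc x]
  exact MeasureTheory.setIntegral_le_integral (gs_integrable hc x)
    (Filter.Eventually.of_forall fun w => (Real.exp_pos _).le)

private theorem gs_Ioi_nonneg {c : ℝ} (U x : ℝ) :
    0 ≤ ∫ w in Set.Ioi U, Real.exp (-(x - w) ^ 2 / c) :=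
  MeasureTheory.setIntegral_nonneg measurableSet_Ioi fun w _ => (Real.exp_pos _).le

private theorem gs_Iic_le {c : ℝ} (hc : 0 < c) {U x : ℝ} (h : U ≤ x) :
    ∫ w in Set.Iic U, Real.exp (-(x - w) ^ 2 / c) ≤
      Real.exp (-(x - U) ^ 2 / c) * Real.sqrt (c * Real.pi) := by
  have h1 : ∫ w in Set.Iic U, Real.exp (-(x - w) ^ 2 / c) ≤
      ∫ w in Set.Iic U, Real.exp (-(x - U) ^ 2 / c) * Real.exp (-(U - w) ^ 2 / c) := by
    refine MeasureTheory.setIntegral_mono_on (gs_integrable hc x).integrableOn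
      ((gs_integrable hc U).const_mul _).integrableOn measurableSet_Iic ?_
    intro w hw
    rw [← Real.exp_add]
    apply Real.exp_le_exp.2
    rw [← add_div]
    apply div_le_div_of_nonneg_right _ hc.le
    have hw' : w ≤ U := hw
    nlinarith [mul_nonneg (sub_nonneg.2 h) (sub_nonneg.2 hw')]
  refine h1.trans ?_
  rw [MeasureTheory.integral_const_mul]
  apply mul_le_mul_of_nonneg_left _ (Real.exp_pos _).le
  rw [← gs_int hc U]
  exact MeasureTheory.setIntegral_le_integral (gs_integrable hc U)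
    (Filter.Eventually.of_forall fun w => (Real.exp_pos _).le)

private theorem gs_split {c : ℝ} (hc : 0 < c) (U x : ℝ) :
    (∫ w in Set.Iic U, Real.exp (-(x - w) ^ 2 / c)) +
      ∫ w in Set.Ioi U, Real.exp (-(x - w) ^ 2 / c) = Real.sqrt (c * Real.pi) := by
  rw [← gs_int hc x]
  have h := MeasureTheory.integral_add_compl (measurableSet_Iic (a := U)) (gs_integrable hc x)
  rwa [Set.compl_Iic] at h

private theorem gs_nonneg' (c U x : ℝ) :
    0 ≤ (1 / Real.sqrt (c * Real.pi)) * ∫ w in Set.Ioi U, Real.exp (-(x - w) ^ 2 / c) :=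
  mul_nonneg (by positivity) (gs_Ioi_nonneg U x)

private theorem gs_le' {c : ℝ} (hc : 0 < c) (U x : ℝ) :
    (1 / Real.sqrt (c * Real.pi)) * ∫ w in Set.Ioi U, Real.exp (-(x - w) ^ 2 / c) ≤ 1 := by
  have hs : 0 < Real.sqrt (c * Real.pi) := Real.sqrt_pos.2 (by positivity)
  calc (1 / Real.sqrt (c * Real.pi)) * ∫ w in Set.Ioi U, Real.exp (-(x - w) ^ 2 / c)
      ≤ (1 / Real.sqrt (c * Real.pi)) * Real.sqrt (c * Real.pi) :=
        mul_le_mul_of_nonneg_left (gs_Ioi_le hc U x) (by positivity)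
    _ = 1 := by field_simp

private theorem gs_tail' {c : ℝ} (hc : 0 < c) {U x : ℝ} (h : U ≤ x) :
    1 - (1 / Real.sqrt (c * Real.pi)) * ∫ w in Set.Ioi U, Real.exp (-(x - w) ^ 2 / c) ≤
      Real.exp (-(x - U) ^ 2 / c) := by
  have hs : 0 < Real.sqrt (c * Real.pi) := Real.sqrt_pos.2 (by positivity)
  have h1 := gs_split hc U x
  have h2 := gs_Iic_le hc h
  have h3 : ∫ w in Set.Ioi U, Real.exp (-(x - w) ^ 2 / c) =
      Real.sqrt (c * Real.pi) - ∫ w in Set.Iic U, Real.exp (-(x - w) ^ 2 / c) := by linarith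
  rw [h3, mul_sub]
  have h4 : 1 / Real.sqrt (c * Real.pi) * Real.sqrt (c * Real.pi) = 1 := by field_simp
  rw [h4]
  have h5 : 1 / Real.sqrt (c * Real.pi) * ∫ w in Set.Iic U, Real.exp (-(x - w) ^ 2 / c) ≤
      1 / Real.sqrt (c * Real.pi) * (Real.exp (-(x - U) ^ 2 / c) * Real.sqrt (c * Real.pi)) :=
    mul_le_mul_of_nonneg_left h2 (by positivity)
  have h6 : 1 / Real.sqrt (c * Real.pi) * (Real.exp (-(x - U) ^ 2 / c) * Real.sqrt (c * Real.pi)) =
      Real.exp (-(x - U) ^ 2 / c) := by field_simp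
  rw [h6] at h5
  linarith

theorem hL_nonneg (U x : ℝ) : 0 ≤ hL U x := gs_nonneg' 4 U x

theorem hL_le (U x : ℝ) : hL U x ≤ 1 := gs_le' (by norm_num : (0 : ℝ) < 4) U x

theorem hM_nonneg (U x : ℝ) : 0 ≤ hM U x := gs_nonneg' 8 U x

theorem hM_le (U x : ℝ) : hM U x ≤ 1 := gs_le' (by norm_num : (0 : ℝ) < 8) U x

theorem hL_tail {U x : ℝ} (h : U ≤ x) : 1 - hL U x ≤ Real.exp (-(x - U) ^ 2 / 4) :=
  gs_tail' (by norm_num : (0 : ℝ) < 4) h

theorem hM_tail {U x : ℝ} (h : U ≤ x) : 1 - hM U x ≤ Real.exp (-(x - U) ^ 2 / 8) :=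
  gs_tail' (by norm_num : (0 : ℝ) < 8) h

theorem bt_le (U : ℝ) (k : ℕ) : |bt U k| ≤ (k.divisors.card : ℝ) := by
  unfold bt
  calc |∑ d ∈ k.divisors, (moebius d : ℝ) * hM U (Real.log d)|
      ≤ ∑ d ∈ k.divisors, |(moebius d : ℝ) * hM U (Real.log d)| := Finset.abs_sum_le_sum_abs _ _
    _ ≤ ∑ d ∈ k.divisors, (1 : ℝ) := by
        apply Finset.sum_le_sum
        intro d _
        rw [abs_mul, abs_of_nonneg (hM_nonneg U _)]
        have h1 : |(moebius d : ℝ)| ≤ 1 := by exact_mod_cast abs_moebius_le_one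
        calc |(moebius d : ℝ)| * hM U (Real.log d) ≤ 1 * 1 :=
              mul_le_mul h1 (hM_le U _) (hM_nonneg U _) zero_le_one
          _ = 1 := one_mul 1
    _ = (k.divisors.card : ℝ) := by simp

private theorem inv_key {n a b : ℕ} (hn : 1 ≤ n) (ha : a ∣ n) (hb : b ∣ n) :
    Nat.gcd a b * (a / Nat.gcd a b) = a ∧ Nat.gcd a b * (b / Nat.gcd a b) = b ∧
    Nat.gcd a b * (a / Nat.gcd a b) * (b / Nat.gcd a b) * (n / Nat.lcm a b) = n := by
  have ha0 : 0 < a := Nat.pos_of_dvd_of_pos ha hn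
  have h1 : Nat.gcd a b * (a / Nat.gcd a b) = a := Nat.mul_div_cancel' (Nat.gcd_dvd_left a b)
  have h2 : Nat.gcd a b * (b / Nat.gcd a b) = b := Nat.mul_div_cancel' (Nat.gcd_dvd_right a b)
  refine ⟨h1, h2, ?_⟩
  rw [h1]
  have h3 : a * (b / Nat.gcd a b) = Nat.lcm a b := by
    rw [Nat.lcm, Nat.mul_div_assoc _ (Nat.gcd_dvd_right a b)]
  rw [h3]
  exact Nat.mul_div_cancel' (Nat.lcm_dvd ha hb)

private theorem harm_le (N : ℕ) : ∑ m ∈ Finset.Icc 1 N, (1 / (m : ℝ)) ≤ 1 + Real.log N := by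
  have h := harmonic_le_one_add_log N
  rw [harmonic_eq_sum_Icc] at h
  push_cast at h
  simpa [one_div] using h

theorem div_sq_sum (N : ℕ) (hN : 1 ≤ N) :
    ∑ n ∈ Finset.Icc 1 N, ((n.divisors.card : ℝ) ^ 2 / n) ≤ (1 + Real.log N) ^ 4 := by
  classical
  set I := Finset.Icc 1 N with hI
  let e : (Σ _ : ℕ, ℕ × ℕ) → ℕ × ℕ × ℕ × ℕ := fun t =>
    (Nat.gcd t.2.1 t.2.2, t.2.1 / Nat.gcd t.2.1 t.2.2, t.2.2 / Nat.gcd t.2.1 t.2.2,
      t.1 / Nat.lcm t.2.1 t.2.2)
  let S : Finset (Σ _ : ℕ, ℕ × ℕ) := I.sigma (fun n => n.divisors ×ˢ n.divisors)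
  let f : ℕ × ℕ × ℕ × ℕ → ℝ := fun q => 1 / (q.1 : ℝ) * (1 / (q.2.1 : ℝ) * (1 / (q.2.2.1 : ℝ) * (1 / (q.2.2.2 : ℝ))))
  have hmem : ∀ t ∈ S, 1 ≤ t.1 ∧ t.1 ≤ N ∧ t.2.1 ∣ t.1 ∧ t.2.2 ∣ t.1 := by
    intro t ht
    simp only [S, Finset.mem_sigma, Finset.mem_product, Nat.mem_divisors, hI, Finset.mem_Icc] at ht
    exact ⟨ht.1.1, ht.1.2, ht.2.1.1, ht.2.2.1⟩
  have hsum : ∑ n ∈ I, ((n.divisors.card : ℝ) ^ 2 / n) = ∑ t ∈ S, f (e t) := by
    have h1 : ∀ t ∈ S, f (e t) = 1 / (t.1 : ℝ) := by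
      intro t ht
      obtain ⟨h1, _, h2, h3⟩ := hmem t ht
      have h4 := (inv_key h1 h2 h3).2.2
      simp only [f, e]
      rw [one_div_mul_one_div, one_div_mul_one_div, one_div_mul_one_div]
      congr 1
      have h5 : ((Nat.gcd t.2.1 t.2.2 * (t.2.1 / Nat.gcd t.2.1 t.2.2) * (t.2.2 / Nat.gcd t.2.1 t.2.2) *
        (t.1 / Nat.lcm t.2.1 t.2.2) : ℕ) : ℝ) = (t.1 : ℝ) := by rw [h4]
      push_cast at h5 ⊢
      rw [← h5]
      ring
    rw [Finset.sum_congr rfl h1]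
    simp only [S]
    rw [Finset.sum_sigma]
    apply Finset.sum_congr rfl
    intro n _
    simp only [Finset.sum_const, Finset.card_product, nsmul_eq_mul]
    push_cast
    ring
  have hinj : Set.InjOn e (S : Set (Σ _ : ℕ, ℕ × ℕ)) := by
    intro t ht t' ht' h
    obtain ⟨h1, _, h2, h3⟩ := hmem t ht
    obtain ⟨h1', _, h2', h3'⟩ := hmem t' ht'
    obtain ⟨k1, k2, k3⟩ := inv_key h1 h2 h3
    obtain ⟨k1', k2', k3'⟩ := inv_key h1' h2' h3'
    simp only [e, Prod.mk.injEq] at h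
    obtain ⟨e1, e2, e3, e4⟩ := h
    have g1 : t.1 = t'.1 := k3.symm.trans ((congrArg₂ (· * ·) (congrArg₂ (· * ·)
      (congrArg₂ (· * ·) e1 e2) e3) e4).trans k3')
    have g2 : t.2.1 = t'.2.1 := k1.symm.trans ((congrArg₂ (· * ·) e1 e2).trans k1')
    have g3 : t.2.2 = t'.2.2 := k2.symm.trans ((congrArg₂ (· * ·) e1 e3).trans k2')
    obtain ⟨n, a, b⟩ := t
    obtain ⟨n', a', b'⟩ := t'
    simp only at g1 g2 g3
    subst g1 g2 g3
    rfl
  have hf0 : ∀ q, 0 ≤ f q := fun q => by positivity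
  rw [hsum, ← Finset.sum_image (f := f) hinj]
  have hsub : S.image e ⊆ I ×ˢ I ×ˢ I ×ˢ I := by
    intro q hq
    rw [Finset.mem_image] at hq
    obtain ⟨t, ht, rfl⟩ := hq
    obtain ⟨h1, hN', h2, h3⟩ := hmem t ht
    have k3 := (inv_key h1 h2 h3).2.2
    have hpos : ∀ u : ℕ, u ∣ t.1 → 1 ≤ u ∧ u ≤ N := fun u hu =>
      ⟨Nat.pos_of_dvd_of_pos hu h1, (Nat.le_of_dvd h1 hu).trans hN'⟩
    simp only [e, Finset.mem_product, hI, Finset.mem_Icc]
    refine ⟨hpos _ ?_, hpos _ ?_, hpos _ ?_, hpos _ ?_⟩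
    · exact (Nat.gcd_dvd_left _ _).trans h2
    · exact (Nat.div_dvd_of_dvd (Nat.gcd_dvd_left _ _)).trans h2
    · exact (Nat.div_dvd_of_dvd (Nat.gcd_dvd_right _ _)).trans h3
    · exact Nat.div_dvd_of_dvd (Nat.lcm_dvd h2 h3)
  calc ∑ q ∈ S.image e, f q ≤ ∑ q ∈ I ×ˢ I ×ˢ I ×ˢ I, f q :=
        Finset.sum_le_sum_of_subset_of_nonneg hsub (fun q _ _ => hf0 q)
    _ = (∑ m ∈ I, (1 / (m : ℝ))) ^ 4 := by
        rw [Finset.sum_product]
        simp only [f]
        simp_rw [← Finset.mul_sum]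
        rw [← Finset.sum_mul, Finset.sum_product]
        simp_rw [← Finset.mul_sum]
        rw [← Finset.sum_mul, Finset.sum_product]
        simp_rw [← Finset.mul_sum]
        rw [← Finset.sum_mul]
        ring
    _ ≤ (1 + Real.log N) ^ 4 := by
        have h0 : 0 ≤ ∑ m ∈ I, (1 / (m : ℝ)) := Finset.sum_nonneg fun m _ => by positivity
        exact pow_le_pow_left₀ h0 (harm_le N) 4

/-- the weight function without the Gaussian factor -/
private noncomputable def wd (n : ℕ) : ℝ := (n.divisors.card : ℝ) ^ 2 * (1 + Real.log n) ^ 2 / n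

private theorem wd_nonneg (n : ℕ) : 0 ≤ wd n := by unfold wd; positivity

private theorem wd_zero : wd 0 = 0 := by simp [wd]

private theorem wd_sum (N : ℕ) (hN : 1 ≤ N) : ∑ n ∈ Finset.Icc 1 N, wd n ≤ (1 + Real.log N) ^ 6 := by
  have hlN : 0 ≤ Real.log N := Real.log_nonneg (by exact_mod_cast hN)
  calc ∑ n ∈ Finset.Icc 1 N, wd n
      ≤ ∑ n ∈ Finset.Icc 1 N, ((n.divisors.card : ℝ) ^ 2 / n) * (1 + Real.log N) ^ 2 := by
        apply Finset.sum_le_sum
        intro n hn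
        rw [Finset.mem_Icc] at hn
        have h1 : (1 : ℝ) ≤ n := by exact_mod_cast hn.1
        have h2 : (n : ℝ) ≤ N := by exact_mod_cast hn.2
        have h3 : Real.log n ≤ Real.log N := Real.log_le_log (by linarith) h2
        have h4 : 0 ≤ Real.log n := Real.log_nonneg h1
        have h5 : (1 + Real.log n) ^ 2 ≤ (1 + Real.log N) ^ 2 :=
          pow_le_pow_left₀ (by linarith) (by linarith) 2
        unfold wd
        calc (n.divisors.card : ℝ) ^ 2 * (1 + Real.log n) ^ 2 / n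
            = ((n.divisors.card : ℝ) ^ 2 / n) * (1 + Real.log n) ^ 2 := by ring
          _ ≤ ((n.divisors.card : ℝ) ^ 2 / n) * (1 + Real.log N) ^ 2 :=
            mul_le_mul_of_nonneg_left h5 (by positivity)
    _ = (∑ n ∈ Finset.Icc 1 N, ((n.divisors.card : ℝ) ^ 2 / n)) * (1 + Real.log N) ^ 2 := by
        rw [Finset.sum_mul]
    _ ≤ (1 + Real.log N) ^ 4 * (1 + Real.log N) ^ 2 :=
        mul_le_mul_of_nonneg_right (div_sq_sum N hN) (by positivity)
    _ = (1 + Real.log N) ^ 6 := by ring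

private theorem block (s : Finset ℕ) (j : ℕ) :
    ∑ n ∈ s.filter (fun n : ℕ => ⌊Real.log n⌋₊ = j), wd n ≤ ((j : ℝ) + 2) ^ 6 := by
  classical
  set N := ⌊Real.exp ((j : ℝ) + 1)⌋₊ with hNdef
  have hNle : (N : ℝ) ≤ Real.exp ((j : ℝ) + 1) := Nat.floor_le (Real.exp_pos _).le
  have hN1 : 1 ≤ N := Nat.le_floor (by
    have := Real.add_one_le_exp ((j : ℝ) + 1)
    have hj : (0 : ℝ) ≤ j := Nat.cast_nonneg j
    push_cast
    linarith)
  have h1 : ∑ n ∈ s.filter (fun n : ℕ => ⌊Real.log n⌋₊ = j), wd n ≤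
      ∑ n ∈ insert 0 (Finset.Icc 1 N), wd n := by
    apply Finset.sum_le_sum_of_subset_of_nonneg _ (fun n _ _ => wd_nonneg n)
    intro n hn
    rw [Finset.mem_filter] at hn
    rw [Finset.mem_insert, Finset.mem_Icc]
    rcases Nat.eq_zero_or_pos n with h | h
    · exact Or.inl h
    · right
      refine ⟨h, Nat.le_floor ?_⟩
      have h2 : Real.log n < (⌊Real.log n⌋₊ : ℝ) + 1 := Nat.lt_floor_add_one _
      rw [hn.2] at h2
      have h3 : (0 : ℝ) < n := by exact_mod_cast h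
      calc (n : ℝ) = Real.exp (Real.log n) := (Real.exp_log h3).symm
        _ ≤ Real.exp ((j : ℝ) + 1) := Real.exp_le_exp.2 h2.le
  refine h1.trans ?_
  rw [Finset.sum_insert (by simp), wd_zero, zero_add]
  refine (wd_sum N hN1).trans ?_
  have hlog : Real.log N ≤ (j : ℝ) + 1 := by
    have hN0 : (0 : ℝ) < N := by exact_mod_cast hN1
    calc Real.log N ≤ Real.log (Real.exp ((j : ℝ) + 1)) := Real.log_le_log hN0 hNle
      _ = (j : ℝ) + 1 := Real.log_exp _
  have hlN : 0 ≤ Real.log N := Real.log_nonneg (by exact_mod_cast hN1)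
  exact pow_le_pow_left₀ (by linarith) (by linarith) 6

private theorem zsum : Summable (fun k : ℤ => Real.exp (-|(k : ℝ)|)) := by
  have h : Summable (fun k : ℕ => Real.exp (-(k : ℝ))) := Real.summable_exp_neg_nat
  rw [summable_int_iff_summable_nat_and_neg]
  constructor
  · refine h.congr fun k => ?_
    simp
  · refine h.congr fun k => ?_
    simp

private theorem nsum (y : ℝ) (J : ℕ) :
    ∑ j ∈ Finset.range J, Real.exp (-|(j : ℝ) - y|) ≤
      Real.exp 1 * ∑' k : ℤ, Real.exp (-|(k : ℝ)|) := by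
  set m := ⌊y⌋₊ with hm
  have h1 : ∀ j : ℕ, Real.exp (-|(j : ℝ) - y|) ≤ Real.exp 1 * Real.exp (-|(((j : ℤ) - (m : ℤ) : ℤ) : ℝ)|) := by
    intro j
    rw [← Real.exp_add]
    apply Real.exp_le_exp.2
    push_cast
    have hj : (0 : ℝ) ≤ j := Nat.cast_nonneg j
    rcases le_total 0 y with hy | hy
    · have h2 : (m : ℝ) ≤ y := Nat.floor_le hy
      have h3 : y < (m : ℝ) + 1 := Nat.lt_floor_add_one y
      have h4 : |(j : ℝ) - m| ≤ |(j : ℝ) - y| + |y - m| := by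
        have := abs_add_le ((j : ℝ) - y) (y - m)
        simpa using this
      have h5 : |y - (m : ℝ)| ≤ 1 := by rw [abs_le]; constructor <;> linarith
      linarith
    · have h2 : m = 0 := Nat.floor_of_nonpos hy
      rw [h2]
      push_cast
      rw [sub_zero, abs_of_nonneg hj, abs_of_nonneg (by linarith)]
      linarith
  calc ∑ j ∈ Finset.range J, Real.exp (-|(j : ℝ) - y|)
      ≤ ∑ j ∈ Finset.range J, Real.exp 1 * Real.exp (-|(((j : ℤ) - (m : ℤ) : ℤ) : ℝ)|) :=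
        Finset.sum_le_sum fun j _ => h1 j
    _ = Real.exp 1 * ∑ j ∈ Finset.range J, Real.exp (-|(((j : ℤ) - (m : ℤ) : ℤ) : ℝ)|) := by
        rw [Finset.mul_sum]
    _ ≤ Real.exp 1 * ∑' k : ℤ, Real.exp (-|(k : ℝ)|) := by
        apply mul_le_mul_of_nonneg_left _ (Real.exp_pos _).le
        have hinj : Set.InjOn (fun j : ℕ => (j : ℤ) - (m : ℤ)) (Finset.range J : Set ℕ) := by
          intro a _ b _ hab
          simp only at hab
          omega
        rw [← Finset.sum_image (f := fun k : ℤ => Real.exp (-|(k : ℝ)|)) hinj]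
        exact zsum.sum_le_tsum _ (fun k _ => (Real.exp_pos _).le)

private theorem gauss_pt (j : ℕ) (y : ℝ) :
    ((j : ℝ) + 2) ^ 6 * (Real.exp (1 / 16) * Real.exp (-((j : ℝ) - y) ^ 2 / 32)) ≤
      (64 * Real.exp 393) * (1 + |y|) ^ 6 * Real.exp (-|(j : ℝ) - y|) := by
  set u := |(j : ℝ) - y| with hu
  have hu0 : 0 ≤ u := abs_nonneg _
  have hy0 : 0 ≤ |y| := abs_nonneg y
  have hj : (0 : ℝ) ≤ j := Nat.cast_nonneg j
  have h1 : (j : ℝ) ≤ u + |y| := by
    have := abs_add_le ((j : ℝ) - y) y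
    rw [sub_add_cancel, abs_of_nonneg hj] at this
    exact this
  have h2 : (j : ℝ) + 2 ≤ 2 * (1 + |y|) * (1 + u) := by nlinarith
  have h3 : (1 + u) ≤ Real.exp u := by linarith [Real.add_one_le_exp u]
  have h4 : ((j : ℝ) + 2) ^ 6 ≤ (2 * (1 + |y|) * Real.exp u) ^ 6 := by
    apply pow_le_pow_left₀ (by linarith)
    exact h2.trans (mul_le_mul_of_nonneg_left h3 (by positivity))
  have h5 : (2 * (1 + |y|) * Real.exp u) ^ 6 = 64 * (1 + |y|) ^ 6 * Real.exp (6 * u) := by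
    rw [mul_pow, mul_pow, ← Real.exp_nat_mul]
    norm_num
  have h6 : ((j : ℝ) - y) ^ 2 = u ^ 2 := (sq_abs _).symm
  rw [h6]
  calc ((j : ℝ) + 2) ^ 6 * (Real.exp (1 / 16) * Real.exp (-u ^ 2 / 32))
      ≤ 64 * (1 + |y|) ^ 6 * Real.exp (6 * u) * (Real.exp (1 / 16) * Real.exp (-u ^ 2 / 32)) := by
        rw [← h5]
        exact mul_le_mul_of_nonneg_right h4 (by positivity)
    _ = 64 * (1 + |y|) ^ 6 * (Real.exp (6 * u) * Real.exp (1 / 16) * Real.exp (-u ^ 2 / 32)) := by ring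
    _ = 64 * (1 + |y|) ^ 6 * Real.exp (6 * u + 1 / 16 + -u ^ 2 / 32) := by
        rw [← Real.exp_add, ← Real.exp_add]
    _ ≤ 64 * (1 + |y|) ^ 6 * Real.exp (393 + -u) := by
        apply mul_le_mul_of_nonneg_left _ (by positivity)
        apply Real.exp_le_exp.2
        nlinarith [sq_nonneg (u - 112)]
    _ = (64 * Real.exp 393) * (1 + |y|) ^ 6 * Real.exp (-u) := by
        rw [Real.exp_add]; ring

private theorem gauss_w (n : ℕ) (j : ℕ) (hn : n ≠ 0) (hj : ⌊Real.log n⌋₊ = j) (y : ℝ) :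
    Real.exp (-(Real.log n - y) ^ 2 / 16) ≤
      Real.exp (1 / 16) * Real.exp (-((j : ℝ) - y) ^ 2 / 32) := by
  rw [← Real.exp_add]
  apply Real.exp_le_exp.2
  have hl : 0 ≤ Real.log n := Real.log_nonneg (by exact_mod_cast Nat.one_le_iff_ne_zero.2 hn)
  have h1 : (j : ℝ) ≤ Real.log n := by rw [← hj]; exact Nat.floor_le hl
  have h2 : Real.log n < (j : ℝ) + 1 := by rw [← hj]; exact Nat.lt_floor_add_one _
  nlinarith [sq_nonneg (2 * (Real.log n - j) + (j - y))]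

private theorem fin_sum (y : ℝ) (s : Finset ℕ) :
    ∑ n ∈ s, wd n * Real.exp (-(Real.log n - y) ^ 2 / 16) ≤
      (64 * Real.exp 393) * (Real.exp 1 * ∑' k : ℤ, Real.exp (-|(k : ℝ)|)) * (1 + |y|) ^ 6 := by
  classical
  set J := s.sup (fun n : ℕ => ⌊Real.log n⌋₊) + 1 with hJ
  have hmaps : ∀ n ∈ s, ⌊Real.log (n : ℝ)⌋₊ ∈ Finset.range J := by
    intro n hn
    rw [Finset.mem_range, hJ]
    exact Nat.lt_succ_of_le (Finset.le_sup (f := fun n : ℕ => ⌊Real.log (n : ℝ)⌋₊) hn)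
  rw [← Finset.sum_fiberwise_of_maps_to hmaps]
  calc ∑ j ∈ Finset.range J, ∑ n ∈ s.filter (fun n : ℕ => ⌊Real.log (n : ℝ)⌋₊ = j),
        wd n * Real.exp (-(Real.log n - y) ^ 2 / 16)
      ≤ ∑ j ∈ Finset.range J, ((j : ℝ) + 2) ^ 6 *
          (Real.exp (1 / 16) * Real.exp (-((j : ℝ) - y) ^ 2 / 32)) := by
        apply Finset.sum_le_sum
        intro j _
        calc ∑ n ∈ s.filter (fun n : ℕ => ⌊Real.log (n : ℝ)⌋₊ = j),
              wd n * Real.exp (-(Real.log n - y) ^ 2 / 16)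
            ≤ ∑ n ∈ s.filter (fun n : ℕ => ⌊Real.log (n : ℝ)⌋₊ = j),
              wd n * (Real.exp (1 / 16) * Real.exp (-((j : ℝ) - y) ^ 2 / 32)) := by
              apply Finset.sum_le_sum
              intro n hn
              rw [Finset.mem_filter] at hn
              rcases eq_or_ne n 0 with h | h
              · subst h
                rw [wd_zero, zero_mul, zero_mul]
              · exact mul_le_mul_of_nonneg_left (gauss_w n j h hn.2 y) (wd_nonneg n)
          _ = (∑ n ∈ s.filter (fun n : ℕ => ⌊Real.log (n : ℝ)⌋₊ = j), wd n) *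
              (Real.exp (1 / 16) * Real.exp (-((j : ℝ) - y) ^ 2 / 32)) := by
              rw [Finset.sum_mul]
          _ ≤ ((j : ℝ) + 2) ^ 6 * (Real.exp (1 / 16) * Real.exp (-((j : ℝ) - y) ^ 2 / 32)) :=
              mul_le_mul_of_nonneg_right (block s j) (by positivity)
    _ ≤ ∑ j ∈ Finset.range J, (64 * Real.exp 393) * (1 + |y|) ^ 6 * Real.exp (-|(j : ℝ) - y|) :=
        Finset.sum_le_sum fun j _ => gauss_pt j y
    _ = (64 * Real.exp 393) * (1 + |y|) ^ 6 * ∑ j ∈ Finset.range J, Real.exp (-|(j : ℝ) - y|) := by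
        rw [Finset.mul_sum]
    _ ≤ (64 * Real.exp 393) * (1 + |y|) ^ 6 * (Real.exp 1 * ∑' k : ℤ, Real.exp (-|(k : ℝ)|)) :=
        mul_le_mul_of_nonneg_left (nsum y J) (by positivity)
    _ = _ := by ring

private theorem second_le (n : ℕ) (y : ℝ) :
    (n.divisors.card : ℝ) ^ 2 * (1 + Real.log n) ^ 2 / (n : ℝ) ^ 2 *
      Real.exp (-(Real.log n - y) ^ 2 / 2) ≤
    Real.exp (1 / 2) * Real.exp (-y) * (wd n * Real.exp (-(Real.log n - (y - 1)) ^ 2 / 16)) := by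
  rcases eq_or_ne n 0 with h | h
  · subst h
    rw [wd_zero]
    simp
  · have hn : (0 : ℝ) < n := by exact_mod_cast Nat.pos_of_ne_zero h
    have h1 : (n.divisors.card : ℝ) ^ 2 * (1 + Real.log n) ^ 2 / (n : ℝ) ^ 2 *
        Real.exp (-(Real.log n - y) ^ 2 / 2) =
        wd n * (Real.exp (-(Real.log n - y) ^ 2 / 2) * (n : ℝ)⁻¹) := by
      unfold wd
      field_simp
    have h2 : (n : ℝ)⁻¹ = Real.exp (-Real.log n) := by
      rw [Real.exp_neg, Real.exp_log hn]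
    rw [h1, h2, ← Real.exp_add]
    calc wd n * Real.exp (-(Real.log n - y) ^ 2 / 2 + -Real.log n)
        ≤ wd n * Real.exp (1 / 2 + -y + -(Real.log n - (y - 1)) ^ 2 / 16) := by
          apply mul_le_mul_of_nonneg_left _ (wd_nonneg n)
          apply Real.exp_le_exp.2
          nlinarith [sq_nonneg (Real.log n - (y - 1))]
      _ = Real.exp (1 / 2) * Real.exp (-y) * (wd n * Real.exp (-(Real.log n - (y - 1)) ^ 2 / 16)) := by
          rw [Real.exp_add, Real.exp_add]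
          ring

/-- The weighted sums: `d(n)² (1 + log n)²` with weight `exp(-(log n - y)²/2)/n`, and with the wider weight
`exp(-(log n - y)²/16)`. -/
theorem div_gauss : ∃ C : ℝ, 1 ≤ C ∧ ∀ y : ℝ,
    Summable (fun n : ℕ => (n.divisors.card : ℝ) ^ 2 * (1 + Real.log n) ^ 2 / n *
      Real.exp (-(Real.log n - y) ^ 2 / 16)) ∧
    ∑' n : ℕ, (n.divisors.card : ℝ) ^ 2 * (1 + Real.log n) ^ 2 / n *
      Real.exp (-(Real.log n - y) ^ 2 / 16) ≤ C * (1 + |y|) ^ 6 ∧
    ∑' n : ℕ, (n.divisors.card : ℝ) ^ 2 * (1 + Real.log n) ^ 2 / (n : ℝ) ^ 2 *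
      Real.exp (-(Real.log n - y) ^ 2 / 2) ≤ C * (1 + |y|) ^ 6 * Real.exp (-y) := by
  set C0 := (64 * Real.exp 393) * (Real.exp 1 * ∑' k : ℤ, Real.exp (-|(k : ℝ)|)) with hC0
  have hT : 0 ≤ ∑' k : ℤ, Real.exp (-|(k : ℝ)|) := tsum_nonneg fun k => (Real.exp_pos _).le
  have hC0n : 0 ≤ C0 := by positivity
  have hsum : ∀ y : ℝ, Summable (fun n : ℕ => wd n * Real.exp (-(Real.log n - y) ^ 2 / 16)) :=
    fun y => summable_of_sum_le (fun n => mul_nonneg (wd_nonneg n) (Real.exp_pos _).le) (fin_sum y)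
  have hts : ∀ y : ℝ, ∑' n : ℕ, wd n * Real.exp (-(Real.log n - y) ^ 2 / 16) ≤ C0 * (1 + |y|) ^ 6 :=
    fun y => (hsum y).tsum_le_of_sum_le (fin_sum y)
  refine ⟨64 * Real.exp (1 / 2) * C0 + 1, by linarith [mul_nonneg (by positivity : (0:ℝ) ≤ 64 * Real.exp (1 / 2)) hC0n], ?_⟩
  intro y
  have hexp : 1 ≤ Real.exp (1 / 2) := Real.one_le_exp (by norm_num)
  refine ⟨hsum y, (hts y).trans ?_, ?_⟩
  · apply mul_le_mul_of_nonneg_right _ (by positivity)
    nlinarith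
  · have hle : ∑' n : ℕ, (n.divisors.card : ℝ) ^ 2 * (1 + Real.log n) ^ 2 / (n : ℝ) ^ 2 *
        Real.exp (-(Real.log n - y) ^ 2 / 2) ≤
        ∑' n : ℕ, Real.exp (1 / 2) * Real.exp (-y) *
          (wd n * Real.exp (-(Real.log n - (y - 1)) ^ 2 / 16)) := by
      have hs2 : Summable (fun n : ℕ => Real.exp (1 / 2) * Real.exp (-y) *
          (wd n * Real.exp (-(Real.log n - (y - 1)) ^ 2 / 16))) := (hsum (y - 1)).mul_left _
      refine Summable.tsum_le_tsum (fun n => second_le n y) ?_ hs2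
      exact Summable.of_nonneg_of_le (fun n => by positivity) (fun n => second_le n y) hs2
    refine hle.trans ?_
    rw [tsum_mul_left]
    have h1 := hts (y - 1)
    have h2 : (1 + |y - 1|) ^ 6 ≤ 64 * (1 + |y|) ^ 6 := by
      have h3 : 1 + |y - 1| ≤ 2 * (1 + |y|) := by
        have := abs_sub y 1
        rw [abs_one] at this
        linarith [abs_nonneg y]
      calc (1 + |y - 1|) ^ 6 ≤ (2 * (1 + |y|)) ^ 6 := pow_le_pow_left₀ (by positivity) h3 6
        _ = 64 * (1 + |y|) ^ 6 := by ring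
    have he : 0 ≤ Real.exp (1 / 2) * Real.exp (-y) := by positivity
    calc Real.exp (1 / 2) * Real.exp (-y) * ∑' n : ℕ, wd n * Real.exp (-(Real.log n - (y - 1)) ^ 2 / 16)
        ≤ Real.exp (1 / 2) * Real.exp (-y) * (C0 * (64 * (1 + |y|) ^ 6)) :=
          mul_le_mul_of_nonneg_left (h1.trans (mul_le_mul_of_nonneg_left h2 hC0n)) he
      _ = (64 * Real.exp (1 / 2) * C0) * (1 + |y|) ^ 6 * Real.exp (-y) := by ring
      _ ≤ (64 * Real.exp (1 / 2) * C0 + 1) * (1 + |y|) ^ 6 * Real.exp (-y) := by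
          apply mul_le_mul_of_nonneg_right _ (Real.exp_pos _).le
          apply mul_le_mul_of_nonneg_right _ (by positivity)
          linarith

end ASI
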