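import Pool.Agent.ASI.Defs

/-!
# ASI.SmoothK: smooth sums

`KS j w τ = ∑_{e≥1} (log e)^j e^(-1-iτ) exp(-(log e - w)²/8)`, `j = 0, 1`.

PROOF. `h(x) = (log x)^j x^(-1-iτ) exp(-(log x - w)²/8)` on `[1, ∞)`:
`|∑_{e≥1} h(e) - ∫_1^∞ h| ≤ |h(1)| + ∫_1^∞ |h'|`. With `v = log x`: `|h'(x)| dx` is at most
`exp(-v) exp(-(v-w)²/8) (v^j (2 + |τ| + |v-w|/4) + j) dv` and
`exp(-v - (v-w)²/8) = exp(-w + 2) exp(-(v-w+4)²/8)`, so the second part is at most
`C (1+|w|)^j (1 + |τ|) exp(-w)`; the same bound holds for `|h(1)| ≤ exp(-w²/8) ≤ exp(2 - w)`.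
`∫_1^∞ h = ∫_0^∞ v^j exp(-iτv) exp(-(v-w)²/8) dv`; over the whole line this is `√(8π) exp(-2τ²-iτw)` (`j = 0`) or
`(w - 4iτ)` times that (`j = 1`); the integral over `v < 0` is at most `C (1+|w|)^j exp(-w²/16) ≤ C' .. exp(-w)`
for `w ≥ 0`. For `w < 0` the bound `exp(-w) ≥ 1` makes it trivial: `|KS j w τ| ≤ C`. (`KS_triv`: compare with the
integral; `|KS j w τ| ≤ C (1+|w|)^j` for all `w`, because the weight has mass `O(1)` in `log e`.)
-/

namespace ASI

open MeasureTheory Filter Topology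

/-- Smooth sums. -/
noncomputable def KS (j : ℕ) (w τ : ℝ) : ℂ :=
  ∑' n : ℕ, ((Real.log n ^ j * Real.exp (-(Real.log n - w) ^ 2 / 8) : ℝ) : ℂ) * np n τ

/-- the majorant -/
private noncomputable def SmoothK_E (w v : ℝ) : ℝ := Real.exp (-(v - w) ^ 2 / 16)

private theorem SmoothK_E_pos (w v : ℝ) : 0 < SmoothK_E w v := Real.exp_pos _

private theorem SmoothK_E_cont (w : ℝ) : Continuous (SmoothK_E w) := by
  unfold SmoothK_E
  fun_prop

private theorem SmoothK_E_int (w : ℝ) : Integrable (SmoothK_E w) := by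
  have h := (integrable_exp_neg_mul_sq (show (0 : ℝ) < 1 / 16 by norm_num)).comp_sub_right w
  refine h.congr (Eventually.of_forall fun v => ?_)
  unfold SmoothK_E
  simp only
  congr 1
  ring

private theorem SmoothK_E_integral (w : ℝ) : ∫ v, SmoothK_E w v = ∫ v, SmoothK_E 0 v := by
  have h := integral_sub_right_eq_self (μ := (volume : Measure ℝ)) (SmoothK_E 0) w
  rw [← h]
  refine integral_congr_ae (Eventually.of_forall fun v => ?_)
  unfold SmoothK_E
  simp only [sub_zero]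

/-- the majorant with the factor `exp(-v)` -/
private noncomputable def SmoothK_G (w v : ℝ) : ℝ := Real.exp (-v) * SmoothK_E w v

private theorem SmoothK_G_eq (w v : ℝ) :
    SmoothK_G w v = Real.exp (4 - w) * SmoothK_E (w - 8) v := by
  unfold SmoothK_G SmoothK_E
  rw [← Real.exp_add, ← Real.exp_add]
  congr 1
  ring

private theorem SmoothK_G_pos (w v : ℝ) : 0 < SmoothK_G w v :=
  mul_pos (Real.exp_pos _) (SmoothK_E_pos _ _)

private theorem SmoothK_G_cont (w : ℝ) : Continuous (SmoothK_G w) := by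
  unfold SmoothK_G
  exact (Real.continuous_exp.comp continuous_neg).mul (SmoothK_E_cont w)

private theorem SmoothK_G_int (w : ℝ) : Integrable (SmoothK_G w) := by
  have h := (SmoothK_E_int (w - 8)).const_mul (Real.exp (4 - w))
  refine h.congr (Eventually.of_forall fun v => ?_)
  exact (SmoothK_G_eq w v).symm

private theorem SmoothK_G_integral (w : ℝ) :
    ∫ v, SmoothK_G w v = Real.exp 4 * (∫ v, SmoothK_E 0 v) * Real.exp (-w) := by
  have h : (fun v => SmoothK_G w v) = fun v => Real.exp (4 - w) * SmoothK_E (w - 8) v := by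
    funext v
    exact SmoothK_G_eq w v
  rw [h, integral_const_mul, SmoothK_E_integral, sub_eq_add_neg, Real.exp_add]
  ring

private theorem SmoothK_exp (a b : ℝ) (h : |a - b| ≤ 1) :
    (1 + |a|) ^ 2 * Real.exp (-a ^ 2 / 8) ≤ 80 * Real.exp (-b ^ 2 / 16) := by
  set t : ℝ := (|a| - 1) ^ 2 / 16 with ht
  have h1 : b ^ 2 ≤ (|a| + 1) ^ 2 := by
    rw [← sq_abs b]
    refine pow_le_pow_left₀ (abs_nonneg _) ?_ 2
    have := abs_sub_abs_le_abs_sub b a
    rw [abs_sub_comm] at this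
    linarith
  have h2 : -a ^ 2 / 8 ≤ -b ^ 2 / 16 + 1 / 8 + -t := by
    have h3 := sq_abs a
    rw [ht]
    nlinarith
  have h4 : Real.exp (-a ^ 2 / 8) ≤
      Real.exp (-b ^ 2 / 16) * Real.exp (1 / 8) * Real.exp (-t) := by
    rw [← Real.exp_add, ← Real.exp_add]
    exact Real.exp_le_exp.2 h2
  have h5 : (1 + |a|) ^ 2 ≤ 32 * (1 + t) := by
    rw [ht]
    nlinarith [sq_nonneg (|a| - 3)]
  have h6 : (1 + t) * Real.exp (-t) ≤ 1 := by
    have h7 := Real.add_one_le_exp t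
    calc (1 + t) * Real.exp (-t) ≤ Real.exp t * Real.exp (-t) :=
          mul_le_mul_of_nonneg_right (by linarith) (Real.exp_pos _).le
      _ = 1 := by rw [← Real.exp_add, add_neg_cancel, Real.exp_zero]
  have h8 : Real.exp (1 / 8) ≤ 2 := by
    have h9 : Real.exp (1 / 8) ≤ Real.exp (Real.log 2) := by
      refine Real.exp_le_exp.2 ?_
      have := Real.log_two_gt_d9
      linarith
    rwa [Real.exp_log (by norm_num)] at h9
  have hb := Real.exp_pos (-b ^ 2 / 16)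
  calc (1 + |a|) ^ 2 * Real.exp (-a ^ 2 / 8)
      ≤ (32 * (1 + t)) * (Real.exp (-b ^ 2 / 16) * Real.exp (1 / 8) * Real.exp (-t)) :=
        mul_le_mul h5 h4 (Real.exp_pos _).le (by rw [ht]; positivity)
    _ = 32 * Real.exp (-b ^ 2 / 16) * Real.exp (1 / 8) * ((1 + t) * Real.exp (-t)) := by ring
    _ ≤ 32 * Real.exp (-b ^ 2 / 16) * 2 * 1 := by
        have h10 : (0 : ℝ) ≤ (1 + t) * Real.exp (-t) := by
          have : 0 ≤ t := by rw [ht]; positivity
          positivity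
        gcongr
    _ ≤ 80 * Real.exp (-b ^ 2 / 16) := by linarith

/-- lengths of the intervals -/
private theorem SmoothK_len (n : ℕ) (hn : 1 ≤ n) :
    0 ≤ Real.log (n + 1) - Real.log n ∧ Real.log (n + 1) - Real.log n ≤ 1 / n ∧
    1 / (n + 1 : ℝ) ≤ Real.log (n + 1) - Real.log n := by
  have hn' : (1 : ℝ) ≤ n := by exact_mod_cast hn
  have hn0 : (0 : ℝ) < n := by linarith
  have h1 : Real.log (n + 1) - Real.log n = Real.log ((n + 1) / n) := by
    rw [Real.log_div (by positivity) (by positivity)]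
  have h2 : (1 : ℝ) / (n + 1) ≤ Real.log ((n + 1) / n) := by
    have h3 := Real.one_sub_inv_le_log_of_pos (show (0 : ℝ) < (n + 1) / n by positivity)
    refine le_trans (le_of_eq ?_) h3
    field_simp
    ring
  have h4 : Real.log ((n + 1) / n) ≤ 1 / n := by
    have h5 := Real.log_le_sub_one_of_pos (show (0 : ℝ) < (n + 1) / n by positivity)
    refine h5.trans (le_of_eq ?_)
    field_simp
    ring
  rw [h1]
  refine ⟨le_trans (by positivity) h2, h4, h2⟩

private theorem SmoothK_half (n : ℕ) (hn : 1 ≤ n) : 1 / (n : ℝ) ≤ 2 * (1 / (n + 1 : ℝ)) := by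
  have hn' : (1 : ℝ) ≤ n := by exact_mod_cast hn
  rw [mul_one_div, div_le_div_iff₀ (by linarith) (by linarith)]
  linarith

private theorem SmoothK_B1 (n : ℕ) (hn : 1 ≤ n) (c K w : ℝ)
    (h : ∀ v ∈ Set.Icc (Real.log n) (Real.log (n + 1)), c ≤ K * SmoothK_E w v) (hc : 0 ≤ c) :
    c / n ≤ 2 * K * ∫ v in (Real.log n)..(Real.log (n + 1)), SmoothK_E w v := by
  obtain ⟨h1, h2, h3⟩ := SmoothK_len n hn
  have h4 : c * (Real.log (n + 1) - Real.log n) ≤
      ∫ v in (Real.log n)..(Real.log (n + 1)), K * SmoothK_E w v := by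
    have h5 : ∫ v in (Real.log n)..(Real.log (n + 1)), c =
        c * (Real.log (n + 1) - Real.log n) := by
      rw [intervalIntegral.integral_const, smul_eq_mul, mul_comm]
    rw [← h5]
    exact intervalIntegral.integral_mono_on (by linarith) intervalIntegrable_const
      (((SmoothK_E_cont w).const_mul K).intervalIntegrable _ _) h
  rw [intervalIntegral.integral_const_mul] at h4
  have h6 := SmoothK_half n hn
  have h7 : c / n ≤ 2 * (c * (Real.log (n + 1) - Real.log n)) := by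
    rw [div_eq_mul_one_div]
    calc c * (1 / (n : ℝ)) ≤ c * (2 * (1 / (n + 1 : ℝ))) := mul_le_mul_of_nonneg_left h6 hc
      _ ≤ c * (2 * (Real.log (n + 1) - Real.log n)) :=
          mul_le_mul_of_nonneg_left (by linarith) hc
      _ = _ := by ring
  calc c / n ≤ 2 * (c * (Real.log (n + 1) - Real.log n)) := h7
    _ ≤ 2 * (K * ∫ v in (Real.log n)..(Real.log (n + 1)), SmoothK_E w v) := by linarith
    _ = _ := by ring

private theorem SmoothK_B2 (n : ℕ) (hn : 1 ≤ n) (F : ℝ → ℂ) (hF : Continuous F) (K w : ℝ)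
    (h : ∀ v ∈ Set.Icc (Real.log n) (Real.log (n + 1)), ‖F (Real.log n)‖ ≤ K * SmoothK_E w v)
    (h' : ∀ v ∈ Set.Icc (Real.log n) (Real.log (n + 1)),
      ‖F (Real.log n) - F v‖ ≤ (K / n) * SmoothK_E w v) (hK : 0 ≤ K) :
    ‖F (Real.log n) / n - ∫ v in (Real.log n)..(Real.log (n + 1)), F v‖ ≤
      6 * K * ∫ v in (Real.log n)..(Real.log (n + 1)), SmoothK_G w v := by
  obtain ⟨h1, h2, h3⟩ := SmoothK_len n hn
  have hn' : (1 : ℝ) ≤ n := by exact_mod_cast hn
  set δ : ℝ := Real.log (n + 1) - Real.log n with hδ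
  set J : ℝ := ∫ v in (Real.log n)..(Real.log (n + 1)), SmoothK_E w v with hJ
  have hJ0 : 0 ≤ J := intervalIntegral.integral_nonneg (by linarith) fun v _ =>
    (SmoothK_E_pos w v).le
  have e1 : ∫ v in (Real.log n)..(Real.log (n + 1)), F (Real.log n) = (δ : ℂ) * F (Real.log n) := by
    rw [intervalIntegral.integral_const, Complex.real_smul]
  have e2 : F (Real.log n) / n - ∫ v in (Real.log n)..(Real.log (n + 1)), F v =
      F (Real.log n) * ((1 / n - δ : ℝ) : ℂ) +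
        ∫ v in (Real.log n)..(Real.log (n + 1)), (F (Real.log n) - F v) := by
    rw [intervalIntegral.integral_sub intervalIntegrable_const (hF.intervalIntegrable _ _), e1]
    push_cast
    ring
  have e3 : ‖F (Real.log n) * ((1 / n - δ : ℝ) : ℂ)‖ ≤ (1 / n) * (2 * K * J) := by
    rw [norm_mul, Complex.norm_real, Real.norm_eq_abs, abs_of_nonneg (by linarith)]
    have e4 : 1 / (n : ℝ) - δ ≤ 1 / n * (1 / n) := by
      have e5 : 1 / (n : ℝ) - 1 / (n + 1) ≤ 1 / n * (1 / n) := by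
        rw [div_sub_div _ _ (by positivity) (by positivity), div_mul_div_comm,
          div_le_div_iff₀ (by positivity) (by positivity)]
        nlinarith
      linarith
    have e6 := SmoothK_B1 n hn ‖F (Real.log n)‖ K w h (norm_nonneg _)
    calc ‖F (Real.log n)‖ * (1 / (n : ℝ) - δ) ≤ ‖F (Real.log n)‖ * (1 / n * (1 / n)) :=
          mul_le_mul_of_nonneg_left e4 (norm_nonneg _)
      _ = (1 / n) * (‖F (Real.log n)‖ / n) := by ring
      _ ≤ (1 / n) * (2 * K * J) := mul_le_mul_of_nonneg_left e6 (by positivity)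
  have e7 : ‖∫ v in (Real.log n)..(Real.log (n + 1)), (F (Real.log n) - F v)‖ ≤
      (1 / n) * (K * J) := by
    refine (intervalIntegral.norm_integral_le_of_norm_le (g := fun v => (K / n) * SmoothK_E w v)
      (by linarith) (Eventually.of_forall fun v hv => h' v ⟨hv.1.le, hv.2⟩)
      (((SmoothK_E_cont w).const_mul _).intervalIntegrable _ _)).trans (le_of_eq ?_)
    rw [intervalIntegral.integral_const_mul]
    ring
  have e8 : (1 / n) * J ≤ 2 * ∫ v in (Real.log n)..(Real.log (n + 1)), SmoothK_G w v := by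
    rw [hJ, ← intervalIntegral.integral_const_mul, ← intervalIntegral.integral_const_mul]
    refine intervalIntegral.integral_mono_on (by linarith)
      (((SmoothK_E_cont w).const_mul _).intervalIntegrable _ _)
      (((SmoothK_G_cont w).const_mul _).intervalIntegrable _ _) fun v hv => ?_
    unfold SmoothK_G
    rw [← mul_assoc]
    refine mul_le_mul_of_nonneg_right ?_ (SmoothK_E_pos w v).le
    refine (SmoothK_half n hn).trans ?_
    refine mul_le_mul_of_nonneg_left ?_ (by norm_num)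
    rw [one_div, ← Real.exp_log (show (0 : ℝ) < (n : ℝ) + 1 by positivity), ← Real.exp_neg]
    refine Real.exp_le_exp.2 ?_
    have := hv.2
    linarith
  rw [e2]
  calc ‖F (Real.log n) * ((1 / n - δ : ℝ) : ℂ) +
        ∫ v in (Real.log n)..(Real.log (n + 1)), (F (Real.log n) - F v)‖
      ≤ (1 / n) * (2 * K * J) + (1 / n) * (K * J) := (norm_add_le _ _).trans (add_le_add e3 e7)
    _ = 3 * K * ((1 / n) * J) := by ring
    _ ≤ 3 * K * (2 * ∫ v in (Real.log n)..(Real.log (n + 1)), SmoothK_G w v) :=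
        mul_le_mul_of_nonneg_left e8 (by positivity)
    _ = _ := by ring

/-- sums of the integrals over the intervals -/
private theorem SmoothK_C (g : ℝ → ℝ) (hg : Continuous g) (hg0 : ∀ v, 0 ≤ g v)
    (hgi : Integrable g) :
    Summable (fun n : ℕ => ∫ v in (Real.log (n + 1 : ℕ))..(Real.log ((n + 1 : ℕ) + 1)), g v) ∧
    ∑' n : ℕ, ∫ v in (Real.log (n + 1 : ℕ))..(Real.log ((n + 1 : ℕ) + 1)), g v ≤ ∫ v, g v := by
  have h0 : ∀ n : ℕ, 0 ≤ ∫ v in (Real.log (n + 1 : ℕ))..(Real.log ((n + 1 : ℕ) + 1)), g v := by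
    intro n
    refine intervalIntegral.integral_nonneg ?_ fun v _ => hg0 v
    have := (SmoothK_len (n + 1) (by omega)).1
    linarith
  have h1 : ∀ N : ℕ, ∑ n ∈ Finset.range N,
      ∫ v in (Real.log (n + 1 : ℕ))..(Real.log ((n + 1 : ℕ) + 1)), g v ≤ ∫ v, g v := by
    intro N
    have h2 := intervalIntegral.sum_integral_adjacent_intervals (f := g) (μ := volume)
      (a := fun n : ℕ => Real.log (n + 1 : ℕ)) (n := N) fun k _ => hg.intervalIntegrable _ _
    have h3 : ∀ n : ℕ, ∫ v in (Real.log (n + 1 : ℕ))..(Real.log ((n + 1 : ℕ) + 1)), g v =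
        ∫ v in (Real.log (n + 1 : ℕ))..(Real.log (n + 1 + 1 : ℕ)), g v := by
      intro n
      push_cast
      rfl
    rw [Finset.sum_congr rfl fun n _ => h3 n, h2]
    rw [intervalIntegral.integral_of_le]
    · exact setIntegral_le_integral hgi (Eventually.of_forall hg0)
    · refine Real.log_le_log (by norm_num) ?_
      push_cast
      have := Nat.cast_nonneg (α := ℝ) N
      linarith
  exact ⟨summable_of_sum_range_le h0 h1, Real.tsum_le_of_sum_range_le h0 h1⟩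

private theorem SmoothK_D (F : ℝ → ℂ) (hF : Continuous F) (hFi : Integrable F) :
    Summable (fun n : ℕ => ∫ v in (Real.log (n + 1 : ℕ))..(Real.log ((n + 1 : ℕ) + 1)), F v) ∧
    ∑' n : ℕ, ∫ v in (Real.log (n + 1 : ℕ))..(Real.log ((n + 1 : ℕ) + 1)), F v =
      ∫ v in Set.Ioi 0, F v := by
  have hs : Summable (fun n : ℕ =>
      ∫ v in (Real.log (n + 1 : ℕ))..(Real.log ((n + 1 : ℕ) + 1)), F v) := by
    refine Summable.of_norm_bounded (SmoothK_C (fun v => ‖F v‖) hF.norm (fun v => norm_nonneg _)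
      hFi.norm).1 fun n => ?_
    refine intervalIntegral.norm_integral_le_integral_norm ?_
    have := (SmoothK_len (n + 1) (by omega)).1
    linarith
  refine ⟨hs, ?_⟩
  have h1 := hs.hasSum.tendsto_sum_nat
  have h2 : Tendsto (fun N : ℕ => ∑ n ∈ Finset.range N,
      ∫ v in (Real.log (n + 1 : ℕ))..(Real.log ((n + 1 : ℕ) + 1)), F v) atTop
      (𝓝 (∫ v in Set.Ioi 0, F v)) := by
    have h3 : ∀ N : ℕ, ∑ n ∈ Finset.range N,
        ∫ v in (Real.log (n + 1 : ℕ))..(Real.log ((n + 1 : ℕ) + 1)), F v =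
        ∫ v in (0 : ℝ)..(Real.log (N + 1 : ℕ)), F v := by
      intro N
      have h2 := intervalIntegral.sum_integral_adjacent_intervals (f := F) (μ := volume)
        (a := fun n : ℕ => Real.log (n + 1 : ℕ)) (n := N) fun k _ => hF.intervalIntegrable _ _
      have h3 : ∀ n : ℕ, ∫ v in (Real.log (n + 1 : ℕ))..(Real.log ((n + 1 : ℕ) + 1)), F v =
          ∫ v in (Real.log (n + 1 : ℕ))..(Real.log (n + 1 + 1 : ℕ)), F v := by
        intro n
        push_cast
        rfl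
      rw [Finset.sum_congr rfl fun n _ => h3 n, h2]
      simp
    simp only [h3]
    refine intervalIntegral_tendsto_integral_Ioi 0 hFi.integrableOn ?_
    exact Real.tendsto_log_atTop.comp
      ((tendsto_natCast_atTop_atTop (R := ℝ)).comp (tendsto_add_atTop_nat 1))
  exact tendsto_nhds_unique h1 h2

/-- `n^(-1-iτ)` for `n ≥ 1` -/
private theorem SmoothK_np (n : ℕ) (hn : 1 ≤ n) (τ : ℝ) :
    np n τ = Complex.exp (-(τ * Real.log n * Complex.I)) / n := by
  have hn0 : (n : ℂ) ≠ 0 := by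
    have : n ≠ 0 := by omega
    exact_mod_cast this
  unfold np
  rw [Complex.cpow_def_of_ne_zero hn0, ← Complex.natCast_log]
  have h1 : ((Real.log n : ℝ) : ℂ) * -(1 + τ * Complex.I) =
      -(τ * Real.log n * Complex.I) + -((Real.log n : ℝ) : ℂ) := by ring
  rw [h1, Complex.exp_add, Complex.exp_neg ((Real.log n : ℝ) : ℂ), ← Complex.ofReal_exp,
    Real.exp_log (by
      have : (0 : ℝ) < n := by
        have : 0 < n := by omega
        exact_mod_cast this
      exact this)]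
  rw [Complex.ofReal_natCast, ← div_eq_mul_inv]

private theorem SmoothK_np0 (τ : ℝ) : np 0 τ = 0 := by
  unfold np
  rw [Nat.cast_zero, Complex.zero_cpow]
  intro h
  have := congrArg Complex.re h
  simp at this

private theorem SmoothK_npn (n : ℕ) (hn : 1 ≤ n) (τ : ℝ) : ‖np n τ‖ = 1 / n := by
  rw [SmoothK_np n hn, norm_div, Complex.norm_natCast]
  congr 1
  rw [show (-(τ * Real.log n * Complex.I) : ℂ) = ((-(τ * Real.log n) : ℝ) : ℂ) * Complex.I by
    push_cast; ring]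
  exact Complex.norm_exp_ofReal_mul_I _

/-- the exponential factor -/
private noncomputable def SmoothK_Φ (w τ v : ℝ) : ℂ :=
  Complex.exp (-(((v : ℂ) - w) ^ 2 / 8) - τ * v * Complex.I)

private theorem SmoothK_Φ_norm (w τ v : ℝ) : ‖SmoothK_Φ w τ v‖ = Real.exp (-(v - w) ^ 2 / 8) := by
  unfold SmoothK_Φ
  rw [Complex.norm_exp]
  congr 1
  have h1 : (-(((v : ℂ) - w) ^ 2 / 8) - τ * v * Complex.I) =
      ((-(v - w) ^ 2 / 8 : ℝ) : ℂ) + ((-(τ * v) : ℝ) : ℂ) * Complex.I := by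
    push_cast
    ring
  rw [h1, Complex.add_re, Complex.ofReal_re, Complex.re_ofReal_mul, Complex.I_re, mul_zero,
    add_zero]

private theorem SmoothK_Φ_deriv (w τ v : ℝ) :
    HasDerivAt (SmoothK_Φ w τ) ((-(((v : ℂ) - w) / 4) - τ * Complex.I) * SmoothK_Φ w τ v) v := by
  have h1 : HasDerivAt (fun u : ℝ => (u : ℂ)) 1 v := Complex.ofRealCLM.hasDerivAt
  have h2 := ((((h1.sub_const (w : ℂ)).pow 2).div_const 8).neg.sub
    ((h1.const_mul (τ : ℂ)).mul_const Complex.I)).cexp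
  refine (h2.congr_deriv ?_)
  unfold SmoothK_Φ
  simp only [Pi.neg_apply, Pi.sub_apply, Pi.pow_apply]
  push_cast
  ring

/-- the function -/
private noncomputable def SmoothK_F (j : ℕ) (w τ v : ℝ) : ℂ := (v : ℂ) ^ j * SmoothK_Φ w τ v

/-- its derivative -/
private noncomputable def SmoothK_F' (j : ℕ) (w τ v : ℝ) : ℂ :=
  (j * (v : ℂ) ^ (j - 1) + (v : ℂ) ^ j * (-(((v : ℂ) - w) / 4) - τ * Complex.I)) *
    SmoothK_Φ w τ v

private theorem SmoothK_F_deriv (j : ℕ) (w τ v : ℝ) :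
    HasDerivAt (SmoothK_F j w τ) (SmoothK_F' j w τ v) v := by
  have h1 : HasDerivAt (fun u : ℝ => (u : ℂ)) 1 v := Complex.ofRealCLM.hasDerivAt
  have h2 := (h1.pow j).mul (SmoothK_Φ_deriv w τ v)
  refine h2.congr_deriv ?_
  unfold SmoothK_F'
  simp only [Pi.pow_apply]
  ring

private theorem SmoothK_F_cont (j : ℕ) (w τ : ℝ) : Continuous (SmoothK_F j w τ) :=
  continuous_iff_continuousAt.2 fun v => (SmoothK_F_deriv j w τ v).continuousAt

private theorem SmoothK_pow {j : ℕ} (hj : j ≤ 1) (w v : ℝ) :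
    |v| ^ j ≤ (1 + |w|) * (1 + |v - w|) := by
  have h1 : |v| ≤ |w| + |v - w| := by
    have := abs_add_le w (v - w)
    rwa [add_sub_cancel] at this
  have h2 := abs_nonneg w
  have h3 := abs_nonneg (v - w)
  interval_cases j
  · rw [pow_zero]
    nlinarith
  · rw [pow_one]
    nlinarith

private theorem SmoothK_F_bound {j : ℕ} (hj : j ≤ 1) (w τ v v' : ℝ) (h : |v - v'| ≤ 1) :
    ‖SmoothK_F j w τ v‖ ≤ 80 * (1 + |w|) * SmoothK_E w v' := by
  have h1 := SmoothK_exp (v - w) (v' - w) (by rwa [sub_sub_sub_cancel_right])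
  have h2 := SmoothK_pow hj w v
  have h3 := abs_nonneg w
  have h4 := abs_nonneg (v - w)
  unfold SmoothK_F
  rw [norm_mul, norm_pow, Complex.norm_real, Real.norm_eq_abs, SmoothK_Φ_norm]
  calc |v| ^ j * Real.exp (-(v - w) ^ 2 / 8)
      ≤ (1 + |w|) * (1 + |v - w|) ^ 2 * Real.exp (-(v - w) ^ 2 / 8) := by
        refine mul_le_mul_of_nonneg_right ?_ (Real.exp_pos _).le
        refine h2.trans (mul_le_mul_of_nonneg_left ?_ (by linarith))
        nlinarith
    _ = (1 + |w|) * ((1 + |v - w|) ^ 2 * Real.exp (-(v - w) ^ 2 / 8)) := by ring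
    _ ≤ (1 + |w|) * (80 * Real.exp (-(v' - w) ^ 2 / 16)) :=
        mul_le_mul_of_nonneg_left h1 (by linarith)
    _ = _ := by
        unfold SmoothK_E
        ring

private theorem SmoothK_F'_bound {j : ℕ} (hj : j ≤ 1) (w τ v v' : ℝ) (h : |v - v'| ≤ 1) :
    ‖SmoothK_F' j w τ v‖ ≤ 160 * (1 + |w|) * (1 + |τ|) * SmoothK_E w v' := by
  have h1 := SmoothK_exp (v - w) (v' - w) (by rwa [sub_sub_sub_cancel_right])
  have h2 := SmoothK_pow hj w v
  have h3 := abs_nonneg w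
  have h4 := abs_nonneg (v - w)
  have h5 := abs_nonneg τ
  have h6 : ‖(j * (v : ℂ) ^ (j - 1) + (v : ℂ) ^ j * (-(((v : ℂ) - w) / 4) - τ * Complex.I))‖ ≤
      2 * ((1 + |w|) * (1 + |τ|)) * (1 + |v - w|) ^ 2 := by
    have h7 : ‖(j * (v : ℂ) ^ (j - 1) : ℂ)‖ ≤ 1 := by
      interval_cases j <;> simp
    have h8 : ‖(-(((v : ℂ) - w) / 4) - τ * Complex.I)‖ ≤ |v - w| / 4 + |τ| := by
      refine (norm_sub_le _ _).trans (add_le_add ?_ ?_)
      · rw [norm_neg, norm_div, ← Complex.ofReal_sub, Complex.norm_real, Real.norm_eq_abs]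
        simp
      · rw [norm_mul, Complex.norm_real, Complex.norm_I, mul_one, Real.norm_eq_abs]
    have h9 : ‖((v : ℂ) ^ j * (-(((v : ℂ) - w) / 4) - τ * Complex.I))‖ ≤
        ((1 + |w|) * (1 + |v - w|)) * (|v - w| / 4 + |τ|) := by
      rw [norm_mul, norm_pow, Complex.norm_real, Real.norm_eq_abs]
      exact mul_le_mul h2 h8 (norm_nonneg _) (by positivity)
    refine (norm_add_le _ _).trans ((add_le_add h7 h9).trans ?_)
    have h10 : |v - w| / 4 + |τ| ≤ (1 + |v - w|) * (1 + |τ|) := by nlinarith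
    have h11 : ((1 + |w|) * (1 + |v - w|)) * (|v - w| / 4 + |τ|) ≤
        ((1 + |w|) * (1 + |v - w|)) * ((1 + |v - w|) * (1 + |τ|)) :=
      mul_le_mul_of_nonneg_left h10 (by positivity)
    have h12 : 1 ≤ ((1 + |w|) * (1 + |v - w|)) * ((1 + |v - w|) * (1 + |τ|)) := by
      have e1 : 1 ≤ (1 + |w|) * (1 + |v - w|) := one_le_mul_of_one_le_of_one_le (by linarith)
        (by linarith)
      have e2 : 1 ≤ (1 + |v - w|) * (1 + |τ|) := one_le_mul_of_one_le_of_one_le (by linarith)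
        (by linarith)
      exact one_le_mul_of_one_le_of_one_le e1 e2
    linarith
  unfold SmoothK_F'
  rw [norm_mul, SmoothK_Φ_norm]
  calc _ ≤ 2 * ((1 + |w|) * (1 + |τ|)) * (1 + |v - w|) ^ 2 * Real.exp (-(v - w) ^ 2 / 8) :=
        mul_le_mul_of_nonneg_right h6 (Real.exp_pos _).le
    _ = 2 * ((1 + |w|) * (1 + |τ|)) * ((1 + |v - w|) ^ 2 * Real.exp (-(v - w) ^ 2 / 8)) := by
        ring
    _ ≤ 2 * ((1 + |w|) * (1 + |τ|)) * (80 * Real.exp (-(v' - w) ^ 2 / 16)) :=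
        mul_le_mul_of_nonneg_left h1 (by positivity)
    _ = _ := by
        unfold SmoothK_E
        ring

private theorem SmoothK_F_int {j : ℕ} (hj : j ≤ 1) (w τ : ℝ) : Integrable (SmoothK_F j w τ) := by
  refine ((SmoothK_E_int w).const_mul (80 * (1 + |w|))).mono'
    (SmoothK_F_cont j w τ).aestronglyMeasurable (Eventually.of_forall fun v => ?_)
  exact SmoothK_F_bound hj w τ v v (by simp)

private theorem SmoothK_F'_int {j : ℕ} (hj : j ≤ 1) (w τ : ℝ) : Integrable (SmoothK_F' j w τ) := by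
  have hc : Continuous (SmoothK_F' j w τ) := by
    unfold SmoothK_F' SmoothK_Φ
    fun_prop
  refine ((SmoothK_E_int w).const_mul (160 * (1 + |w|) * (1 + |τ|))).mono'
    hc.aestronglyMeasurable (Eventually.of_forall fun v => ?_)
  exact SmoothK_F'_bound hj w τ v v (by simp)

private theorem SmoothK_term {n : ℕ} (hn : 1 ≤ n) (j : ℕ) (w τ : ℝ) :
    ((Real.log n ^ j * Real.exp (-(Real.log n - w) ^ 2 / 8) : ℝ) : ℂ) * np n τ =
      SmoothK_F j w τ (Real.log n) / n := by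
  rw [SmoothK_np n hn]
  unfold SmoothK_F SmoothK_Φ
  rw [sub_eq_add_neg (-(((Real.log n : ℂ) - w) ^ 2 / 8)), Complex.exp_add]
  push_cast
  rw [neg_div]
  ring

private theorem SmoothK_term0 (j : ℕ) (w τ : ℝ) :
    ((Real.log (0 : ℕ) ^ j * Real.exp (-(Real.log (0 : ℕ) - w) ^ 2 / 8) : ℝ) : ℂ) * np 0 τ =
      0 := by
  rw [SmoothK_np0, mul_zero]

private theorem SmoothK_dist {n : ℕ} (hn : 1 ≤ n) {v : ℝ}
    (hv : v ∈ Set.Icc (Real.log n) (Real.log (n + 1))) :
    0 ≤ v - Real.log n ∧ v - Real.log n ≤ 1 / n ∧ |Real.log n - v| ≤ 1 := by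
  obtain ⟨h1, h2, h3⟩ := SmoothK_len n hn
  have h4 := hv.1
  have h5 := hv.2
  have hn' : (1 : ℝ) ≤ n := by exact_mod_cast hn
  have h6 : 1 / (n : ℝ) ≤ 1 := by
    rw [div_le_one (by linarith)]
    exact hn'
  refine ⟨by linarith, by linarith, ?_⟩
  rw [abs_le]
  constructor <;> linarith

theorem KS_triv : ∃ C : ℝ, 1 ≤ C ∧ ∀ (j : ℕ) (w τ : ℝ), j ≤ 1 →
    Summable (fun n : ℕ => ‖((Real.log n ^ j * Real.exp (-(Real.log n - w) ^ 2 / 8) : ℝ) : ℂ) * np n τ‖) ∧
    ∑' n : ℕ, ‖((Real.log n ^ j * Real.exp (-(Real.log n - w) ^ 2 / 8) : ℝ) : ℂ) * np n τ‖ ≤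
      C * (1 + |w|) := by
  set c0 : ℝ := ∫ v, SmoothK_E 0 v with hc0
  have hc0' : 0 ≤ c0 := integral_nonneg fun v => (SmoothK_E_pos 0 v).le
  refine ⟨1 + 160 * c0, by linarith, fun j w τ hj => ?_⟩
  have hw := abs_nonneg w
  have h1 : ∀ n : ℕ, ‖((Real.log (n + 1 : ℕ) ^ j *
      Real.exp (-(Real.log (n + 1 : ℕ) - w) ^ 2 / 8) : ℝ) : ℂ) * np (n + 1) τ‖ ≤
      2 * (80 * (1 + |w|)) *
        ∫ v in (Real.log (n + 1 : ℕ))..(Real.log ((n + 1 : ℕ) + 1)), SmoothK_E w v := by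
    intro n
    rw [SmoothK_term (by omega : 1 ≤ n + 1), norm_div, Complex.norm_natCast]
    exact SmoothK_B1 (n + 1) (by omega) _ _ _ (fun v hv => SmoothK_F_bound hj w τ _ _
      (SmoothK_dist (by omega) hv).2.2) (norm_nonneg _)
  obtain ⟨h2, h3⟩ := SmoothK_C (SmoothK_E w) (SmoothK_E_cont w) (fun v => (SmoothK_E_pos w v).le)
    (SmoothK_E_int w)
  have h4 := h2.mul_left (2 * (80 * (1 + |w|)))
  have h5 : Summable (fun n : ℕ => ‖((Real.log (n + 1 : ℕ) ^ j *
      Real.exp (-(Real.log (n + 1 : ℕ) - w) ^ 2 / 8) : ℝ) : ℂ) * np (n + 1) τ‖) :=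
    Summable.of_nonneg_of_le (fun n => norm_nonneg _) h1 h4
  have h6 : Summable (fun n : ℕ => ‖((Real.log n ^ j *
      Real.exp (-(Real.log n - w) ^ 2 / 8) : ℝ) : ℂ) * np n τ‖) :=
    (summable_nat_add_iff 1).1 h5
  refine ⟨h6, ?_⟩
  rw [h6.tsum_eq_zero_add, SmoothK_term0, norm_zero, zero_add]
  calc _ ≤ ∑' n : ℕ, 2 * (80 * (1 + |w|)) *
        ∫ v in (Real.log (n + 1 : ℕ))..(Real.log ((n + 1 : ℕ) + 1)), SmoothK_E w v :=
        h5.tsum_le_tsum h1 h4
    _ = 2 * (80 * (1 + |w|)) * ∑' n : ℕ,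
        ∫ v in (Real.log (n + 1 : ℕ))..(Real.log ((n + 1 : ℕ) + 1)), SmoothK_E w v := tsum_mul_left
    _ ≤ 2 * (80 * (1 + |w|)) * c0 := by
        rw [hc0, ← SmoothK_E_integral w]
        exact mul_le_mul_of_nonneg_left h3 (by positivity)
    _ ≤ (1 + 160 * c0) * (1 + |w|) := by nlinarith

/-- The integral over the line. -/
private theorem SmoothK_line : ∃ C : ℝ, 0 ≤ C ∧ ∀ (j : ℕ) (w τ : ℝ), j ≤ 1 →
    ‖∫ v, SmoothK_F j w τ v‖ ≤ C * (1 + |w|) * (1 + |τ|) * Real.exp (-τ ^ 2) := by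
  set c1 : ℝ := ‖((Real.pi : ℂ) / -(-(1 / 8) : ℂ)) ^ (1 / 2 : ℂ)‖ with hc1
  have hc1' : 0 ≤ c1 := norm_nonneg _
  have h0 : ∀ w τ : ℝ, ‖∫ v, SmoothK_Φ w τ v‖ ≤ c1 * Real.exp (-τ ^ 2) := by
    intro w τ
    have h1 := integral_cexp_quadratic (b := (-(1 / 8) : ℂ)) (by norm_num)
      ((w : ℂ) / 4 - τ * Complex.I) (-((w : ℂ) ^ 2 / 8))
    have h2 : (fun v : ℝ => SmoothK_Φ w τ v) = fun v : ℝ =>
        Complex.exp (-(1 / 8) * (v : ℂ) ^ 2 + ((w : ℂ) / 4 - τ * Complex.I) * v +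
          -((w : ℂ) ^ 2 / 8)) := by
      funext v
      unfold SmoothK_Φ
      congr 1
      ring
    rw [h2, h1, norm_mul]
    refine mul_le_mul_of_nonneg_left ?_ hc1'
    rw [Complex.norm_exp]
    refine Real.exp_le_exp.2 ?_
    have h3 : (-((w : ℂ) ^ 2 / 8) - ((w : ℂ) / 4 - τ * Complex.I) ^ 2 / (4 * -(1 / 8))) =
        ((-2 * τ ^ 2 : ℝ) : ℂ) + ((-(w * τ) : ℝ) : ℂ) * Complex.I := by
      have hI := Complex.I_sq
      push_cast
      linear_combination (2 * (τ : ℂ) ^ 2) * hI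
    rw [h3, Complex.add_re, Complex.ofReal_re, Complex.re_ofReal_mul, Complex.I_re, mul_zero,
      add_zero]
    nlinarith [sq_nonneg τ]
  have hΦ : ∀ w τ : ℝ, Integrable (SmoothK_Φ w τ) := by
    intro w τ
    have := SmoothK_F_int (j := 0) (by norm_num) w τ
    refine this.congr (Eventually.of_forall fun v => ?_)
    unfold SmoothK_F
    simp
  refine ⟨4 * c1, by positivity, fun j w τ hj => ?_⟩
  have hw := abs_nonneg w
  have hτ := abs_nonneg τ
  have he := Real.exp_pos (-τ ^ 2)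
  have h1 := h0 w τ
  interval_cases j
  · have h2 : (fun v : ℝ => SmoothK_F 0 w τ v) = fun v : ℝ => SmoothK_Φ w τ v := by
      funext v
      unfold SmoothK_F
      simp
    rw [h2]
    refine h1.trans ?_
    have h3 : 1 ≤ 4 * ((1 + |w|) * (1 + |τ|)) := by nlinarith [mul_nonneg hw hτ]
    calc c1 * Real.exp (-τ ^ 2) = 1 * (c1 * Real.exp (-τ ^ 2)) := by ring
      _ ≤ (4 * ((1 + |w|) * (1 + |τ|))) * (c1 * Real.exp (-τ ^ 2)) :=
          mul_le_mul_of_nonneg_right h3 (by positivity)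
      _ = _ := by ring
  · have h2 : ∫ v, SmoothK_F' 0 w τ v = 0 :=
      integral_eq_zero_of_hasDerivAt_of_integrable (f := SmoothK_F 0 w τ)
        (fun v => SmoothK_F_deriv 0 w τ v) (SmoothK_F'_int (by norm_num) w τ)
        (SmoothK_F_int (by norm_num) w τ)
    have h3 : (fun v : ℝ => SmoothK_F 1 w τ v) = fun v : ℝ =>
        ((w : ℂ) - 4 * τ * Complex.I) * SmoothK_Φ w τ v - 4 * SmoothK_F' 0 w τ v := by
      funext v
      unfold SmoothK_F SmoothK_F'
      push_cast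
      ring
    rw [h3, integral_sub ((hΦ w τ).const_mul _) ((SmoothK_F'_int (by norm_num) w τ).const_mul _),
      integral_const_mul, integral_const_mul, h2, mul_zero, sub_zero, norm_mul]
    have h4 : ‖((w : ℂ) - 4 * τ * Complex.I)‖ ≤ 4 * ((1 + |w|) * (1 + |τ|)) := by
      refine (norm_sub_le _ _).trans ?_
      rw [norm_mul, norm_mul, Complex.norm_real, Complex.norm_real, Complex.norm_I, mul_one,
        Real.norm_eq_abs, Real.norm_eq_abs]
      have : ‖(4 : ℂ)‖ = 4 := by simp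
      rw [this]
      nlinarith [mul_nonneg hw hτ]
    calc _ ≤ (4 * ((1 + |w|) * (1 + |τ|))) * (c1 * Real.exp (-τ ^ 2)) :=
          mul_le_mul h4 h1 (norm_nonneg _) (by positivity)
      _ = _ := by ring

theorem KS_bound : ∃ C : ℝ, 1 ≤ C ∧ ∀ (j : ℕ) (w τ : ℝ), j ≤ 1 →
    ‖KS j w τ‖ ≤ C * (1 + |w|) * (1 + |τ|) * (Real.exp (-τ ^ 2) + Real.exp (-w)) := by
  obtain ⟨C2, hC2, hline⟩ := SmoothK_line
  set c0 : ℝ := ∫ v, SmoothK_E 0 v with hc0
  have hc0' : 0 ≤ c0 := integral_nonneg fun v => (SmoothK_E_pos 0 v).le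
  set c4 : ℝ := Real.exp 4 * c0 with hc4
  have hc4' : 0 ≤ c4 := mul_nonneg (Real.exp_pos _).le hc0'
  refine ⟨1 + C2 + 1040 * c4, by linarith, fun j w τ hj => ?_⟩
  have hw := abs_nonneg w
  have hτ := abs_nonneg τ
  set A : ℝ := (1 + |w|) * (1 + |τ|) with hA
  have hA0 : 0 ≤ A := by positivity
  have hA1 : 1 + |w| ≤ A := by
    rw [hA]
    nlinarith [mul_nonneg hw hτ]
  set K : ℝ := 160 * (1 + |w|) * (1 + |τ|) with hK
  have hKA : K = 160 * A := by rw [hK, hA]; ring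
  have hK0 : 0 ≤ K := by positivity
  obtain ⟨CT, -, htriv⟩ := KS_triv
  have hsum := (htriv j w τ hj).1.of_norm
  have e1 : KS j w τ = ∑' n : ℕ, SmoothK_F j w τ (Real.log (n + 1 : ℕ)) / ((n + 1 : ℕ) : ℂ) := by
    unfold KS
    rw [hsum.tsum_eq_zero_add, SmoothK_term0, zero_add]
    exact tsum_congr fun n => SmoothK_term (by omega) j w τ
  have hst : Summable fun n : ℕ =>
      SmoothK_F j w τ (Real.log (n + 1 : ℕ)) / ((n + 1 : ℕ) : ℂ) := by
    have := (summable_nat_add_iff 1).2 hsum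
    refine this.congr fun n => ?_
    exact SmoothK_term (by omega) j w τ
  obtain ⟨hi1, hi2⟩ := SmoothK_D (SmoothK_F j w τ) (SmoothK_F_cont j w τ) (SmoothK_F_int hj w τ)
  have hdiff : ∀ n : ℕ, ‖SmoothK_F j w τ (Real.log (n + 1 : ℕ)) / ((n + 1 : ℕ) : ℂ) -
      ∫ v in (Real.log (n + 1 : ℕ))..(Real.log ((n + 1 : ℕ) + 1)), SmoothK_F j w τ v‖ ≤
      6 * K * ∫ v in (Real.log (n + 1 : ℕ))..(Real.log ((n + 1 : ℕ) + 1)), SmoothK_G w v := by
    intro n
    refine SmoothK_B2 (n + 1) (by omega) (SmoothK_F j w τ) (SmoothK_F_cont j w τ) K w ?_ ?_ hK0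
    · intro v hv
      refine (SmoothK_F_bound hj w τ _ v (SmoothK_dist (by omega) hv).2.2).trans ?_
      refine mul_le_mul_of_nonneg_right ?_ (SmoothK_E_pos w v).le
      rw [hKA]
      linarith
    · intro v hv
      obtain ⟨d1, d2, d3⟩ := SmoothK_dist (by omega : 1 ≤ n + 1) hv
      have h7 := norm_image_sub_le_of_norm_deriv_le_segment' (f := SmoothK_F j w τ)
        (f' := SmoothK_F' j w τ) (a := Real.log (n + 1 : ℕ)) (b := v) (C := K * SmoothK_E w v)
        (fun x _ => (SmoothK_F_deriv j w τ x).hasDerivWithinAt) (fun x hx => by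
          refine SmoothK_F'_bound hj w τ x v ?_
          have a1 := hx.1
          have a2 := hx.2
          rw [abs_sub_comm, abs_of_nonneg (by linarith)]
          rw [abs_sub_comm, abs_of_nonneg d1] at d3
          linarith) v ⟨by linarith, le_rfl⟩
      rw [norm_sub_rev]
      refine h7.trans ?_
      calc K * SmoothK_E w v * (v - Real.log (n + 1 : ℕ))
          ≤ K * SmoothK_E w v * (1 / ((n + 1 : ℕ) : ℝ)) :=
            mul_le_mul_of_nonneg_left d2 (mul_nonneg hK0 (SmoothK_E_pos w v).le)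
        _ = _ := by ring
  obtain ⟨hg1, hg2⟩ := SmoothK_C (SmoothK_G w) (SmoothK_G_cont w)
    (fun v => (SmoothK_G_pos w v).le) (SmoothK_G_int w)
  have hG : ∫ v, SmoothK_G w v = c4 * Real.exp (-w) := by
    rw [SmoothK_G_integral, hc4]
  have e2 : ‖∑' n : ℕ, (SmoothK_F j w τ (Real.log (n + 1 : ℕ)) / ((n + 1 : ℕ) : ℂ) -
      ∫ v in (Real.log (n + 1 : ℕ))..(Real.log ((n + 1 : ℕ) + 1)), SmoothK_F j w τ v)‖ ≤
      6 * K * (c4 * Real.exp (-w)) := by
    refine (tsum_of_norm_bounded (hg1.mul_left (6 * K)).hasSum hdiff).trans ?_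
    rw [tsum_mul_left, ← hG]
    exact mul_le_mul_of_nonneg_left hg2 (by positivity)
  have e3 : ‖∫ v in Set.Iic (0 : ℝ), SmoothK_F j w τ v‖ ≤
      80 * (1 + |w|) * (c4 * Real.exp (-w)) := by
    calc ‖∫ v in Set.Iic (0 : ℝ), SmoothK_F j w τ v‖
        ≤ ∫ v in Set.Iic (0 : ℝ), 80 * (1 + |w|) * SmoothK_G w v := by
          refine norm_integral_le_of_norm_le ((SmoothK_G_int w).const_mul _).integrableOn ?_
          filter_upwards [ae_restrict_mem measurableSet_Iic] with v hv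
          refine (SmoothK_F_bound hj w τ v v (by simp)).trans ?_
          refine mul_le_mul_of_nonneg_left ?_ (by positivity)
          unfold SmoothK_G
          have h1 : 1 ≤ Real.exp (-v) := Real.one_le_exp (by
            have : v ≤ 0 := hv
            linarith)
          have h2 := SmoothK_E_pos w v
          nlinarith
      _ ≤ ∫ v, 80 * (1 + |w|) * SmoothK_G w v :=
          setIntegral_le_integral ((SmoothK_G_int w).const_mul _) (Eventually.of_forall fun v => by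
            have := SmoothK_G_pos w v
            simp only [Pi.zero_apply]
            positivity)
      _ = _ := by rw [integral_const_mul, hG]
  have e4 : ∫ v in Set.Ioi (0 : ℝ), SmoothK_F j w τ v =
      (∫ v, SmoothK_F j w τ v) - ∫ v in Set.Iic (0 : ℝ), SmoothK_F j w τ v := by
    have h1 := setIntegral_union (μ := volume) (f := SmoothK_F j w τ)
      (Set.Iic_disjoint_Ioi (le_refl (0 : ℝ))) measurableSet_Ioi
      (SmoothK_F_int hj w τ).integrableOn (SmoothK_F_int hj w τ).integrableOn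
    rw [Set.Iic_union_Ioi, setIntegral_univ] at h1
    rw [h1]
    ring
  have e5 : KS j w τ = (∑' n : ℕ, (SmoothK_F j w τ (Real.log (n + 1 : ℕ)) / ((n + 1 : ℕ) : ℂ) -
      ∫ v in (Real.log (n + 1 : ℕ))..(Real.log ((n + 1 : ℕ) + 1)), SmoothK_F j w τ v)) +
      ((∫ v, SmoothK_F j w τ v) - ∫ v in Set.Iic (0 : ℝ), SmoothK_F j w τ v) := by
    rw [← e4, ← hi2, hst.tsum_sub hi1, e1]
    ring
  have e6 := hline j w τ hj
  have hew := Real.exp_pos (-w)
  have heτ := Real.exp_pos (-τ ^ 2)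
  rw [e5]
  refine (norm_add_le _ _).trans ((add_le_add e2 ((norm_sub_le _ _).trans
    (add_le_add e6 e3))).trans ?_)
  have f1 : 6 * K * (c4 * Real.exp (-w)) = 960 * (A * (c4 * Real.exp (-w))) := by
    rw [hKA]
    ring
  have f2 : 80 * (1 + |w|) * (c4 * Real.exp (-w)) ≤ 80 * (A * (c4 * Real.exp (-w))) := by
    have : (1 + |w|) * (c4 * Real.exp (-w)) ≤ A * (c4 * Real.exp (-w)) :=
      mul_le_mul_of_nonneg_right hA1 (by positivity)
    linarith
  have f3 : (1 + C2 + 1040 * c4) * (1 + |w|) * (1 + |τ|) *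
      (Real.exp (-τ ^ 2) + Real.exp (-w)) =
      A * (Real.exp (-τ ^ 2) + Real.exp (-w)) + C2 * A * Real.exp (-τ ^ 2) +
      C2 * (A * Real.exp (-w)) + 1040 * (A * (c4 * Real.exp (-τ ^ 2))) +
      1040 * (A * (c4 * Real.exp (-w))) := by
    rw [hA]
    ring
  have f4 : C2 * (1 + |w|) * (1 + |τ|) * Real.exp (-τ ^ 2) = C2 * A * Real.exp (-τ ^ 2) := by
    rw [hA]
    ring
  rw [f1, f3, f4]
  have g1 : 0 ≤ A * (Real.exp (-τ ^ 2) + Real.exp (-w)) := by positivity
  have g2 : 0 ≤ C2 * (A * Real.exp (-w)) := by positivity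
  have g3 : 0 ≤ 1040 * (A * (c4 * Real.exp (-τ ^ 2))) := by positivity
  linarith

/-- Bounded sums without logarithm, with the two weights that occur. -/
theorem one_gauss : ∃ C : ℝ, 1 ≤ C ∧ ∀ (w τ : ℝ),
    Summable (fun n : ℕ => ‖(Real.exp (-(3 * (Real.log n - w) ^ 2) / 4) : ℂ) * np n τ‖) ∧
    ∑' n : ℕ, ‖(Real.exp (-(3 * (Real.log n - w) ^ 2) / 4) : ℂ) * np n τ‖ ≤ C := by
  set c0 : ℝ := ∫ v, SmoothK_E 0 v with hc0
  have hc0' : 0 ≤ c0 := integral_nonneg fun v => (SmoothK_E_pos 0 v).le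
  refine ⟨1 + 160 * c0, by linarith, fun w τ => ?_⟩
  have h1 : ∀ n : ℕ, ‖(Real.exp (-(3 * (Real.log (n + 1 : ℕ) - w) ^ 2) / 4) : ℂ) *
      np (n + 1) τ‖ ≤ 2 * 80 *
        ∫ v in (Real.log (n + 1 : ℕ))..(Real.log ((n + 1 : ℕ) + 1)), SmoothK_E w v := by
    intro n
    rw [norm_mul, Complex.norm_real, Real.norm_eq_abs, abs_of_pos (Real.exp_pos _),
      SmoothK_npn _ (by omega), ← div_eq_mul_one_div]
    refine SmoothK_B1 (n + 1) (by omega) _ _ _ (fun v hv => ?_) (Real.exp_pos _).le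
    have h2 := SmoothK_exp (Real.log (n + 1 : ℕ) - w) (v - w)
      (by rw [sub_sub_sub_cancel_right]; exact (SmoothK_dist (by omega) hv).2.2)
    refine le_trans ?_ h2
    have h3 : Real.exp (-(3 * (Real.log (n + 1 : ℕ) - w) ^ 2) / 4) ≤
        Real.exp (-(Real.log (n + 1 : ℕ) - w) ^ 2 / 8) := by
      refine Real.exp_le_exp.2 ?_
      nlinarith [sq_nonneg (Real.log (n + 1 : ℕ) - w)]
    refine h3.trans ?_
    have h4 : 1 ≤ (1 + |Real.log (n + 1 : ℕ) - w|) ^ 2 := by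
      have := abs_nonneg (Real.log (n + 1 : ℕ) - w)
      nlinarith
    calc Real.exp (-(Real.log (n + 1 : ℕ) - w) ^ 2 / 8)
        = 1 * Real.exp (-(Real.log (n + 1 : ℕ) - w) ^ 2 / 8) := (one_mul _).symm
      _ ≤ _ := mul_le_mul_of_nonneg_right h4 (Real.exp_pos _).le
  obtain ⟨h2, h3⟩ := SmoothK_C (SmoothK_E w) (SmoothK_E_cont w) (fun v => (SmoothK_E_pos w v).le)
    (SmoothK_E_int w)
  have h4 := h2.mul_left (2 * 80)
  have h5 : Summable (fun n : ℕ => ‖(Real.exp (-(3 * (Real.log (n + 1 : ℕ) - w) ^ 2) / 4) : ℂ) *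
      np (n + 1) τ‖) :=
    Summable.of_nonneg_of_le (fun n => norm_nonneg _) h1 h4
  have h6 : Summable (fun n : ℕ => ‖(Real.exp (-(3 * (Real.log n - w) ^ 2) / 4) : ℂ) *
      np n τ‖) :=
    (summable_nat_add_iff 1).1 h5
  refine ⟨h6, ?_⟩
  rw [h6.tsum_eq_zero_add, SmoothK_np0, mul_zero, norm_zero, zero_add]
  calc _ ≤ ∑' n : ℕ, 2 * 80 *
        ∫ v in (Real.log (n + 1 : ℕ))..(Real.log ((n + 1 : ℕ) + 1)), SmoothK_E w v :=
        h5.tsum_le_tsum h1 h4
    _ = 2 * 80 * ∑' n : ℕ,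
        ∫ v in (Real.log (n + 1 : ℕ))..(Real.log ((n + 1 : ℕ) + 1)), SmoothK_E w v := tsum_mul_left
    _ ≤ 2 * 80 * c0 := by
        rw [hc0, ← SmoothK_E_integral w]
        exact mul_le_mul_of_nonneg_left h3 (by positivity)
    _ ≤ 1 + 160 * c0 := by linarith

end ASI
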