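import Pool.Agent.ASI.Short
import Pool.Agent.Lib.PNT

/-!
# ASI.AA: almost all short intervals contain many primes

PROOF. `r > 0` (multiplier), `s` (shift), `a < b`, `1/2 < θ < 1`, `θ' = (θ + 1/2)/2`, `L = log X`, `δ = X^(θ'-1)`
(`= exp(-(1/2-ε)L)` with `ε = θ' - 1/2`). For `c ∈ [κ1 X, κ2 X]` let `I_c = [r c + s + a c^θ, r c + s + b c^θ - 1]`,
`J_c` the set of the `u` with `exp u` in the middle half of `I_c`. For large `X`, `log x ∈ [L - C, L + C]` for
`x ∈ I_c` and `ps L` varies on `log I_c` by a factor `1 + o(1)`.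
(1) For `u ∈ J_c` the distance of `u` to the complement of `log I_c` is `≥ c1 X^(θ-1) ≥ δ X^(ε/2)`, so the terms of `FF`
with `n ∉ I_c` contribute at most `exp(-X^ε/8)`; `∫_{J_c} exp(-(log n - u)²/(2δ²)) du ≤ δ √(2π)`. Hence
`∑_{n ∈ I_c} Λ(n)/n ps L (log n) ≥ (1/(δ√(2π))) ∫_{J_c} FF δ L u du - tiny`
`≥ (1/(δ√(2π))) ∫_{J_c} MM - (1/(δ√(2π))) ∫_{J_c} |FF - MM|`, and `MM δ L u ≥ (1-o(1)) δ√(2π) ps L u` on `J_c`
(`u` bounded distance from `L`). So, as `|J_c| ≥ (1-o(1)) (b-a) c^θ/(2 r c)`: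
`∑_{n ∈ I_c} Λ(n) ≥ (1-o(1)) (b-a) c^θ/2 - (C X/δ) ∫_{J_c} |FF - MM| du`.
(2) Prime powers `n = q^j`, `j ≥ 2`, in `I_c` contribute at most `C log X (X^(θ-1/2) + 1) log X = o(X^θ)`. So if
`(C X/δ) ∫_{J_c} |FF-MM| ≤ η X^θ` with a small `η` (depending on `a`, `b`, `κ1`), then the number of primes in `I_c` is
at least `(2/5)(b-a) c^θ/log(C X) ≥ ((b-a)/5) c^θ/log X`.
(3) Exceptions: every `u` lies in at most `C X^θ` of the sets `J_c`, all the `J_c` lie in an interval of length `C`,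
so `∑_c ∫_{J_c} |FF - MM| ≤ C X^θ (C ∫ (FF-MM)²)^(1/2) ≤ C' X^θ δ L^(-A')`, and the number of exceptional `c` is at
most `C'' X L^(-A')`. Take `A' = A + 1`.
-/

namespace ASI

open Finset

open Classical in
/-- The `c` for which the short interval contains few primes. -/
noncomputable def Bad (r s a b θ κ1 κ2 X : ℝ) : Finset ℕ :=
  (Icc ⌈κ1 * X⌉₊ ⌊κ2 * X⌋₊).filter fun c =>
    (((Icc 1 ⌊r * c + s + b * (c : ℝ) ^ θ - 1⌋₊).filter fun q : ℕ =>
      q.Prime ∧ r * c + s + a * (c : ℝ) ^ θ ≤ (q : ℝ)).card : ℝ) < (b - a) / 5 * (c : ℝ) ^ θ / Real.log X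

/-! ### Elementary estimates -/

private theorem AA_ps_pos (L x : ℝ) : 0 < ps L x := Real.exp_pos _

/-- The weights of `FF`. -/
private noncomputable def AA_w (L : ℝ) (n : ℕ) : ℝ :=
  ArithmeticFunction.vonMangoldt n / n * ps L (Real.log n)

private theorem AA_w_nonneg (L : ℝ) (n : ℕ) : 0 ≤ AA_w L n := by
  unfold AA_w
  have h1 : 0 ≤ ArithmeticFunction.vonMangoldt n := ArithmeticFunction.vonMangoldt_nonneg
  have h2 := AA_ps_pos L (Real.log n)
  positivity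

private theorem AA_mass : ∃ C : ℝ, 1 ≤ C ∧ ∀ L : ℝ, Summable (AA_w L) ∧
    ∑' n : ℕ, AA_w L n ≤ C * (1 + |L|) ^ 6 := by
  obtain ⟨C, hC, h⟩ := div_gauss
  refine ⟨C, hC, fun L => ?_⟩
  obtain ⟨h1, h2, -⟩ := h L
  have hle : ∀ n : ℕ, AA_w L n ≤ (n.divisors.card : ℝ) ^ 2 * (1 + Real.log n) ^ 2 / n *
      Real.exp (-(Real.log n - L) ^ 2 / 16) := by
    intro n
    rcases Nat.eq_zero_or_pos n with rfl | hn
    · simp [AA_w]
    · have hn1 : (1 : ℝ) ≤ n := by exact_mod_cast hn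
      have hl : 0 ≤ Real.log n := Real.log_nonneg hn1
      have hd : (1 : ℝ) ≤ (n.divisors.card : ℝ) := by
        exact_mod_cast Finset.card_pos.2 ⟨n, Nat.mem_divisors_self n hn.ne'⟩
      have hv : ArithmeticFunction.vonMangoldt n ≤ Real.log n :=
        ArithmeticFunction.vonMangoldt_le_log
      have hv2 : ArithmeticFunction.vonMangoldt n ≤
          (n.divisors.card : ℝ) ^ 2 * (1 + Real.log n) ^ 2 := by
        have h3 : Real.log n ≤ (1 + Real.log n) ^ 2 := by nlinarith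
        have h4 : (1 : ℝ) ≤ (n.divisors.card : ℝ) ^ 2 := one_le_pow₀ hd
        have h5 : 0 ≤ (1 + Real.log n) ^ 2 := sq_nonneg _
        nlinarith
      unfold AA_w ps
      have he : Real.exp (-(Real.log n - L) ^ 2 / 8) ≤ Real.exp (-(Real.log n - L) ^ 2 / 16) := by
        refine Real.exp_le_exp.2 ?_
        nlinarith [sq_nonneg (Real.log n - L)]
      refine mul_le_mul ?_ he (Real.exp_pos _).le (by positivity)
      exact div_le_div_of_nonneg_right hv2 (by positivity)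
  have hs : Summable (AA_w L) := Summable.of_nonneg_of_le (AA_w_nonneg L) hle h1
  exact ⟨hs, (hs.tsum_le_tsum hle h1).trans h2⟩

private theorem AA_point {L δ u D : ℝ} (hδ : 0 < δ) (hD : 0 ≤ D) (F : Finset ℕ)
    (hF : ∀ n : ℕ, n ∉ F → 1 ≤ n → D ≤ |Real.log n - u|) (hs : Summable (AA_w L)) :
    FF δ L u ≤ ∑ n ∈ F, AA_w L n * Real.exp (-(Real.log n - u) ^ 2 / (2 * δ ^ 2)) +
      (∑' n, AA_w L n) * Real.exp (-D ^ 2 / (2 * δ ^ 2)) := by
  have hE1 : ∀ n : ℕ, Real.exp (-(Real.log n - u) ^ 2 / (2 * δ ^ 2)) ≤ 1 := by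
    intro n
    rw [Real.exp_le_one_iff]
    exact div_nonpos_of_nonpos_of_nonneg (by nlinarith [sq_nonneg (Real.log n - u)])
      (by positivity)
  have hsum1 : Summable fun n : ℕ =>
      AA_w L n * Real.exp (-(Real.log n - u) ^ 2 / (2 * δ ^ 2)) := by
    refine Summable.of_nonneg_of_le (fun n => mul_nonneg (AA_w_nonneg L n) (Real.exp_pos _).le)
      (fun n => ?_) hs
    exact mul_le_of_le_one_right (AA_w_nonneg L n) (hE1 n)
  have hsum2 : Summable fun n : ℕ => if n ∈ F then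
      AA_w L n * Real.exp (-(Real.log n - u) ^ 2 / (2 * δ ^ 2)) else 0 :=
    summable_of_ne_finset_zero (s := F) fun n hn => if_neg hn
  have hsum3 : Summable fun n : ℕ => AA_w L n * Real.exp (-D ^ 2 / (2 * δ ^ 2)) :=
    hs.mul_right _
  have hle : ∀ n : ℕ, AA_w L n * Real.exp (-(Real.log n - u) ^ 2 / (2 * δ ^ 2)) ≤
      (if n ∈ F then AA_w L n * Real.exp (-(Real.log n - u) ^ 2 / (2 * δ ^ 2)) else 0) +
        AA_w L n * Real.exp (-D ^ 2 / (2 * δ ^ 2)) := by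
    intro n
    have h0 : 0 ≤ AA_w L n * Real.exp (-D ^ 2 / (2 * δ ^ 2)) :=
      mul_nonneg (AA_w_nonneg L n) (Real.exp_pos _).le
    by_cases hn : n ∈ F
    · rw [if_pos hn]
      linarith
    · rw [if_neg hn, zero_add]
      rcases Nat.eq_zero_or_pos n with rfl | hn1
      · simp [AA_w]
      · refine mul_le_mul_of_nonneg_left (Real.exp_le_exp.2 ?_) (AA_w_nonneg L n)
        refine div_le_div_of_nonneg_right ?_ (by positivity)
        have h1 := hF n hn hn1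
        have h2 : D ^ 2 ≤ (Real.log n - u) ^ 2 := by
          rw [← sq_abs (Real.log n - u)]
          exact pow_le_pow_left₀ hD h1 2
        linarith
  have h1 : FF δ L u = ∑' n : ℕ, AA_w L n * Real.exp (-(Real.log n - u) ^ 2 / (2 * δ ^ 2)) := rfl
  rw [h1]
  refine (hsum1.tsum_le_tsum hle (hsum2.add hsum3)).trans (le_of_eq ?_)
  rw [hsum2.tsum_add hsum3, tsum_mul_right]
  congr 1
  rw [tsum_eq_sum (s := F) fun n hn => if_neg hn]
  exact Finset.sum_congr rfl fun n hn => if_pos hn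

private theorem AA_MM {L δ u : ℝ} (hδ : 0 < δ) (hδ2 : δ ^ 2 ≤ 8 / 100) :
    99 / 100 * (δ * Real.sqrt (2 * Real.pi)) * ps L u ≤ MM δ L u := by
  obtain ⟨bb, hbb⟩ : ∃ bb : ℝ, bb = (δ ^ 2 + 4) / (8 * δ ^ 2) := ⟨_, rfl⟩
  obtain ⟨m, hm⟩ : ∃ m : ℝ, m = (δ ^ 2 * L + 4 * u) / (δ ^ 2 + 4) := ⟨_, rfl⟩
  have hδp : 0 < δ ^ 2 := by positivity
  have h1 : ∀ x : ℝ, ps L x * Real.exp (-(x - u) ^ 2 / (2 * δ ^ 2)) =
      Real.exp (-(u - L) ^ 2 / (2 * (δ ^ 2 + 4))) * Real.exp (-bb * (x - m) ^ 2) := by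
    intro x
    unfold ps
    rw [← Real.exp_add, ← Real.exp_add, hbb, hm]
    congr 1
    field_simp
    ring
  have h2 : MM δ L u = Real.exp (-(u - L) ^ 2 / (2 * (δ ^ 2 + 4))) * Real.sqrt (Real.pi / bb) := by
    unfold MM
    simp_rw [h1]
    rw [MeasureTheory.integral_const_mul,
      MeasureTheory.integral_sub_right_eq_self (fun x : ℝ => Real.exp (-bb * x ^ 2)) m,
      integral_gaussian]
  rw [h2]
  have h3 : ps L u ≤ Real.exp (-(u - L) ^ 2 / (2 * (δ ^ 2 + 4))) := by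
    unfold ps
    refine Real.exp_le_exp.2 ?_
    rw [neg_div, neg_div, neg_le_neg_iff]
    refine div_le_div_of_nonneg_left (sq_nonneg _) (by norm_num) (by linarith)
  have h4 : 99 / 100 * (δ * Real.sqrt (2 * Real.pi)) ≤ Real.sqrt (Real.pi / bb) := by
    refine Real.le_sqrt_of_sq_le ?_
    rw [mul_pow, mul_pow, Real.sq_sqrt (by positivity), hbb, div_div_eq_mul_div,
      le_div_iff₀ (by positivity)]
    have hpi := Real.pi_pos
    nlinarith [mul_pos hpi hδp]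
  have h5 : 0 ≤ Real.sqrt (Real.pi / bb) := Real.sqrt_nonneg _
  calc 99 / 100 * (δ * Real.sqrt (2 * Real.pi)) * ps L u
      ≤ Real.sqrt (Real.pi / bb) * Real.exp (-(u - L) ^ 2 / (2 * (δ ^ 2 + 4))) :=
        mul_le_mul h4 h3 (AA_ps_pos L u).le h5
    _ = _ := mul_comm _ _

private theorem AA_gauss_int {δ : ℝ} (hδ : 0 < δ) (y : ℝ) :
    MeasureTheory.Integrable (fun u : ℝ => Real.exp (-(y - u) ^ 2 / (2 * δ ^ 2))) ∧
    ∫ u : ℝ, Real.exp (-(y - u) ^ 2 / (2 * δ ^ 2)) = δ * Real.sqrt (2 * Real.pi) := by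
  have hb : 0 < 1 / (2 * δ ^ 2) := by positivity
  have h1 : ∀ u : ℝ, Real.exp (-(y - u) ^ 2 / (2 * δ ^ 2)) =
      Real.exp (-(1 / (2 * δ ^ 2)) * (u - y) ^ 2) := by
    intro u
    congr 1
    ring
  simp_rw [h1]
  refine ⟨(integrable_exp_neg_mul_sq hb).comp_sub_right y, ?_⟩
  rw [MeasureTheory.integral_sub_right_eq_self (fun x : ℝ => Real.exp (-(1 / (2 * δ ^ 2)) * x ^ 2))
    y, integral_gaussian]
  have h2 : Real.pi / (1 / (2 * δ ^ 2)) = δ ^ 2 * (2 * Real.pi) := by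
    field_simp
  rw [h2, Real.sqrt_mul (by positivity), Real.sqrt_sq hδ.le]

/-- The integrated inequality over an interval. -/
private theorem AA_int {L δ D u1 u2 lo plo phi : ℝ} (hδ : 0 < δ) (hδ2 : δ ^ 2 ≤ 8 / 100)
    (hD : 0 ≤ D) (hu : u1 ≤ u2) (hlo : 0 < lo) (F : Finset ℕ) (hFlo : ∀ n ∈ F, lo ≤ (n : ℝ))
    (hF : ∀ u ∈ Set.Icc u1 u2, ∀ n : ℕ, n ∉ F → 1 ≤ n → D ≤ |Real.log n - u|)
    (hplo : ∀ u ∈ Set.Icc u1 u2, plo ≤ ps L u) (hphi : ∀ n ∈ F, ps L (Real.log n) ≤ phi)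
    (hs : Summable (AA_w L)) :
    (u2 - u1) * (99 / 100 * (δ * Real.sqrt (2 * Real.pi)) * plo -
      (∑' n, AA_w L n) * Real.exp (-D ^ 2 / (2 * δ ^ 2))) -
      ∫ u in Set.Icc u1 u2, |FF δ L u - MM δ L u| ≤
    δ * Real.sqrt (2 * Real.pi) * (phi / lo) *
      ∑ n ∈ F, ArithmeticFunction.vonMangoldt n := by
  obtain ⟨hFc, hMc⟩ := FF_cont hδ L
  obtain ⟨G, hG⟩ : ∃ G, G = δ * Real.sqrt (2 * Real.pi) := ⟨_, rfl⟩
  have hG0 : 0 ≤ G := by rw [hG]; positivity
  obtain ⟨tl, htl⟩ : ∃ tl, tl = (∑' n, AA_w L n) * Real.exp (-D ^ 2 / (2 * δ ^ 2)) := ⟨_, rfl⟩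
  rw [← hG, ← htl]
  have hfin : MeasureTheory.volume (Set.Icc u1 u2) ≠ ⊤ := by
    rw [Real.volume_Icc]
    exact ENNReal.ofReal_ne_top
  have hcompact : IsCompact (Set.Icc u1 u2) := isCompact_Icc
  have hI1 : MeasureTheory.IntegrableOn (FF δ L) (Set.Icc u1 u2) :=
    hFc.continuousOn.integrableOn_compact hcompact
  have hI2 : MeasureTheory.IntegrableOn (MM δ L) (Set.Icc u1 u2) :=
    hMc.continuousOn.integrableOn_compact hcompact
  have hI3 : MeasureTheory.IntegrableOn (fun u => |FF δ L u - MM δ L u|) (Set.Icc u1 u2) :=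
    (hFc.sub hMc).abs.continuousOn.integrableOn_compact hcompact
  have hvol : MeasureTheory.volume.real (Set.Icc u1 u2) = u2 - u1 := by
    rw [Real.volume_real_Icc_of_le hu]
  have hcst : ∀ c : ℝ, MeasureTheory.Integrable (fun _ : ℝ => c)
      (MeasureTheory.volume.restrict (Set.Icc u1 u2)) := fun c =>
    MeasureTheory.integrableOn_const hfin
  -- lower bound
  have hlow : (u2 - u1) * (99 / 100 * G * plo) - ∫ u in Set.Icc u1 u2, |FF δ L u - MM δ L u| ≤
      ∫ u in Set.Icc u1 u2, FF δ L u := by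
    have h1 : ∫ u in Set.Icc u1 u2, (99 / 100 * G * plo - |FF δ L u - MM δ L u|) ≤
        ∫ u in Set.Icc u1 u2, FF δ L u := by
      refine MeasureTheory.setIntegral_mono_on
        ((hcst _).sub hI3) hI1 measurableSet_Icc fun u hu' => ?_
      have h2 := AA_MM (L := L) (u := u) hδ hδ2
      rw [← hG] at h2
      have h3 := hplo u hu'
      have h4 : 99 / 100 * G * plo ≤ 99 / 100 * G * ps L u :=
        mul_le_mul_of_nonneg_left h3 (by positivity)
      have h5 := neg_abs_le (FF δ L u - MM δ L u)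
      linarith
    rw [MeasureTheory.integral_sub (hcst _) hI3,
      MeasureTheory.setIntegral_const, hvol, smul_eq_mul] at h1
    exact h1
  -- upper bound
  have hgi : ∀ n : ℕ, MeasureTheory.IntegrableOn
      (fun u : ℝ => AA_w L n * Real.exp (-(Real.log n - u) ^ 2 / (2 * δ ^ 2)))
      (Set.Icc u1 u2) := fun n =>
    ((AA_gauss_int hδ (Real.log n)).1.const_mul _).integrableOn
  have hup : ∫ u in Set.Icc u1 u2, FF δ L u ≤
      ∑ n ∈ F, AA_w L n * G + (u2 - u1) * tl := by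
    have h1 : ∫ u in Set.Icc u1 u2, FF δ L u ≤ ∫ u in Set.Icc u1 u2,
        (∑ n ∈ F, AA_w L n * Real.exp (-(Real.log n - u) ^ 2 / (2 * δ ^ 2)) + tl) := by
      refine MeasureTheory.setIntegral_mono_on hI1
        ((MeasureTheory.integrable_finsetSum _ fun n _ => hgi n).add
          (hcst _)) measurableSet_Icc fun u hu' => ?_
      rw [htl]
      exact AA_point hδ hD F (hF u hu') hs
    refine h1.trans ?_
    rw [MeasureTheory.integral_add (MeasureTheory.integrable_finsetSum _ fun n _ => hgi n)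
      (hcst _), MeasureTheory.setIntegral_const, hvol,
      smul_eq_mul, MeasureTheory.integral_finsetSum _ fun n _ => hgi n]
    refine add_le_add (Finset.sum_le_sum fun n _ => ?_) le_rfl
    rw [MeasureTheory.integral_const_mul]
    refine mul_le_mul_of_nonneg_left ?_ (AA_w_nonneg L n)
    obtain ⟨h2, h3⟩ := AA_gauss_int hδ (Real.log n)
    rw [hG, ← h3]
    exact MeasureTheory.setIntegral_le_integral h2
      (Filter.Eventually.of_forall fun u => (Real.exp_pos _).le)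
  have hw : ∑ n ∈ F, AA_w L n * G ≤ G * (phi / lo) *
      ∑ n ∈ F, ArithmeticFunction.vonMangoldt n := by
    rw [Finset.mul_sum]
    refine Finset.sum_le_sum fun n hn => ?_
    have h1 : 0 ≤ ArithmeticFunction.vonMangoldt n := ArithmeticFunction.vonMangoldt_nonneg
    have h2 := hFlo n hn
    have h3 := hphi n hn
    have h4 : 0 < ps L (Real.log n) := AA_ps_pos _ _
    have h5 : ArithmeticFunction.vonMangoldt n / n ≤ ArithmeticFunction.vonMangoldt n / lo :=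
      div_le_div_of_nonneg_left h1 hlo h2
    have h6 : AA_w L n ≤ ArithmeticFunction.vonMangoldt n / lo * phi := by
      unfold AA_w
      exact mul_le_mul h5 h3 h4.le (by positivity)
    calc AA_w L n * G ≤ (ArithmeticFunction.vonMangoldt n / lo * phi) * G :=
          mul_le_mul_of_nonneg_right h6 hG0
      _ = G * (phi / lo) * ArithmeticFunction.vonMangoldt n := by ring
  linarith

/-- Prime powers. -/
private theorem AA_pp {lo hi : ℝ} (hhi : 1 ≤ hi) :
    ∑ n ∈ (Icc 1 ⌊hi⌋₊).filter (fun n : ℕ => lo ≤ (n : ℝ)), ArithmeticFunction.vonMangoldt n ≤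
      (((Icc 1 ⌊hi⌋₊).filter fun q : ℕ => q.Prime ∧ lo ≤ (q : ℝ)).card : ℝ) * Real.log hi +
        2 * Real.sqrt hi * Real.log hi := by
  have h1 := Chebyshev.psi_sub_theta_le hhi
  rw [Chebyshev.psi_sub_theta_eq_sum_not_prime] at h1
  have h2 : ∑ n ∈ (Icc 1 ⌊hi⌋₊).filter (fun n : ℕ => lo ≤ (n : ℝ)),
      ArithmeticFunction.vonMangoldt n ≤
      ∑ n ∈ (Icc 1 ⌊hi⌋₊).filter (fun q : ℕ => q.Prime ∧ lo ≤ (q : ℝ)),
        ArithmeticFunction.vonMangoldt n +
      ∑ n ∈ (Ioc 0 ⌊hi⌋₊).filter (fun n => ¬ n.Prime), ArithmeticFunction.vonMangoldt n := by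
    rw [← Finset.sum_filter_add_sum_filter_not
      ((Icc 1 ⌊hi⌋₊).filter (fun n : ℕ => lo ≤ (n : ℝ))) (fun n => n.Prime)]
    refine add_le_add (Finset.sum_le_sum_of_subset_of_nonneg ?_ fun n _ _ =>
      ArithmeticFunction.vonMangoldt_nonneg) (Finset.sum_le_sum_of_subset_of_nonneg ?_
        fun n _ _ => ArithmeticFunction.vonMangoldt_nonneg)
    · intro n hn
      simp only [Finset.mem_filter] at hn ⊢
      exact ⟨hn.1.1, hn.2, hn.1.2⟩
    · intro n hn
      simp only [Finset.mem_filter, Finset.mem_Icc, Finset.mem_Ioc] at hn ⊢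
      exact ⟨⟨by omega, hn.1.1.2⟩, hn.2⟩
  have h3 : ∑ n ∈ (Icc 1 ⌊hi⌋₊).filter (fun q : ℕ => q.Prime ∧ lo ≤ (q : ℝ)),
      ArithmeticFunction.vonMangoldt n ≤
      (((Icc 1 ⌊hi⌋₊).filter fun q : ℕ => q.Prime ∧ lo ≤ (q : ℝ)).card : ℝ) * Real.log hi := by
    rw [← nsmul_eq_mul]
    refine Finset.sum_le_card_nsmul _ _ _ fun n hn => ?_
    simp only [Finset.mem_filter, Finset.mem_Icc] at hn
    have hn0 : (0 : ℝ) < n := by exact_mod_cast (by omega : 0 < n)
    refine ArithmeticFunction.vonMangoldt_le_log.trans (Real.log_le_log hn0 ?_)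
    exact (Nat.le_floor_iff (by linarith)).1 hn.1.2
  linarith

private theorem AA_log_ge {y : ℝ} (hy : 0 < y) : 1 - 1 / y ≤ Real.log y := by
  have h := Real.one_sub_inv_le_log_of_pos hy
  rwa [inv_eq_one_div] at h

/-- Distance of the middle half from the complement. -/
private theorem AA_dist {lo hi h u : ℝ} (hlo : 0 < lo) (hh : 0 < h) (hhi : hi = lo + h)
    (hu : u ∈ Set.Icc (Real.log (lo + h / 4)) (Real.log (hi - h / 4))) (n : ℕ)
    (hn : n ∉ (Icc 1 ⌊hi⌋₊).filter (fun n : ℕ => lo ≤ (n : ℝ))) (hn1 : 1 ≤ n) :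
    h / (4 * hi) ≤ |Real.log n - u| := by
  have hn0 : (0 : ℝ) < n := by exact_mod_cast hn1
  have hhi0 : 0 < hi := by linarith
  have hn2 : (n : ℝ) < lo ∨ hi < n := by
    by_contra hcon
    push Not at hcon
    exact hn (Finset.mem_filter.2 ⟨Finset.mem_Icc.2 ⟨hn1, Nat.le_floor hcon.2⟩, hcon.1⟩)
  rcases hn2 with h1 | h1
  · have h2 : Real.log n ≤ Real.log lo := Real.log_le_log hn0 h1.le
    have h3 : h / (4 * hi) ≤ Real.log (lo + h / 4) - Real.log lo := by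
      rw [← Real.log_div (by linarith) hlo.ne']
      refine le_trans ?_ (AA_log_ge (by positivity))
      have h4 : 1 - 1 / ((lo + h / 4) / lo) = (h / 4) / (lo + h / 4) := by
        field_simp
        ring
      rw [h4, ← div_div]
      exact div_le_div_of_nonneg_left (by linarith) (by linarith) (by linarith)
    have h5 : h / (4 * hi) ≤ u - Real.log n := by linarith [hu.1]
    calc h / (4 * hi) ≤ u - Real.log n := h5
      _ ≤ |u - Real.log n| := le_abs_self _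
      _ = |Real.log n - u| := abs_sub_comm _ _
  · have h2 : Real.log hi ≤ Real.log n := Real.log_le_log hhi0 h1.le
    have hp : 0 < hi - h / 4 := by linarith
    have h3 : h / (4 * hi) ≤ Real.log hi - Real.log (hi - h / 4) := by
      rw [← Real.log_div hhi0.ne' hp.ne']
      refine le_trans (le_of_eq ?_) (AA_log_ge (by positivity))
      field_simp
      ring
    have h5 : h / (4 * hi) ≤ Real.log n - u := by linarith [hu.2]
    exact h5.trans (le_abs_self _)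

private theorem AA_good {L δ lo hi h p0 e0 : ℝ} (hδ : 0 < δ) (hδ2 : δ ^ 2 ≤ 8 / 100)
    (hlo : 0 < lo) (hh : 0 < h) (hhi : hi = lo + h) (hr : hi ≤ 101 / 100 * lo)
    (hps : ∀ x ∈ Set.Icc (Real.log lo) (Real.log hi), ∀ y ∈ Set.Icc (Real.log lo) (Real.log hi),
      ps L x ≤ 101 / 100 * ps L y)
    (hp0 : 0 < p0) (hp : ∀ y ∈ Set.Icc (Real.log lo) (Real.log hi), p0 ≤ ps L y)
    (hs : Summable (AA_w L))
    (hT : (∑' n, AA_w L n) * Real.exp (-(h / (4 * hi)) ^ 2 / (2 * δ ^ 2)) ≤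
      1 / 100 * (δ * Real.sqrt (2 * Real.pi)) * p0)
    (hE : ∫ u in Set.Icc (Real.log (lo + h / 4)) (Real.log (hi - h / 4)),
      |FF δ L u - MM δ L u| ≤ e0) (he0 : 0 ≤ e0) :
    47 / 100 * h - hi / (δ * Real.sqrt (2 * Real.pi) * p0) * e0 ≤
      ∑ n ∈ (Icc 1 ⌊hi⌋₊).filter (fun n : ℕ => lo ≤ (n : ℝ)),
        ArithmeticFunction.vonMangoldt n := by
  obtain ⟨G, hG⟩ : ∃ G, G = δ * Real.sqrt (2 * Real.pi) := ⟨_, rfl⟩
  have hG0 : 0 < G := by rw [hG]; positivity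
  have hhi0 : 0 < hi := by linarith
  have hv1 : 0 < lo + h / 4 := by linarith
  have hv2 : 0 < hi - h / 4 := by linarith
  have hu12 : Real.log (lo + h / 4) ≤ Real.log (hi - h / 4) :=
    Real.log_le_log hv1 (by linarith)
  have hsub : Set.Icc (Real.log (lo + h / 4)) (Real.log (hi - h / 4)) ⊆
      Set.Icc (Real.log lo) (Real.log hi) :=
    Set.Icc_subset_Icc (Real.log_le_log hlo (by linarith)) (Real.log_le_log hv2 (by linarith))
  obtain ⟨P, hP⟩ : ∃ P, P = ps L (Real.log lo) := ⟨_, rfl⟩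
  have hmem0 : Real.log lo ∈ Set.Icc (Real.log lo) (Real.log hi) :=
    ⟨le_rfl, Real.log_le_log hlo (by linarith)⟩
  have hPp : p0 ≤ P := by rw [hP]; exact hp _ hmem0
  have hP0 : 0 < P := by linarith
  have hFmem : ∀ n ∈ (Icc 1 ⌊hi⌋₊).filter (fun n : ℕ => lo ≤ (n : ℝ)),
      lo ≤ (n : ℝ) ∧ (n : ℝ) ≤ hi := by
    intro n hn
    simp only [Finset.mem_filter, Finset.mem_Icc] at hn
    exact ⟨hn.2, (Nat.le_floor_iff hhi0.le).1 hn.1.2⟩
  have hmain := AA_int (L := L) (D := h / (4 * hi)) (lo := lo) (plo := 100 / 101 * P)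
    (phi := 101 / 100 * P) hδ hδ2 (by positivity) hu12 hlo
    ((Icc 1 ⌊hi⌋₊).filter (fun n : ℕ => lo ≤ (n : ℝ))) (fun n hn => (hFmem n hn).1)
    (fun u hu n hn hn1 => AA_dist hlo hh hhi hu n hn hn1)
    (fun u hu => by
      have h1 := hps _ hmem0 u (hsub hu)
      rw [← hP] at h1
      linarith)
    (fun n hn => by
      obtain ⟨h1, h2⟩ := hFmem n hn
      rw [hP]
      exact hps _ ⟨Real.log_le_log hlo h1, Real.log_le_log (by linarith) h2⟩ _ hmem0) hs
  rw [← hG] at hmain hT ⊢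
  obtain ⟨S, hS⟩ : ∃ S, S = ∑ n ∈ (Icc 1 ⌊hi⌋₊).filter (fun n : ℕ => lo ≤ (n : ℝ)),
        ArithmeticFunction.vonMangoldt n := ⟨_, rfl⟩
  rw [← hS] at hmain ⊢
  obtain ⟨tl, htl⟩ : ∃ tl, tl = (∑' n, AA_w L n) *
    Real.exp (-(h / (4 * hi)) ^ 2 / (2 * δ ^ 2)) := ⟨_, rfl⟩
  rw [← htl] at hmain hT
  have hS0 : 0 ≤ S := by
    rw [hS]
    exact Finset.sum_nonneg fun n _ => ArithmeticFunction.vonMangoldt_nonneg
  obtain ⟨w, hw⟩ : ∃ w, w = Real.log (hi - h / 4) - Real.log (lo + h / 4) := ⟨_, rfl⟩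
  rw [← hw] at hmain
  have hwlow : h / 2 / hi ≤ w := by
    rw [hw, ← Real.log_div hv2.ne' hv1.ne']
    refine le_trans ?_ (AA_log_ge (by positivity))
    have h4 : 1 - 1 / ((hi - h / 4) / (lo + h / 4)) = (h / 2) / (hi - h / 4) := by
      rw [one_div_div, eq_div_iff hv2.ne', sub_mul, one_mul, div_mul_cancel₀ _ hv2.ne', hhi]
      ring
    rw [h4]
    exact div_le_div_of_nonneg_left (by linarith) hv2 (by linarith)
  have hw0 : 0 ≤ w := le_trans (by positivity) hwlow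
  -- the bracket
  have hbr : 97 / 100 * (G * P) ≤ 99 / 100 * G * (100 / 101 * P) - tl := by
    have h1 : 1 / 100 * G * p0 ≤ 1 / 100 * G * P :=
      mul_le_mul_of_nonneg_left hPp (by positivity)
    have h2 : 0 < G * P := mul_pos hG0 hP0
    nlinarith
  have h1 : w * (97 / 100 * (G * P)) - e0 ≤ G * (101 / 100 * P / lo) * S := by
    have h2 : w * (97 / 100 * (G * P)) ≤ w * (99 / 100 * G * (100 / 101 * P) - tl) :=
      mul_le_mul_of_nonneg_left hbr hw0
    linarith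
  have h2 : h / 2 / hi * (97 / 100 * (G * P)) - e0 ≤ G * (101 / 100 * P / lo) * S := by
    have h3 : h / 2 / hi * (97 / 100 * (G * P)) ≤ w * (97 / 100 * (G * P)) :=
      mul_le_mul_of_nonneg_right hwlow (by positivity)
    linarith
  -- multiply by lo / (1.01 G P)
  have h3 : h / 2 / hi * (97 / 100) * (lo * (100 / 101)) - e0 / (G * P) * (lo * (100 / 101)) ≤ S := by
    have hk : 0 ≤ lo * (100 / 101) / (G * P) := by positivity
    have h4 := mul_le_mul_of_nonneg_right h2 hk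
    have h5 : G * (101 / 100 * P / lo) * S * (lo * (100 / 101) / (G * P)) = S := by
      field_simp
    have h6 : (h / 2 / hi * (97 / 100 * (G * P)) - e0) * (lo * (100 / 101) / (G * P)) =
        h / 2 / hi * (97 / 100) * (lo * (100 / 101)) - e0 / (G * P) * (lo * (100 / 101)) := by
      field_simp
    rw [h5, h6] at h4
    exact h4
  have h7 : 47 / 100 * h ≤ h / 2 / hi * (97 / 100) * (lo * (100 / 101)) := by
    have h8 : 100 / 101 ≤ lo / hi := by
      rw [le_div_iff₀ hhi0]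
      linarith
    have h9 : h / 2 / hi * (97 / 100) * (lo * (100 / 101)) =
        (97 / 202 * h) * (lo / hi) := by
      field_simp
      ring
    rw [h9]
    calc 47 / 100 * h ≤ (97 / 202 * h) * (100 / 101) := by nlinarith
      _ ≤ (97 / 202 * h) * (lo / hi) := mul_le_mul_of_nonneg_left h8 (by positivity)
  have h10 : e0 / (G * P) * (lo * (100 / 101)) ≤ hi / (G * p0) * e0 := by
    have h11 : e0 / (G * P) ≤ e0 / (G * p0) :=
      div_le_div_of_nonneg_left he0 (by positivity) (mul_le_mul_of_nonneg_left hPp hG0.le)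
    calc e0 / (G * P) * (lo * (100 / 101)) ≤ e0 / (G * p0) * hi := by
          refine mul_le_mul h11 (by linarith) (by positivity) (by positivity)
      _ = hi / (G * p0) * e0 := by ring
  linarith

private theorem AA_primes {X L δ lo hi H m1 m2 C0 p0 e0 : ℝ} (hX : 0 < X) (hL : 0 < L)
    (hm1 : 0 < m1) (hlo : m1 * X ≤ lo) (hhi : hi = lo + (H - 1)) (hhi2 : hi ≤ m2 * X)
    (hH : 100 ≤ H) (hHs : H ≤ 1 / 100 * (m1 * X))
    (hHs2 : C0 * (H / (m1 * X)) ≤ 36 / 1000)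
    (hlog : ∀ x, m1 * X ≤ x → x ≤ m2 * X → |Real.log x - L| ≤ C0) (hp0 : 0 < p0)
    (hp0' : p0 ≤ Real.exp (-C0 ^ 2 / 8))
    (hδ : 0 < δ) (hδ2 : δ ^ 2 ≤ 8 / 100) (hs : Summable (AA_w L))
    (hT : (∑' n, AA_w L n) * Real.exp (-(H / (5 * (m2 * X))) ^ 2 / (2 * δ ^ 2)) ≤
      1 / 100 * (δ * Real.sqrt (2 * Real.pi)) * p0)
    (hsq : 2 * Real.sqrt (m2 * X) * (L + C0) ≤ 5 / 100 * H) (hLC : C0 ≤ L / 2)
    (hE : ∫ u in Set.Icc (Real.log (lo + (H - 1) / 4)) (Real.log (hi - (H - 1) / 4)),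
      |FF δ L u - MM δ L u| ≤ e0) (he0 : 0 ≤ e0)
    (he1 : m2 * X / (δ * Real.sqrt (2 * Real.pi) * p0) * e0 ≤ 1 / 10 * H) :
    H / 5 / L ≤ (((Icc 1 ⌊hi⌋₊).filter fun q : ℕ => q.Prime ∧ lo ≤ (q : ℝ)).card : ℝ) := by
  have hmX : 0 < m1 * X := mul_pos hm1 hX
  have hlo0 : 0 < lo := by linarith
  have hh : 0 < H - 1 := by linarith
  have hhi0 : 0 < hi := by linarith
  have hm2X : 0 < m2 * X := by linarith
  have hlohi : lo ≤ hi := by linarith
  have hbd : ∀ x ∈ Set.Icc (Real.log lo) (Real.log hi), |x - L| ≤ C0 := by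
    intro x hx
    have h1 : lo ≤ Real.exp x := by
      rw [← Real.exp_log hlo0]
      exact Real.exp_le_exp.2 hx.1
    have h2 : Real.exp x ≤ hi := by
      rw [← Real.exp_log hhi0]
      exact Real.exp_le_exp.2 hx.2
    have h3 := hlog (Real.exp x) (by linarith) (by linarith)
    rwa [Real.log_exp] at h3
  have hwidth : Real.log hi - Real.log lo ≤ H / (m1 * X) := by
    rw [← Real.log_div hhi0.ne' hlo0.ne']
    have h1 := Real.log_le_sub_one_of_pos (show 0 < hi / lo by positivity)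
    have h2 : hi / lo - 1 = (H - 1) / lo := by
      rw [hhi]
      field_simp
      ring
    rw [h2] at h1
    refine h1.trans ?_
    calc (H - 1) / lo ≤ H / lo := div_le_div_of_nonneg_right (by linarith) hlo0.le
      _ ≤ H / (m1 * X) := div_le_div_of_nonneg_left (by linarith) hmX hlo
  have hps : ∀ x ∈ Set.Icc (Real.log lo) (Real.log hi), ∀ y ∈ Set.Icc (Real.log lo) (Real.log hi),
      ps L x ≤ 101 / 100 * ps L y := by
    intro x hx y hy
    have h1 : ps L x = Real.exp (((y - L) ^ 2 - (x - L) ^ 2) / 8) * ps L y := by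
      unfold ps
      rw [← Real.exp_add]
      congr 1
      ring
    rw [h1]
    refine mul_le_mul_of_nonneg_right ?_ (AA_ps_pos L y).le
    have h2 : ((y - L) ^ 2 - (x - L) ^ 2) / 8 ≤ 9 / 1000 := by
      have h3 : (y - L) ^ 2 - (x - L) ^ 2 = (y - x) * ((y - L) + (x - L)) := by ring
      have h4 : |y - x| ≤ H / (m1 * X) := by
        rw [abs_le]
        constructor <;> linarith [hx.1, hx.2, hy.1, hy.2]
      have h5 : |(y - L) + (x - L)| ≤ 2 * C0 := by
        have := abs_add_le (y - L) (x - L)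
        linarith [hbd x hx, hbd y hy]
      have h6 : (y - x) * ((y - L) + (x - L)) ≤ H / (m1 * X) * (2 * C0) := by
        calc (y - x) * ((y - L) + (x - L)) ≤ |(y - x) * ((y - L) + (x - L))| := le_abs_self _
          _ = |y - x| * |(y - L) + (x - L)| := abs_mul _ _
          _ ≤ H / (m1 * X) * (2 * C0) :=
            mul_le_mul h4 h5 (abs_nonneg _) (by positivity)
      rw [h3]
      nlinarith
    calc Real.exp (((y - L) ^ 2 - (x - L) ^ 2) / 8) ≤ Real.exp (9 / 1000) :=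
          Real.exp_le_exp.2 h2
      _ ≤ 101 / 100 := by
        have h7 := Real.one_sub_le_exp_neg (9 / 1000 : ℝ)
        have h8 : Real.exp (9 / 1000) * Real.exp (-(9 / 1000)) = 1 := by
          rw [← Real.exp_add, add_neg_cancel, Real.exp_zero]
        have h9 : 0 < Real.exp (9 / 1000 : ℝ) := Real.exp_pos _
        nlinarith
  have hp : ∀ y ∈ Set.Icc (Real.log lo) (Real.log hi), p0 ≤ ps L y := by
    intro y hy
    refine hp0'.trans ?_
    unfold ps
    refine Real.exp_le_exp.2 ?_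
    have h1 := hbd y hy
    have h2 : (y - L) ^ 2 ≤ C0 ^ 2 := by
      rw [← sq_abs (y - L)]
      exact pow_le_pow_left₀ (abs_nonneg _) h1 2
    linarith
  have hD : H / (5 * (m2 * X)) ≤ (H - 1) / (4 * hi) := by
    rw [div_le_div_iff₀ (by positivity) (by positivity)]
    have h1 : H * 4 ≤ (H - 1) * 5 := by linarith
    calc H * (4 * hi) = (H * 4) * hi := by ring
      _ ≤ ((H - 1) * 5) * hi := mul_le_mul_of_nonneg_right h1 hhi0.le
      _ ≤ ((H - 1) * 5) * (m2 * X) := mul_le_mul_of_nonneg_left hhi2 (by linarith)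
      _ = (H - 1) * (5 * (m2 * X)) := by ring
  have hD0 : 0 ≤ H / (5 * (m2 * X)) := by positivity
  have hTn : 0 ≤ ∑' n, AA_w L n := tsum_nonneg (AA_w_nonneg L)
  have hT2 : (∑' n, AA_w L n) * Real.exp (-((H - 1) / (4 * hi)) ^ 2 / (2 * δ ^ 2)) ≤
      1 / 100 * (δ * Real.sqrt (2 * Real.pi)) * p0 := by
    refine le_trans (mul_le_mul_of_nonneg_left (Real.exp_le_exp.2 ?_) hTn) hT
    refine div_le_div_of_nonneg_right ?_ (by positivity)
    have := pow_le_pow_left₀ hD0 hD 2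
    linarith
  have hgood := AA_good (L := L) (e0 := e0) hδ hδ2 hlo0 hh hhi (by linarith) hps hp0 hp hs hT2
    hE he0
  have hpp := AA_pp (lo := lo) (hi := hi) (by linarith)
  have hloghi : Real.log hi ≤ L + C0 := by
    have := (abs_le.1 (hlog hi (by linarith) hhi2)).2
    linarith
  have hloghi0 : 0 ≤ Real.log hi := Real.log_nonneg (by linarith)
  obtain ⟨S, hS⟩ : ∃ S, S = ∑ n ∈ (Icc 1 ⌊hi⌋₊).filter (fun n : ℕ => lo ≤ (n : ℝ)),
        ArithmeticFunction.vonMangoldt n := ⟨_, rfl⟩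
  rw [← hS] at hgood hpp
  obtain ⟨N, hN⟩ : ∃ N : ℝ, N = (((Icc 1 ⌊hi⌋₊).filter fun q : ℕ =>
    q.Prime ∧ lo ≤ (q : ℝ)).card : ℝ) := ⟨_, rfl⟩
  rw [← hN] at hpp ⊢
  have hN0 : 0 ≤ N := by rw [hN]; positivity
  have h1 : hi / (δ * Real.sqrt (2 * Real.pi) * p0) * e0 ≤ 1 / 10 * H := by
    refine le_trans (mul_le_mul_of_nonneg_right ?_ he0) he1
    exact div_le_div_of_nonneg_right hhi2 (by positivity)
  have h2 : 2 * Real.sqrt hi * Real.log hi ≤ 5 / 100 * H := by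
    refine le_trans ?_ hsq
    have h3 : Real.sqrt hi ≤ Real.sqrt (m2 * X) := Real.sqrt_le_sqrt hhi2
    have h4 : 0 ≤ Real.sqrt hi := Real.sqrt_nonneg _
    calc 2 * Real.sqrt hi * Real.log hi ≤ 2 * Real.sqrt (m2 * X) * (L + C0) := by
          refine mul_le_mul (by linarith) hloghi hloghi0 (by positivity)
      _ = _ := rfl
  have h3 : 31 / 100 * H ≤ N * Real.log hi := by linarith
  have h4 : N * Real.log hi ≤ N * (3 / 2 * L) :=
    mul_le_mul_of_nonneg_left (by linarith) hN0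
  rw [div_div, div_le_iff₀ (by positivity)]
  nlinarith

private theorem AA_overlap (B : Finset ℕ) {f : ℝ → ℝ} (hf : ∀ u, 0 ≤ f u)
    (hfi : MeasureTheory.Integrable f) (J : ℕ → Set ℝ) (hJ : ∀ c, MeasurableSet (J c)) {K : ℝ}
    (hK : ∀ u, ∀ B' : Finset ℕ, B' ⊆ B → (∀ c ∈ B', u ∈ J c) → (B'.card : ℝ) ≤ K) :
    ∑ c ∈ B, ∫ u in J c, f u ≤ K * ∫ u, f u := by
  classical
  have h1 : ∀ c, ∫ u in J c, f u = ∫ u, (J c).indicator f u := fun c =>
    (MeasureTheory.integral_indicator (hJ c)).symm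
  simp_rw [h1]
  rw [← MeasureTheory.integral_finsetSum _ fun c _ => hfi.indicator (hJ c),
    ← MeasureTheory.integral_const_mul]
  refine MeasureTheory.integral_mono
    (MeasureTheory.integrable_finsetSum _ fun c _ => hfi.indicator (hJ c)) (hfi.const_mul K)
    fun u => ?_
  show ∑ c ∈ B, (J c).indicator f u ≤ K * f u
  have h2 : ∑ c ∈ B, (J c).indicator f u = ((B.filter fun c => u ∈ J c).card : ℝ) * f u := by
    rw [← nsmul_eq_mul, ← Finset.sum_const, Finset.sum_filter]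
    refine Finset.sum_congr rfl fun c _ => ?_
    rw [Set.indicator_apply]
  rw [h2]
  exact mul_le_mul_of_nonneg_right (hK u _ (Finset.filter_subset _ _) fun c hc =>
    (Finset.mem_filter.1 hc).2) (hf u)

/-- A set of naturals of small diameter. -/
private theorem AA_diam (B : Finset ℕ) {l : ℝ} (hl : 0 ≤ l)
    (h : ∀ c ∈ B, ∀ c' ∈ B, (c : ℝ) - c' ≤ l) : (B.card : ℝ) ≤ 2 * l + 1 := by
  rcases B.eq_empty_or_nonempty with rfl | ⟨c0, hc0⟩
  · simp
    linarith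
  · have hsub : B ⊆ Finset.Icc (c0 - ⌊l⌋₊) (c0 + ⌊l⌋₊) := by
      intro c hc
      rw [Finset.mem_Icc]
      have h1 := h c hc c0 hc0
      have h2 := h c0 hc0 c hc
      constructor
      · by_contra hcon
        push Not at hcon
        have h3 : ⌊l⌋₊ + 1 ≤ c0 - c := by omega
        have h4 : c ≤ c0 := by omega
        have h5 : ((⌊l⌋₊ + 1 : ℕ) : ℝ) ≤ ((c0 - c : ℕ) : ℝ) := by exact_mod_cast h3
        rw [Nat.cast_sub h4] at h5
        push_cast at h5
        have := Nat.lt_floor_add_one l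
        linarith
      · by_contra hcon
        push Not at hcon
        have h3 : c0 + ⌊l⌋₊ + 1 ≤ c := by omega
        have h5 : ((c0 + ⌊l⌋₊ + 1 : ℕ) : ℝ) ≤ (c : ℝ) := by exact_mod_cast h3
        push_cast at h5
        have := Nat.lt_floor_add_one l
        linarith
    have h1 := Finset.card_le_card hsub
    rw [Nat.card_Icc] at h1
    have h2 : B.card ≤ 2 * ⌊l⌋₊ + 1 := by omega
    have h3 : (B.card : ℝ) ≤ 2 * ⌊l⌋₊ + 1 := by exact_mod_cast h2
    have h4 := Nat.floor_le hl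
    linarith

/-- From `L¹` to `L²`. -/
private theorem AA_l2 {f : ℝ → ℝ} (hf : Continuous f) {u1 u2 e0 w d : ℝ} (hu : u1 ≤ u2)
    (hw : u2 - u1 ≤ w) (hw0 : 0 < w) (he0 : 0 < e0) (hd : d = e0 ^ 2 / w)
    (hE : e0 < ∫ u in Set.Icc u1 u2, |f u|) : d ≤ ∫ u in Set.Icc u1 u2, f u ^ 2 := by
  obtain ⟨lam, hlam⟩ : ∃ lam, lam = w / e0 := ⟨_, rfl⟩
  have hl0 : 0 < lam := by rw [hlam]; positivity
  have hfin : MeasureTheory.volume (Set.Icc u1 u2) ≠ ⊤ := by
    rw [Real.volume_Icc]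
    exact ENNReal.ofReal_ne_top
  have hcst : ∀ c : ℝ, MeasureTheory.Integrable (fun _ : ℝ => c)
      (MeasureTheory.volume.restrict (Set.Icc u1 u2)) := fun c =>
    MeasureTheory.integrableOn_const hfin
  have hI1 : MeasureTheory.IntegrableOn (fun u => |f u|) (Set.Icc u1 u2) :=
    hf.abs.continuousOn.integrableOn_compact isCompact_Icc
  have hI2 : MeasureTheory.IntegrableOn (fun u => f u ^ 2) (Set.Icc u1 u2) :=
    (hf.pow 2).continuousOn.integrableOn_compact isCompact_Icc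
  have hvol : MeasureTheory.volume.real (Set.Icc u1 u2) = u2 - u1 := by
    rw [Real.volume_real_Icc_of_le hu]
  have h1 : ∫ u in Set.Icc u1 u2, |f u| ≤
      ∫ u in Set.Icc u1 u2, (lam / 2 * f u ^ 2 + 1 / (2 * lam)) := by
    refine MeasureTheory.setIntegral_mono_on hI1 ((hI2.const_mul _).add (hcst _))
      measurableSet_Icc fun u _ => ?_
    have h2 : 0 ≤ (lam * |f u| - 1) ^ 2 / (2 * lam) := by positivity
    have h3 : (lam * |f u| - 1) ^ 2 / (2 * lam) =
        lam / 2 * |f u| ^ 2 + 1 / (2 * lam) - |f u| := by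
      field_simp
      ring
    rw [h3, sq_abs] at h2
    linarith
  rw [MeasureTheory.integral_add (hI2.const_mul _) (hcst _), MeasureTheory.integral_const_mul,
    MeasureTheory.setIntegral_const, hvol, smul_eq_mul] at h1
  obtain ⟨I, hI⟩ : ∃ I, I = ∫ u in Set.Icc u1 u2, f u ^ 2 := ⟨_, rfl⟩
  rw [← hI] at h1 ⊢
  have h2 : (u2 - u1) * (1 / (2 * lam)) ≤ e0 / 2 := by
    calc (u2 - u1) * (1 / (2 * lam)) ≤ w * (1 / (2 * lam)) :=
          mul_le_mul_of_nonneg_right hw (by positivity)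
      _ = e0 / 2 := by
        rw [hlam]
        field_simp
  have h3 : e0 / 2 ≤ lam / 2 * I := by linarith
  have h4 : e0 ≤ w / e0 * I := by
    rw [← hlam]
    linarith
  rw [hd, div_le_iff₀ hw0]
  calc e0 ^ 2 = e0 * e0 := by ring
    _ ≤ e0 * (w / e0 * I) := mul_le_mul_of_nonneg_left h4 he0.le
    _ = I * w := by
      field_simp

open Filter Topology in
private theorem AA_ev1 {α β : ℝ} (h : α < β) (K : ℝ) :
    ∀ᶠ X : ℝ in atTop, K * X ^ α ≤ X ^ β := by
  have h1 := (tendsto_rpow_atTop (sub_pos.2 h)).eventually_ge_atTop K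
  filter_upwards [h1, eventually_gt_atTop 0] with X hX hX0
  have h2 : X ^ β = X ^ (β - α) * X ^ α := by
    rw [← Real.rpow_add hX0]
    congr 1
    ring
  rw [h2]
  exact mul_le_mul_of_nonneg_right hX (Real.rpow_nonneg hX0.le _)

open Filter Topology in
private theorem AA_ev2 {β k : ℝ} (hβ : 0 < β) (hk : 0 < k) (s K : ℝ) :
    ∀ᶠ X : ℝ in atTop, K * X ^ s * Real.exp (-(k * X ^ β)) ≤ 1 := by
  have h1 := tendsto_rpow_mul_exp_neg_mul_atTop_nhds_zero (s / β) k hk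
  have h2 := (h1.comp (tendsto_rpow_atTop hβ)).const_mul K
  rw [mul_zero] at h2
  have h3 := h2.eventually_le_const (show (0 : ℝ) < 1 by norm_num)
  filter_upwards [h3, eventually_gt_atTop 0] with X hX hX0
  simp only [Function.comp_apply] at hX
  rw [← Real.rpow_mul hX0.le, mul_div_cancel₀ _ hβ.ne'] at hX
  rw [mul_assoc]
  have e : -k * X ^ β = -(k * X ^ β) := by ring
  rwa [e] at hX

open Filter Topology in
theorem almost_all {r s a b θ κ1 κ2 A : ℝ} (hr : 0 < r) (hab : a < b) (hθ : 1 / 2 < θ) (hθ1 : θ < 1)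
    (hκ : 0 < κ1) (hκ' : κ1 ≤ κ2) :
    ∃ X0 : ℝ, 2 ≤ X0 ∧ ∀ X : ℝ, X0 ≤ X → ((Bad r s a b θ κ1 κ2 X).card : ℝ) ≤ X / Real.log X ^ A := by
  have hκ2 : 0 < κ2 := by linarith
  have hba : 0 < b - a := by linarith
  have hθ0 : 0 < θ := by linarith
  -- constants
  obtain ⟨m1, hm1⟩ : ∃ m1, m1 = r * κ1 / 2 := ⟨_, rfl⟩
  obtain ⟨m2, hm2⟩ : ∃ m2, m2 = 2 * (r * κ2) := ⟨_, rfl⟩
  have hm1p : 0 < m1 := by rw [hm1]; positivity
  have hm2p : 0 < m2 := by rw [hm2]; positivity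
  have hrκ : r * κ1 ≤ r * κ2 := mul_le_mul_of_nonneg_left hκ' hr.le
  obtain ⟨C0, hC0⟩ : ∃ C0, C0 = max |Real.log m1| |Real.log m2| := ⟨_, rfl⟩
  have hC0n : 0 ≤ C0 := by rw [hC0]; exact le_max_of_le_left (abs_nonneg _)
  obtain ⟨p0, hp0⟩ : ∃ p0, p0 = Real.exp (-C0 ^ 2 / 8) := ⟨_, rfl⟩
  have hp0p : 0 < p0 := by rw [hp0]; exact Real.exp_pos _
  obtain ⟨θ', hθ'⟩ : ∃ θ', θ' = (θ + 1 / 2) / 2 := ⟨_, rfl⟩
  have hθ'1 : 1 / 2 < θ' := by rw [hθ']; linarith
  have hθ'2 : θ' < θ := by rw [hθ']; linarith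
  have hε : 0 < θ' - 1 / 2 := by linarith
  obtain ⟨L0, hL0, hms⟩ := short_ms hε (A + 1)
  obtain ⟨C1, hC1, hmass⟩ := AA_mass
  obtain ⟨q1, hq1⟩ : ∃ q1, q1 = κ1 ^ θ := ⟨_, rfl⟩
  obtain ⟨q2, hq2⟩ : ∃ q2, q2 = κ2 ^ θ := ⟨_, rfl⟩
  have hq1p : 0 < q1 := by rw [hq1]; exact Real.rpow_pos_of_pos hκ _
  have hq2p : 0 < q2 := by rw [hq2]; exact Real.rpow_pos_of_pos hκ2 _
  obtain ⟨M, hM⟩ : ∃ M, M = |a| + |b| := ⟨_, rfl⟩
  have hMn : 0 ≤ M := by rw [hM]; positivity
  obtain ⟨η1, hη1⟩ : ∃ η1, η1 = (b - a) * q1 * p0 / (10 * m2) := ⟨_, rfl⟩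
  have hη1p : 0 < η1 := by rw [hη1]; positivity
  obtain ⟨C3, hC3⟩ : ∃ C3, C3 = (b - a) * q2 / m1 := ⟨_, rfl⟩
  have hC3p : 0 < C3 := by rw [hC3]; positivity
  obtain ⟨C4, hC4⟩ : ∃ C4, C4 = 2 * (M * q2 / r) + 1 := ⟨_, rfl⟩
  have hC4p : 0 < C4 := by rw [hC4]; positivity
  obtain ⟨k, hk⟩ : ∃ k, k = ((b - a) * q1 / (5 * m2)) ^ 2 / 2 := ⟨_, rfl⟩
  have hkp : 0 < k := by rw [hk]; positivity
  obtain ⟨ε', hε'⟩ : ∃ ε', ε' = (θ - 1 / 2) / 2 := ⟨_, rfl⟩
  have hε'p : 0 < ε' := by rw [hε']; linarith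
  -- eventual facts
  have ev : ∀ᶠ X : ℝ in atTop, 2 ≤ X ∧ L0 ≤ Real.log X ∧ 2 * C0 ≤ Real.log X ∧
      C4 * C3 / η1 ^ 2 ≤ Real.log X ∧
      ((|s| + 1 + M * q2) / m1) * X ^ θ ≤ X ^ (1 : ℝ) ∧
      (100 / ((b - a) * q1)) * X ^ (0 : ℝ) ≤ X ^ θ ∧
      ((b - a) * q2 * 100 / m1) * X ^ θ ≤ X ^ (1 : ℝ) ∧
      (C0 * ((b - a) * q2) * 1000 / (36 * m1)) * X ^ θ ≤ X ^ (1 : ℝ) ∧
      4 * X ^ (θ' - 1) ≤ X ^ (0 : ℝ) ∧
      (100 * C1 / p0) * X ^ (7 - θ') * Real.exp (-(k * X ^ (2 * (θ - θ')))) ≤ 1 ∧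
      (2 * Real.sqrt m2 * (3 / 2 / ε') / (5 / 100 * ((b - a) * q1))) * X ^ (1 / 2 + ε') ≤
        X ^ θ := by
    filter_upwards [eventually_ge_atTop 2, Real.tendsto_log_atTop.eventually_ge_atTop L0,
      Real.tendsto_log_atTop.eventually_ge_atTop (2 * C0),
      Real.tendsto_log_atTop.eventually_ge_atTop (C4 * C3 / η1 ^ 2),
      AA_ev1 hθ1 ((|s| + 1 + M * q2) / m1), AA_ev1 hθ0 (100 / ((b - a) * q1)),
      AA_ev1 hθ1 ((b - a) * q2 * 100 / m1),
      AA_ev1 hθ1 (C0 * ((b - a) * q2) * 1000 / (36 * m1)),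
      AA_ev1 (show θ' - 1 < 0 by linarith) 4,
      AA_ev2 (show 0 < 2 * (θ - θ') by linarith) hkp (7 - θ') (100 * C1 / p0),
      AA_ev1 (show 1 / 2 + ε' < θ by rw [hε']; linarith)
        (2 * Real.sqrt m2 * (3 / 2 / ε') / (5 / 100 * ((b - a) * q1)))]
      with X h1 h2 h3 h4 h5 h6 h7 h8 h9 h10 h11
    exact ⟨h1, h2, h3, h4, h5, h6, h7, h8, h9, h10, h11⟩
  obtain ⟨X0, hX0⟩ := eventually_atTop.1 ev
  refine ⟨max 2 X0, le_max_left _ _, fun X hX => ?_⟩
  obtain ⟨e1, e2, e3, e4, e5, e6, e7, e8, e9, e10, e11⟩ := hX0 X ((le_max_right _ _).trans hX)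
  rw [Real.rpow_one] at e5 e7 e8
  rw [Real.rpow_zero] at e6 e9
  have hXp : 0 < X := by linarith
  obtain ⟨L, hL⟩ : ∃ L, L = Real.log X := ⟨_, rfl⟩
  rw [← hL] at e2 e3 e4 ⊢
  have hLp : 0 < L := by linarith
  obtain ⟨Y, hY⟩ : ∃ Y, Y = X ^ θ := ⟨_, rfl⟩
  rw [← hY] at e5 e6 e7 e8 e11
  have hYp : 0 < Y := by rw [hY]; exact Real.rpow_pos_of_pos hXp _
  have hY1 : 1 ≤ Y := by rw [hY]; exact Real.one_le_rpow (by linarith) hθ0.le
  obtain ⟨δ, hδ⟩ : ∃ δ, δ = X ^ (θ' - 1) := ⟨_, rfl⟩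
  rw [← hδ] at e9
  have hδp : 0 < δ := by rw [hδ]; exact Real.rpow_pos_of_pos hXp _
  have hδ4 : δ ≤ 1 / 4 := by linarith
  have hδ2 : δ ^ 2 ≤ 8 / 100 := by nlinarith
  have hYX : X ^ (θ - 1) = Y / X := by rw [hY, Real.rpow_sub_one hXp.ne']
  -- mean square
  obtain ⟨hfi, hf2⟩ := hms L δ e2 (by
    rw [hδ, hL, Real.rpow_def_of_pos hXp]
    refine Real.exp_le_exp.2 (le_of_eq ?_)
    ring) (by linarith)
  obtain ⟨hFc, hMc⟩ := FF_cont hδp L
  have hfc : Continuous fun u => FF δ L u - MM δ L u := hFc.sub hMc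
  obtain ⟨hs, hmassL⟩ := hmass L
  -- the mass term
  have hLX : 1 + |L| ≤ X := by
    rw [abs_of_pos hLp, hL]
    have := Real.log_le_sub_one_of_pos hXp
    linarith
  have hmass2 : ∑' n, AA_w L n ≤ C1 * X ^ 6 := by
    refine hmassL.trans ?_
    exact mul_le_mul_of_nonneg_left (pow_le_pow_left₀ (by positivity) hLX 6) (by linarith)
  have hsq2pi : 1 ≤ Real.sqrt (2 * Real.pi) := by
    rw [Real.one_le_sqrt]
    have := Real.pi_gt_three
    linarith
  have hTmin : C1 * X ^ 6 * Real.exp (-(k * X ^ (2 * (θ - θ')))) ≤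
      1 / 100 * (δ * Real.sqrt (2 * Real.pi)) * p0 := by
    have h1 : X ^ (7 - θ') = X ^ 6 * X ^ (1 - θ') := by
      rw [← Real.rpow_natCast X 6, ← Real.rpow_add hXp]
      congr 1
      push_cast
      ring
    have h2 : X ^ (1 - θ') * δ = 1 := by
      rw [hδ, ← Real.rpow_add hXp]
      have : 1 - θ' + (θ' - 1) = 0 := by ring
      rw [this, Real.rpow_zero]
    have h3 : C1 * X ^ 6 * Real.exp (-(k * X ^ (2 * (θ - θ')))) =
        (100 * C1 / p0 * X ^ (7 - θ') * Real.exp (-(k * X ^ (2 * (θ - θ'))))) *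
          (1 / 100 * p0 * δ) := by
      rw [h1]
      calc C1 * X ^ 6 * Real.exp (-(k * X ^ (2 * (θ - θ')))) =
          C1 * X ^ 6 * Real.exp (-(k * X ^ (2 * (θ - θ')))) * (X ^ (1 - θ') * δ) := by
            rw [h2, mul_one]
        _ = _ := by
          field_simp
    rw [h3]
    have h4 : 0 ≤ 1 / 100 * p0 * δ := by positivity
    calc (100 * C1 / p0 * X ^ (7 - θ') * Real.exp (-(k * X ^ (2 * (θ - θ'))))) *
          (1 / 100 * p0 * δ) ≤ 1 * (1 / 100 * p0 * δ) := mul_le_mul_of_nonneg_right e10 h4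
      _ ≤ 1 / 100 * (δ * Real.sqrt (2 * Real.pi)) * p0 := by
        have h5 : δ ≤ δ * Real.sqrt (2 * Real.pi) := le_mul_of_one_le_right hδp.le hsq2pi
        nlinarith
  have hlogm : ∀ x, m1 * X ≤ x → x ≤ m2 * X → |Real.log x - L| ≤ C0 := by
    intro x h1 h2
    have hx : 0 < x := lt_of_lt_of_le (mul_pos hm1p hXp) h1
    have h3 := Real.log_le_log (mul_pos hm1p hXp) h1
    have h4 := Real.log_le_log hx h2
    rw [Real.log_mul hm1p.ne' hXp.ne'] at h3
    rw [Real.log_mul hm2p.ne' hXp.ne'] at h4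
    have h5 : |Real.log m1| ≤ C0 := by rw [hC0]; exact le_max_left _ _
    have h6 : |Real.log m2| ≤ C0 := by rw [hC0]; exact le_max_right _ _
    have h7 := neg_abs_le (Real.log m1)
    have h8 := le_abs_self (Real.log m2)
    rw [abs_le, hL]
    constructor <;> linarith
  -- facts on `c`
  have hc : ∀ c : ℕ, κ1 * X ≤ (c : ℝ) → (c : ℝ) ≤ κ2 * X →
      q1 * Y ≤ (c : ℝ) ^ θ ∧ (c : ℝ) ^ θ ≤ q2 * Y := by
    intro c h1 h2
    constructor
    · rw [hq1, hY, ← Real.mul_rpow hκ.le hXp.le]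
      exact Real.rpow_le_rpow (by positivity) h1 hθ0.le
    · rw [hq2, hY, ← Real.mul_rpow hκ2.le hXp.le]
      exact Real.rpow_le_rpow (by positivity) h2 hθ0.le
  have hsY : |s| + 1 + M * q2 * Y ≤ m1 * X := by
    have h1 : (|s| + 1 + M * q2) * Y ≤ m1 * X := by
      have h2 := mul_le_mul_of_nonneg_left e5 hm1p.le
      calc (|s| + 1 + M * q2) * Y = m1 * ((|s| + 1 + M * q2) / m1 * Y) := by
            field_simp
        _ ≤ m1 * X := h2
    have h3 : |s| + 1 ≤ (|s| + 1) * Y := le_mul_of_one_le_right (by positivity) hY1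
    nlinarith
  have hfacts : ∀ c : ℕ, κ1 * X ≤ (c : ℝ) → (c : ℝ) ≤ κ2 * X →
      m1 * X ≤ r * c + s + a * (c : ℝ) ^ θ ∧ r * c + s + b * (c : ℝ) ^ θ - 1 ≤ m2 * X := by
    intro c h1 h2
    obtain ⟨h3, h4⟩ := hc c h1 h2
    have h5 : 0 ≤ (c : ℝ) ^ θ := Real.rpow_nonneg (Nat.cast_nonneg c) _
    have h6 : |a * (c : ℝ) ^ θ| ≤ M * (q2 * Y) := by
      rw [abs_mul, abs_of_nonneg h5, hM]
      exact mul_le_mul (by linarith [abs_nonneg b]) h4 h5 (by positivity)
    have h7 : |b * (c : ℝ) ^ θ| ≤ M * (q2 * Y) := by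
      rw [abs_mul, abs_of_nonneg h5, hM]
      exact mul_le_mul (by linarith [abs_nonneg a]) h4 h5 (by positivity)
    have h8 := neg_abs_le (a * (c : ℝ) ^ θ)
    have h9 := le_abs_self (b * (c : ℝ) ^ θ)
    have h10 := neg_abs_le s
    have h11 := le_abs_self s
    have h12 : r * (κ1 * X) ≤ r * c := mul_le_mul_of_nonneg_left h1 hr.le
    have h13 : r * c ≤ r * (κ2 * X) := mul_le_mul_of_nonneg_left h2 hr.le
    have h14 : m1 * X * 2 = r * (κ1 * X) := by rw [hm1]; ring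
    have h15 : m2 * X = 2 * (r * (κ2 * X)) := by rw [hm2]; ring
    have h16 : r * (κ1 * X) ≤ r * (κ2 * X) :=
      mul_le_mul_of_nonneg_left (mul_le_mul_of_nonneg_right hκ' hXp.le) hr.le
    have h17 : 0 < r * (κ1 * X) := by positivity
    have h18 : M * (q2 * Y) = M * q2 * Y := by ring
    rw [h18] at h6 h7
    constructor
    · linarith
    · linarith
  -- the threshold
  obtain ⟨e0, he0⟩ : ∃ e0, e0 = η1 * δ * (Y / X) := ⟨_, rfl⟩
  have he0p : 0 < e0 := by rw [he0]; positivity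
  obtain ⟨w, hw⟩ : ∃ w, w = C3 * (Y / X) := ⟨_, rfl⟩
  have hwp : 0 < w := by rw [hw]; positivity
  obtain ⟨J, hJ⟩ : ∃ J : ℕ → Set ℝ, J = fun c : ℕ => Set.Icc
      (Real.log (r * c + s + a * (c : ℝ) ^ θ + ((b - a) * (c : ℝ) ^ θ - 1) / 4))
      (Real.log (r * c + s + b * (c : ℝ) ^ θ - 1 - ((b - a) * (c : ℝ) ^ θ - 1) / 4)) := ⟨_, rfl⟩
  have hBmem : ∀ c ∈ Bad r s a b θ κ1 κ2 X, κ1 * X ≤ (c : ℝ) ∧ (c : ℝ) ≤ κ2 * X ∧
      (((Icc 1 ⌊r * c + s + b * (c : ℝ) ^ θ - 1⌋₊).filter fun q : ℕ =>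
      q.Prime ∧ r * c + s + a * (c : ℝ) ^ θ ≤ (q : ℝ)).card : ℝ) <
        (b - a) / 5 * (c : ℝ) ^ θ / L := by
    intro c hcB
    unfold Bad at hcB
    rw [Finset.mem_filter, Finset.mem_Icc, ← hL] at hcB
    exact ⟨Nat.ceil_le.1 hcB.1.1, (Nat.le_floor_iff (by positivity)).1 hcB.1.2, hcB.2⟩
  have hkey : ∀ c ∈ Bad r s a b θ κ1 κ2 X,
      e0 ^ 2 / w ≤ ∫ u in J c, (FF δ L u - MM δ L u) ^ 2 := by
    intro c hcB
    obtain ⟨h1, h2, h3⟩ := hBmem c hcB
    obtain ⟨h4, h5⟩ := hc c h1 h2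
    obtain ⟨h6, h7⟩ := hfacts c h1 h2
    obtain ⟨lo, hlo⟩ : ∃ lo, lo = r * c + s + a * (c : ℝ) ^ θ := ⟨_, rfl⟩
    obtain ⟨hi, hhi⟩ : ∃ hi, hi = r * c + s + b * (c : ℝ) ^ θ - 1 := ⟨_, rfl⟩
    obtain ⟨H, hH⟩ : ∃ H, H = (b - a) * (c : ℝ) ^ θ := ⟨_, rfl⟩
    have hJc : J c = Set.Icc (Real.log (lo + (H - 1) / 4)) (Real.log (hi - (H - 1) / 4)) := by
      rw [hJ, hlo, hhi, hH]
    rw [← hlo, ← hhi] at h3
    rw [← hlo] at h6
    rw [← hhi] at h7
    have hhilo : hi = lo + (H - 1) := by rw [hlo, hhi, hH]; ring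
    have hHlow : (b - a) * q1 * Y ≤ H := by
      rw [hH, mul_assoc]
      exact mul_le_mul_of_nonneg_left h4 hba.le
    have hHup : H ≤ (b - a) * q2 * Y := by
      rw [hH, mul_assoc]
      exact mul_le_mul_of_nonneg_left h5 hba.le
    have hbq1 : 0 < (b - a) * q1 := mul_pos hba hq1p
    have hbq2 : 0 < (b - a) * q2 := mul_pos hba hq2p
    have hH100 : 100 ≤ H := by
      refine le_trans ?_ hHlow
      have := mul_le_mul_of_nonneg_left e6 hbq1.le
      rw [mul_one, mul_div_cancel₀ _ hbq1.ne'] at this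
      exact this
    have hHs : H ≤ 1 / 100 * (m1 * X) := by
      refine hHup.trans ?_
      have h8 := mul_le_mul_of_nonneg_left e7 (show 0 ≤ m1 / 100 by positivity)
      calc (b - a) * q2 * Y = m1 / 100 * ((b - a) * q2 * 100 / m1 * Y) := by
            field_simp
        _ ≤ m1 / 100 * X := h8
        _ = 1 / 100 * (m1 * X) := by ring
    have hHs2 : C0 * (H / (m1 * X)) ≤ 36 / 1000 := by
      have hmX : 0 < m1 * X := mul_pos hm1p hXp
      have h8 : C0 * H ≤ C0 * ((b - a) * q2 * Y) := mul_le_mul_of_nonneg_left hHup hC0n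
      have h9 := mul_le_mul_of_nonneg_left e8 (show 0 ≤ 36 * m1 / 1000 by positivity)
      have h10 : 36 * m1 / 1000 * (C0 * ((b - a) * q2) * 1000 / (36 * m1) * Y) =
          C0 * ((b - a) * q2 * Y) := by
        field_simp
      rw [h10] at h9
      rw [← mul_div_assoc, div_le_iff₀ hmX]
      linarith
    have hT : (∑' n, AA_w L n) * Real.exp (-(H / (5 * (m2 * X))) ^ 2 / (2 * δ ^ 2)) ≤
        1 / 100 * (δ * Real.sqrt (2 * Real.pi)) * p0 := by
      refine le_trans ?_ hTmin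
      refine mul_le_mul hmass2 (Real.exp_le_exp.2 ?_) (Real.exp_pos _).le (by positivity)
      rw [neg_div, neg_le_neg_iff]
      have h8 : k * X ^ (2 * (θ - θ')) = ((b - a) * q1 * Y / (5 * (m2 * X))) ^ 2 / (2 * δ ^ 2) := by
        have h9 : X ^ (2 * (θ - θ')) = (Y / X) ^ 2 / δ ^ 2 := by
          rw [← hYX, hδ, ← div_pow, ← Real.rpow_sub hXp, ← Real.rpow_natCast, ← Real.rpow_mul hXp.le]
          congr 1
          push_cast
          ring
        rw [h9, hk]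
        field_simp
      rw [h8]
      refine div_le_div_of_nonneg_right ?_ (by positivity)
      refine pow_le_pow_left₀ (by positivity) ?_ 2
      exact div_le_div_of_nonneg_right hHlow (by positivity)
    have hsqr : 2 * Real.sqrt (m2 * X) * (L + C0) ≤ 5 / 100 * H := by
      have h8 : L ≤ X ^ ε' / ε' := by
        rw [hL]
        exact Real.log_le_rpow_div hXp.le hε'p
      have h9 : L + C0 ≤ 3 / 2 / ε' * X ^ ε' := by
        calc L + C0 ≤ 3 / 2 * L := by linarith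
          _ ≤ 3 / 2 * (X ^ ε' / ε') := mul_le_mul_of_nonneg_left h8 (by norm_num)
          _ = _ := by ring
      have h10 : Real.sqrt (m2 * X) = Real.sqrt m2 * X ^ (1 / 2 : ℝ) := by
        rw [Real.sqrt_mul hm2p.le, Real.sqrt_eq_rpow X]
      have h11 : X ^ (1 / 2 + ε') = X ^ (1 / 2 : ℝ) * X ^ ε' := Real.rpow_add hXp _ _
      have h12 := mul_le_mul_of_nonneg_left e11
        (show 0 ≤ 5 / 100 * ((b - a) * q1) by positivity)
      have h13 : 5 / 100 * ((b - a) * q1) *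
          (2 * Real.sqrt m2 * (3 / 2 / ε') / (5 / 100 * ((b - a) * q1)) * X ^ (1 / 2 + ε')) =
          2 * Real.sqrt m2 * (3 / 2 / ε') * (X ^ (1 / 2 : ℝ) * X ^ ε') := by
        rw [h11]
        field_simp
      rw [h13] at h12
      have h14 : 0 ≤ 2 * (Real.sqrt m2 * X ^ (1 / 2 : ℝ)) := by positivity
      calc 2 * Real.sqrt (m2 * X) * (L + C0) = 2 * (Real.sqrt m2 * X ^ (1 / 2 : ℝ)) * (L + C0) := by
            rw [h10]
        _ ≤ 2 * (Real.sqrt m2 * X ^ (1 / 2 : ℝ)) * (3 / 2 / ε' * X ^ ε') :=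
            mul_le_mul_of_nonneg_left h9 h14
        _ = 2 * Real.sqrt m2 * (3 / 2 / ε') * (X ^ (1 / 2 : ℝ) * X ^ ε') := by ring
        _ ≤ 5 / 100 * ((b - a) * q1) * Y := h12
        _ ≤ 5 / 100 * H := by linarith
    have he1 : m2 * X / (δ * Real.sqrt (2 * Real.pi) * p0) * e0 ≤ 1 / 10 * H := by
      have h8 : m2 * X / (δ * Real.sqrt (2 * Real.pi) * p0) ≤ m2 * X / (δ * p0) := by
        refine div_le_div_of_nonneg_left (by positivity) (by positivity) ?_
        have h5 : δ ≤ δ * Real.sqrt (2 * Real.pi) := le_mul_of_one_le_right hδp.le hsq2pi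
        exact mul_le_mul_of_nonneg_right h5 hp0p.le
      calc m2 * X / (δ * Real.sqrt (2 * Real.pi) * p0) * e0 ≤ m2 * X / (δ * p0) * e0 :=
            mul_le_mul_of_nonneg_right h8 he0p.le
        _ = 1 / 10 * ((b - a) * q1 * Y) := by
          rw [he0, hη1]
          field_simp
        _ ≤ 1 / 10 * H := by linarith
    have hnot : ¬ (∫ u in Set.Icc (Real.log (lo + (H - 1) / 4)) (Real.log (hi - (H - 1) / 4)),
        |FF δ L u - MM δ L u| ≤ e0) := by
      intro hE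
      have h8 := AA_primes (X := X) (L := L) (m1 := m1) (m2 := m2) (C0 := C0) (p0 := p0)
        (e0 := e0) hXp hLp hm1p h6 hhilo h7 hH100 hHs hHs2 hlogm hp0p hp0.le hδp hδ2 hs hT hsqr
        (by linarith) hE he0p.le he1
      have h9 : H / 5 / L = (b - a) / 5 * (c : ℝ) ^ θ / L := by rw [hH]; ring
      rw [h9] at h8
      linarith
    rw [hJc]
    have hlop : 0 < lo := lt_of_lt_of_le (mul_pos hm1p hXp) h6
    have hv1 : 0 < lo + (H - 1) / 4 := by linarith
    have hv2 : 0 < hi - (H - 1) / 4 := by linarith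
    refine AA_l2 hfc (Real.log_le_log hv1 (by linarith)) ?_ hwp he0p rfl (not_le.1 hnot)
    rw [← Real.log_div hv2.ne' hv1.ne']
    have h8 := Real.log_le_sub_one_of_pos (div_pos hv2 hv1)
    refine h8.trans ?_
    have h9 : (hi - (H - 1) / 4) / (lo + (H - 1) / 4) - 1 = ((H - 1) / 2) / (lo + (H - 1) / 4) := by
      rw [eq_div_iff hv1.ne', sub_mul, one_mul, div_mul_cancel₀ _ hv1.ne', hhilo]
      ring
    rw [h9]
    calc ((H - 1) / 2) / (lo + (H - 1) / 4) ≤ H / (m1 * X) := by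
          refine div_le_div₀ (by linarith) (by linarith) (by positivity) (by linarith)
      _ ≤ ((b - a) * q2 * Y) / (m1 * X) := div_le_div_of_nonneg_right hHup (by positivity)
      _ = w := by
        rw [hw, hC3]
        field_simp
  -- summation
  have hover := AA_overlap (Bad r s a b θ κ1 κ2 X) (f := fun u => (FF δ L u - MM δ L u) ^ 2)
    (fun u => sq_nonneg _) hfi J (fun c => by rw [hJ]; exact measurableSet_Icc) (K := C4 * Y)
    (fun u B' hB' hu => by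
      have h1 : (B'.card : ℝ) ≤ 2 * (M * q2 * Y / r) + 1 := by
        refine AA_diam B' (by positivity) fun c hc1 c' hc2 => ?_
        obtain ⟨h1, h2, -⟩ := hBmem c (hB' hc1)
        obtain ⟨h3, h4, -⟩ := hBmem c' (hB' hc2)
        have hu1 := hu c hc1
        have hu2 := hu c' hc2
        rw [hJ] at hu1 hu2
        obtain ⟨h5, h6⟩ := hfacts c h1 h2
        obtain ⟨h7, h8⟩ := hfacts c' h3 h4
        obtain ⟨h9, h10⟩ := hc c h1 h2
        obtain ⟨h11, h12⟩ := hc c' h3 h4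
        have hbq1 : 0 < (b - a) * q1 := mul_pos hba hq1p
        have hH1 : 100 ≤ (b - a) * q1 * Y := by
          have := mul_le_mul_of_nonneg_left e6 hbq1.le
          rw [mul_one, mul_div_cancel₀ _ hbq1.ne'] at this
          exact this
        have hHc : 100 ≤ (b - a) * (c : ℝ) ^ θ := by
          refine hH1.trans ?_
          rw [mul_assoc]
          exact mul_le_mul_of_nonneg_left h9 hba.le
        have hHc' : 100 ≤ (b - a) * (c' : ℝ) ^ θ := by
          refine hH1.trans ?_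
          rw [mul_assoc]
          exact mul_le_mul_of_nonneg_left h11 hba.le
        have hmX : 0 < m1 * X := mul_pos hm1p hXp
        have h13 : r * c + s + a * (c : ℝ) ^ θ + ((b - a) * (c : ℝ) ^ θ - 1) / 4 ≤ Real.exp u := by
          have hpos : 0 < r * c + s + a * (c : ℝ) ^ θ + ((b - a) * (c : ℝ) ^ θ - 1) / 4 := by
            linarith
          rw [← Real.exp_log hpos]
          exact Real.exp_le_exp.2 hu1.1
        have h14 : Real.exp u ≤ r * c' + s + b * (c' : ℝ) ^ θ - 1 -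
            ((b - a) * (c' : ℝ) ^ θ - 1) / 4 := by
          have hpos : 0 < r * c' + s + b * (c' : ℝ) ^ θ - 1 -
              ((b - a) * (c' : ℝ) ^ θ - 1) / 4 := by
            nlinarith
          rw [← Real.exp_log hpos]
          exact Real.exp_le_exp.2 hu2.2
        have h15 : r * c - r * c' ≤ b * (c' : ℝ) ^ θ - a * (c : ℝ) ^ θ := by linarith
        have h16 : b * (c' : ℝ) ^ θ ≤ |b| * (q2 * Y) := by
          calc b * (c' : ℝ) ^ θ ≤ |b| * (c' : ℝ) ^ θ :=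
                mul_le_mul_of_nonneg_right (le_abs_self b)
                  (Real.rpow_nonneg (Nat.cast_nonneg _) _)
            _ ≤ |b| * (q2 * Y) := mul_le_mul_of_nonneg_left h12 (abs_nonneg b)
        have h17 : -(a * (c : ℝ) ^ θ) ≤ |a| * (q2 * Y) := by
          calc -(a * (c : ℝ) ^ θ) = (-a) * (c : ℝ) ^ θ := by ring
            _ ≤ |a| * (c : ℝ) ^ θ :=
                mul_le_mul_of_nonneg_right (neg_le_abs a)
                  (Real.rpow_nonneg (Nat.cast_nonneg _) _)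
            _ ≤ |a| * (q2 * Y) := mul_le_mul_of_nonneg_left h10 (abs_nonneg a)
        rw [le_div_iff₀ hr, hM]
        have h18 : ((c : ℝ) - c') * r = r * c - r * c' := by ring
        rw [h18]
        have h19 : (|a| + |b|) * q2 * Y = |a| * (q2 * Y) + |b| * (q2 * Y) := by ring
        rw [h19]
        linarith
      refine h1.trans ?_
      rw [hC4]
      have h2 : 2 * (M * q2 * Y / r) = 2 * (M * q2 / r) * Y := by ring
      rw [h2, add_mul, one_mul]
      linarith)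
  have hsum : ((Bad r s a b θ κ1 κ2 X).card : ℝ) * (e0 ^ 2 / w) ≤
      ∑ c ∈ Bad r s a b θ κ1 κ2 X, ∫ u in J c, (FF δ L u - MM δ L u) ^ 2 := by
    rw [← nsmul_eq_mul]
    exact Finset.card_nsmul_le_sum _ _ _ hkey
  have hfinal : ((Bad r s a b θ κ1 κ2 X).card : ℝ) * (e0 ^ 2 / w) ≤
      C4 * Y * (δ ^ 2 * L ^ (-(A + 1))) := by
    refine hsum.trans (hover.trans ?_)
    exact mul_le_mul_of_nonneg_left hf2 (by positivity)
  have hd : e0 ^ 2 / w = η1 ^ 2 * δ ^ 2 * Y / (C3 * X) := by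
    rw [he0, hw]
    field_simp
  rw [hd] at hfinal
  have hLA : L ^ (-(A + 1)) * L = L ^ (-A) := by
    rw [← Real.rpow_add_one hLp.ne']
    congr 1
    ring
  have hcard : ((Bad r s a b θ κ1 κ2 X).card : ℝ) ≤
      C4 * C3 / η1 ^ 2 * X * L ^ (-(A + 1)) := by
    have h1 : 0 < η1 ^ 2 * δ ^ 2 * Y / (C3 * X) := by positivity
    have h2 : C4 * Y * (δ ^ 2 * L ^ (-(A + 1))) =
        (C4 * C3 / η1 ^ 2 * X * L ^ (-(A + 1))) * (η1 ^ 2 * δ ^ 2 * Y / (C3 * X)) := by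
      field_simp
    rw [h2] at hfinal
    exact le_of_mul_le_mul_right hfinal h1
  refine hcard.trans ?_
  have h3 : 0 < L ^ (-(A + 1)) := Real.rpow_pos_of_pos hLp _
  calc C4 * C3 / η1 ^ 2 * X * L ^ (-(A + 1)) ≤ L * X * L ^ (-(A + 1)) := by
        refine mul_le_mul_of_nonneg_right (mul_le_mul_of_nonneg_right e4 hXp.le) h3.le
    _ = X * (L ^ (-(A + 1)) * L) := by ring
    _ = X / L ^ A := by
      rw [hLA, Real.rpow_neg hLp.le, div_eq_mul_inv]

end ASI
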