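import Pool.Agent.VKZ.PrimeG

/-!
# ASI: primes in almost all short intervals of length `x^θ`, `θ > 1/2`

Gaussian weights in `log n` everywhere. `P L τ = ∑ Λ(n) n^(-1-iτ) exp(-(log n - L)²/8)`. Main result on `P`:
`ASI.P_mean_sq`: the integral of `|P - main term|²` over `|τ| ≤ exp(L/2)` is at most `L^(-A)`. Vaughan's identity
with smooth cutoffs: `Λ = F + log*G - 1*F*G + (Λ h)*(μ h')*1`, `F = Λ(1-h)`, `G = μ(1-h')`.
-/

namespace ASI

open MeasureTheory ArithmeticFunction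

/-- The weight at the top, as a function of `x = log n`. -/
noncomputable def ps (L x : ℝ) : ℝ := Real.exp (-(x - L) ^ 2 / 8)

/-- The cutoff for `Λ`. -/
noncomputable def hL (U x : ℝ) : ℝ :=
  (1 / Real.sqrt (4 * Real.pi)) * ∫ w in Set.Ioi U, Real.exp (-(x - w) ^ 2 / 4)

/-- The cutoff for `μ`. -/
noncomputable def hM (U x : ℝ) : ℝ :=
  (1 / Real.sqrt (8 * Real.pi)) * ∫ w in Set.Ioi U, Real.exp (-(x - w) ^ 2 / 8)

/-- `n^(-1-iτ)`. -/
noncomputable def np (n : ℕ) (τ : ℝ) : ℂ := (n : ℂ) ^ (-(1 + τ * Complex.I))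

/-- The Dirichlet series of the primes with the Gaussian weight. -/
noncomputable def P (L τ : ℝ) : ℂ :=
  ∑' n : ℕ, (vonMangoldt n : ℂ) * np n τ * (ps L (Real.log n) : ℝ)

/-- Its main term `∫ exp(-iτx) exp(-(x-L)²/8) dx`. -/
noncomputable def mainT (L τ : ℝ) : ℂ :=
  Real.sqrt (8 * Real.pi) * Real.exp (-2 * τ ^ 2) * Complex.exp (-(τ * L * Complex.I))

/-- The convolution `(μ h')*1`. -/
noncomputable def bt (U : ℝ) (k : ℕ) : ℝ := ∑ d ∈ k.divisors, (moebius d : ℝ) * hM U (Real.log d)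

/-- The type II sum. -/
noncomputable def T4 (L U τ : ℝ) : ℂ :=
  ∑' q : ℕ × ℕ, ((vonMangoldt q.1 * hL U (Real.log q.1) * bt U q.2 : ℝ) : ℂ) * np q.1 τ * np q.2 τ *
    (ps L (Real.log q.1 + Real.log q.2) : ℝ)

/-- The factor with `Λ`. -/
noncomputable def As (U c τ : ℝ) : ℂ :=
  ∑' m : ℕ, ((vonMangoldt m * hL U (Real.log m) : ℝ) : ℂ) * np m τ *
    (Real.exp (-(Real.log m - c) ^ 2 / 4) : ℝ)

/-- The factor with `(μ h')*1`. -/
noncomputable def Bs (U y τ : ℝ) : ℂ :=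
  ∑' k : ℕ, (bt U k : ℂ) * np k τ * (Real.exp (-(Real.log k - y) ^ 2 / 4) : ℝ)

end ASI
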