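import Pool.Agent.ASI.TypeI
import Pool.Agent.ASI.TypeII

/-!
# ASI.PMS: the mean square of `P`

PROOF. `P_point`: `exp(-(x-L)²/8) = √(2/(3π)) ∫ exp(-(x-w)²/2) exp(-(w-L)²/6) dw`, so
`P L τ = √(2/(3π)) ∫ exp(-(w-L)²/6) gs Λ w τ dw` (Fubini) and for `w ≥ L/2` use `VKZ.prime_gauss` (`K = 2`), for `w < L/2`
the weight is tiny; the average of the main terms is the main term `mainT L τ`:
`√(2/(3π)) ∫ exp(-(w-L)²/6) √(2π) exp(-τ²/2) exp(-iτw) dw = √(8π) exp(-2τ²) exp(-iτL)`.
`P_mean_sq`: on `|τ| ≤ L` use `P_point` with a larger `A`; on `L ≤ |τ| ≤ exp(L/2)`: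
`‖P - mainT‖² ≤ 3 (‖mainT‖² + ‖P - T4‖² + ‖T4‖²)`, `‖mainT‖ ≤ 6 exp(-2L²)`, `typeI` (the integral of
`τ² exp(-(154/100) L)` over `|τ| ≤ exp(L/2)` is at most `exp(-(4/100) L)`) and `T4_ms`. (`T4` is measurable by
`T4_eq` and `AsBs_cont`, or as a sum of continuous functions.) `P_triv`: `div_gauss`.
-/

namespace ASI

open MeasureTheory

private theorem PMS_np_norm (n : ℕ) (τ : ℝ) : ‖np n τ‖ = 1 / n := by
  unfold np
  rcases Nat.eq_zero_or_pos n with h | h
  · subst h
    rw [Nat.cast_zero, Complex.zero_cpow]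
    · simp
    · intro h0
      have := congrArg Complex.re h0
      simp at this
  · rw [Complex.norm_natCast_cpow_of_pos h]
    have : (-(1 + (τ : ℂ) * Complex.I)).re = -1 := by simp
    rw [this, Real.rpow_neg_one, one_div]

private noncomputable def PMS_a (n : ℕ) : ℝ :=
  (n.divisors.card : ℝ) ^ 2 * (1 + Real.log n) ^ 2 / n

private theorem PMS_a_nonneg (n : ℕ) : 0 ≤ PMS_a n := by
  unfold PMS_a
  positivity

private theorem PMS_term (n : ℕ) (τ : ℝ) :
    ‖(ArithmeticFunction.vonMangoldt n : ℂ) * np n τ‖ ≤ PMS_a n := by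
  rw [norm_mul, PMS_np_norm, Complex.norm_real, Real.norm_of_nonneg
    ArithmeticFunction.vonMangoldt_nonneg]
  unfold PMS_a
  rcases Nat.eq_zero_or_pos n with h | h
  · subst h
    simp
  · have h1 : (1 : ℝ) ≤ n := by exact_mod_cast h
    have h2 : 0 ≤ Real.log n := Real.log_nonneg h1
    have h3 : ArithmeticFunction.vonMangoldt n ≤ Real.log n :=
      ArithmeticFunction.vonMangoldt_le_log
    have h4 : (1 : ℝ) ≤ n.divisors.card := by
      have : 0 < n.divisors.card := Finset.card_pos.mpr ⟨1, Nat.one_mem_divisors.mpr h.ne'⟩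
      exact_mod_cast this
    have h5 : Real.log n ≤ (n.divisors.card : ℝ) ^ 2 * (1 + Real.log n) ^ 2 := by
      have h6 : (1 : ℝ) ≤ (n.divisors.card : ℝ) ^ 2 := one_le_pow₀ h4
      nlinarith [sq_nonneg (Real.log n)]
    rw [mul_one_div]
    exact div_le_div_of_nonneg_right (h3.trans h5) (by positivity)

private theorem PMS_zero_cpow_ne (τ : ℝ) : -(1 + (τ : ℂ) * Complex.I) ≠ 0 := by
  intro h0
  have := congrArg Complex.re h0
  simp at this

private theorem PMS_np_cont (n : ℕ) : Continuous (fun τ : ℝ => np n τ) := by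
  unfold np
  rw [continuous_iff_continuousAt]
  intro τ
  refine ContinuousAt.const_cpow ?_ (Or.inr (PMS_zero_cpow_ne τ))
  fun_prop

/-- the weighted majorant -/
private theorem PMS_sum : ∃ C : ℝ, 1 ≤ C ∧ ∀ y : ℝ,
    Summable (fun n : ℕ => PMS_a n * Real.exp (-(Real.log n - y) ^ 2 / 16)) ∧
    ∑' n : ℕ, PMS_a n * Real.exp (-(Real.log n - y) ^ 2 / 16) ≤ C * (1 + |y|) ^ 6 := by
  obtain ⟨C, hC, h⟩ := div_gauss
  exact ⟨C, hC, fun y => ⟨(h y).1, (h y).2.1⟩⟩

private theorem PMS_exp_mono {x c c' : ℝ} (hc : 0 < c) (hcc : c ≤ c') :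
    Real.exp (-x ^ 2 / c) ≤ Real.exp (-x ^ 2 / c') := by
  apply Real.exp_le_exp.mpr
  rw [neg_div, neg_div, neg_le_neg_iff]
  exact div_le_div_of_nonneg_left (sq_nonneg x) hc hcc

private theorem PMS_summand (L : ℝ) (n : ℕ) (τ : ℝ) :
    ‖(ArithmeticFunction.vonMangoldt n : ℂ) * np n τ * (ps L (Real.log n) : ℝ)‖ ≤
      PMS_a n * Real.exp (-(Real.log n - L) ^ 2 / 16) := by
  rw [norm_mul, Complex.norm_real, Real.norm_of_nonneg
    (show 0 ≤ ps L (Real.log n) from (Real.exp_pos _).le)]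
  exact mul_le_mul (PMS_term n τ) (PMS_exp_mono (by norm_num) (by norm_num))
    (Real.exp_pos _).le (PMS_a_nonneg n)

theorem P_triv : ∃ C : ℝ, 1 ≤ C ∧ ∀ L τ : ℝ, ‖P L τ‖ ≤ C * (1 + |L|) ^ 6 := by
  obtain ⟨C, hC, h⟩ := PMS_sum
  refine ⟨C, hC, fun L τ => ?_⟩
  obtain ⟨h1, h2⟩ := h L
  refine le_trans ?_ h2
  unfold P
  exact tsum_of_norm_bounded h1.hasSum fun n => PMS_summand L n τ

theorem P_cont (L : ℝ) : Continuous (P L) := by
  obtain ⟨C, hC, h⟩ := PMS_sum
  unfold P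
  refine continuous_tsum (fun n => ?_) (h L).1 fun n τ => PMS_summand L n τ
  exact (continuous_const.mul (PMS_np_cont n)).mul continuous_const

private theorem PMS_square (x w L : ℝ) :
    -(x - w) ^ 2 / 2 + -(w - L) ^ 2 / 6 =
      -(x - L) ^ 2 / 8 + -(2 / 3) * (w - (3 * x + L) / 4) ^ 2 := by
  ring

private theorem PMS_prod (x w L : ℝ) :
    Real.exp (-(x - w) ^ 2 / 2) * Real.exp (-(w - L) ^ 2 / 6) =
      Real.exp (-(x - L) ^ 2 / 8) * Real.exp (-(2 / 3) * (w - (3 * x + L) / 4) ^ 2) := by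
  rw [← Real.exp_add, ← Real.exp_add, PMS_square]

private theorem PMS_conv_int (x L : ℝ) :
    Integrable (fun w : ℝ => Real.exp (-(x - w) ^ 2 / 2) * Real.exp (-(w - L) ^ 2 / 6)) := by
  simp only [PMS_prod]
  exact ((integrable_exp_neg_mul_sq (b := 2 / 3) (by norm_num)).comp_sub_right _).const_mul _

private theorem PMS_conv (x L : ℝ) :
    ∫ w : ℝ, Real.exp (-(x - w) ^ 2 / 2) * Real.exp (-(w - L) ^ 2 / 6) =
      Real.sqrt (3 * Real.pi / 2) * Real.exp (-(x - L) ^ 2 / 8) := by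
  simp only [PMS_prod]
  rw [integral_const_mul]
  have h := integral_sub_right_eq_self (μ := (volume : Measure ℝ))
    (fun w : ℝ => Real.exp (-(2 / 3) * w ^ 2)) ((3 * x + L) / 4)
  rw [h, integral_gaussian]
  have : Real.pi / (2 / 3) = 3 * Real.pi / 2 := by ring
  rw [this, mul_comm]

private noncomputable def PMS_F (L τ : ℝ) (n : ℕ) (w : ℝ) : ℂ :=
  (ArithmeticFunction.vonMangoldt n : ℂ) * np n τ *
    ((Real.exp (-(Real.log n - w) ^ 2 / 2) * Real.exp (-(w - L) ^ 2 / 6) : ℝ) : ℂ)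

private theorem PMS_F_int (L τ : ℝ) (n : ℕ) : Integrable (PMS_F L τ n) := by
  unfold PMS_F
  exact ((PMS_conv_int _ _).ofReal).const_mul _

private theorem PMS_F_integral (L τ : ℝ) (n : ℕ) : ∫ w : ℝ, PMS_F L τ n w =
    (Real.sqrt (3 * Real.pi / 2) : ℂ) *
      ((ArithmeticFunction.vonMangoldt n : ℂ) * np n τ * (ps L (Real.log n) : ℝ)) := by
  unfold PMS_F
  rw [integral_const_mul, integral_complex_ofReal, PMS_conv]
  unfold ps
  push_cast
  ring

private theorem PMS_F_norm (L τ : ℝ) (n : ℕ) : ∫ w : ℝ, ‖PMS_F L τ n w‖ =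
    Real.sqrt (3 * Real.pi / 2) *
      ‖(ArithmeticFunction.vonMangoldt n : ℂ) * np n τ * (ps L (Real.log n) : ℝ)‖ := by
  have h1 : ∀ w, ‖PMS_F L τ n w‖ = ‖(ArithmeticFunction.vonMangoldt n : ℂ) * np n τ‖ *
      (Real.exp (-(Real.log n - w) ^ 2 / 2) * Real.exp (-(w - L) ^ 2 / 6)) := fun w => by
    unfold PMS_F
    rw [norm_mul, Complex.norm_real, Real.norm_of_nonneg (by positivity)]
  simp only [h1]
  rw [integral_const_mul, PMS_conv, norm_mul (_ * _), Complex.norm_real,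
    Real.norm_of_nonneg (show 0 ≤ ps L (Real.log n) from (Real.exp_pos _).le)]
  unfold ps
  ring

private theorem PMS_F_tsum (L τ w : ℝ) : ∑' n : ℕ, PMS_F L τ n w =
    VKZ.gs (fun n => ArithmeticFunction.vonMangoldt n) w τ *
      (Real.exp (-(w - L) ^ 2 / 6) : ℝ) := by
  unfold VKZ.gs
  rw [← tsum_mul_right]
  refine tsum_congr fun n => ?_
  unfold PMS_F np
  push_cast
  ring

private theorem PMS_F_cont (L τ : ℝ) : Continuous (fun w : ℝ => ∑' n : ℕ, PMS_F L τ n w) := by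
  obtain ⟨C, hC, h⟩ := PMS_sum
  refine continuous_tsum (fun n => ?_) (h L).1 fun n w => ?_
  · unfold PMS_F
    fun_prop
  · unfold PMS_F
    rw [norm_mul, Complex.norm_real, Real.norm_of_nonneg (by positivity)]
    refine mul_le_mul (PMS_term n τ) ?_ (by positivity) (PMS_a_nonneg n)
    rw [← Real.exp_add]
    apply Real.exp_le_exp.mpr
    rw [PMS_square]
    nlinarith [sq_nonneg (w - (3 * Real.log n + L) / 4), sq_nonneg (Real.log n - L)]

private theorem PMS_P_eq (L τ : ℝ) : (Real.sqrt (3 * Real.pi / 2) : ℂ) * P L τ =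
    ∫ w : ℝ, VKZ.gs (fun n => ArithmeticFunction.vonMangoldt n) w τ *
      (Real.exp (-(w - L) ^ 2 / 6) : ℝ) := by
  obtain ⟨C, hC, h⟩ := PMS_sum
  have hsum := integral_tsum_of_summable_integral_norm (μ := volume) (F := PMS_F L τ)
    (PMS_F_int L τ) (by
      simp only [PMS_F_norm]
      refine Summable.mul_left _ ?_
      exact Summable.of_nonneg_of_le (fun n => norm_nonneg _) (fun n => PMS_summand L n τ) (h L).1)
  simp only [PMS_F_tsum, PMS_F_integral] at hsum
  rw [← hsum, tsum_mul_left]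
  rfl

/-- the main term of the Gaussian sum -/
private noncomputable def PMS_M (τ w : ℝ) : ℂ :=
  Real.sqrt (2 * Real.pi) * Real.exp (-τ ^ 2 / 2) * Complex.exp (-(τ * w * Complex.I))

private theorem PMS_gauss_int (L : ℝ) : Integrable (fun w : ℝ => Real.exp (-(w - L) ^ 2 / 6)) := by
  have h := (integrable_exp_neg_mul_sq (b := 1 / 6) (by norm_num)).comp_sub_right L
  refine h.congr (Filter.Eventually.of_forall fun v => ?_)
  simp only []
  congr 1
  ring

private theorem PMS_M_norm (τ w : ℝ) : ‖PMS_M τ w‖ ≤ Real.sqrt (2 * Real.pi) := by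
  unfold PMS_M
  have h1 : ‖Complex.exp (-(τ * w * Complex.I))‖ = 1 := by
    rw [Complex.norm_exp]
    simp
  rw [norm_mul, h1, mul_one, norm_mul, Complex.norm_real, Complex.norm_real,
    Real.norm_of_nonneg (Real.sqrt_nonneg _), Real.norm_of_nonneg (Real.exp_pos _).le]
  have h2 : Real.exp (-τ ^ 2 / 2) ≤ 1 := by
    apply Real.exp_le_one_iff.mpr
    nlinarith [sq_nonneg τ]
  exact mul_le_of_le_one_right (Real.sqrt_nonneg _) h2

private theorem PMS_M_cont (τ : ℝ) : Continuous (PMS_M τ) := by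
  unfold PMS_M
  fun_prop

private theorem PMS_M_int (L τ : ℝ) :
    Integrable (fun w : ℝ => PMS_M τ w * (Real.exp (-(w - L) ^ 2 / 6) : ℝ)) := by
  refine Integrable.mono' ((PMS_gauss_int L).const_mul (Real.sqrt (2 * Real.pi))) ?_
    (Filter.Eventually.of_forall fun w => ?_)
  · refine Continuous.aestronglyMeasurable ?_
    exact (PMS_M_cont τ).mul (by fun_prop)
  · rw [norm_mul, Complex.norm_real, Real.norm_of_nonneg (Real.exp_pos _).le]
    exact mul_le_mul_of_nonneg_right (PMS_M_norm τ w) (Real.exp_pos _).le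

private theorem PMS_main_eq (L τ : ℝ) : (Real.sqrt (3 * Real.pi / 2) : ℂ) * mainT L τ =
    ∫ w : ℝ, PMS_M τ w * (Real.exp (-(w - L) ^ 2 / 6) : ℝ) := by
  have h0 : ∀ w : ℝ, PMS_M τ w * (Real.exp (-(w - L) ^ 2 / 6) : ℝ) =
      (Real.sqrt (2 * Real.pi) * Real.exp (-τ ^ 2 / 2) * Complex.exp (-(τ * L * Complex.I))) *
        (fun u : ℝ => Complex.exp (Complex.I * ((-τ : ℝ) : ℂ) * u) *
          Complex.exp (-((1 / 6 : ℝ) : ℂ) * u ^ 2)) (w - L) := by
    intro w
    unfold PMS_M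
    simp only []
    have e1 : Complex.exp (-(τ * w * Complex.I)) = Complex.exp (-(τ * L * Complex.I)) *
        Complex.exp (Complex.I * ((-τ : ℝ) : ℂ) * ((w - L : ℝ) : ℂ)) := by
      rw [← Complex.exp_add]
      congr 1
      push_cast
      ring
    have e2 : ((Real.exp (-(w - L) ^ 2 / 6) : ℝ) : ℂ) =
        Complex.exp (-((1 / 6 : ℝ) : ℂ) * ((w - L : ℝ) : ℂ) ^ 2) := by
      rw [Complex.ofReal_exp]
      congr 1
      push_cast
      ring
    rw [e1, e2]
    ring
  simp only [h0]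
  rw [integral_const_mul, integral_sub_right_eq_self (μ := (volume : Measure ℝ))
    (fun u : ℝ => Complex.exp (Complex.I * ((-τ : ℝ) : ℂ) * u) *
          Complex.exp (-((1 / 6 : ℝ) : ℂ) * u ^ 2)) L,
    fourierIntegral_gaussian (by norm_num : 0 < (((1 / 6 : ℝ) : ℂ)).re)]
  have e3 : ((Real.pi : ℂ) / ((1 / 6 : ℝ) : ℂ)) ^ (1 / 2 : ℂ) = (Real.sqrt (6 * Real.pi) : ℂ) := by
    have : ((Real.pi : ℂ) / ((1 / 6 : ℝ) : ℂ)) = ((6 * Real.pi : ℝ) : ℂ) := by
      push_cast
      ring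
    rw [this, Real.sqrt_eq_rpow, Complex.ofReal_cpow (by positivity)]
    norm_num
  have e4 : Complex.exp (-((-τ : ℝ) : ℂ) ^ 2 / (4 * ((1 / 6 : ℝ) : ℂ))) =
      ((Real.exp (-(3 / 2) * τ ^ 2) : ℝ) : ℂ) := by
    rw [Complex.ofReal_exp]
    congr 1
    push_cast
    ring
  rw [e3, e4]
  unfold mainT
  have e5 : Real.sqrt (3 * Real.pi / 2) * Real.sqrt (8 * Real.pi) =
      Real.sqrt (2 * Real.pi) * Real.sqrt (6 * Real.pi) := by
    rw [← Real.sqrt_mul (by positivity), ← Real.sqrt_mul (by positivity)]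
    congr 1
    ring
  have e6 : Real.exp (-2 * τ ^ 2) = Real.exp (-τ ^ 2 / 2) * Real.exp (-(3 / 2) * τ ^ 2) := by
    rw [← Real.exp_add]
    congr 1
    ring
  have e5' : (Real.sqrt (3 * Real.pi / 2) : ℂ) * (Real.sqrt (8 * Real.pi) : ℂ) =
      (Real.sqrt (2 * Real.pi) : ℂ) * (Real.sqrt (6 * Real.pi) : ℂ) := by
    exact_mod_cast e5
  rw [e6]
  push_cast
  linear_combination (Complex.exp (-(τ : ℂ) ^ 2 / 2) * Complex.exp (-(3 / 2) * (τ : ℂ) ^ 2) *
    Complex.exp (-((τ : ℂ) * L * Complex.I))) * e5'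

private theorem PMS_gs_bound : ∃ C : ℝ, 1 ≤ C ∧ ∀ w τ : ℝ,
    ‖VKZ.gs (fun n => ArithmeticFunction.vonMangoldt n) w τ‖ ≤ C * (1 + |w|) ^ 6 := by
  obtain ⟨C, hC, h⟩ := PMS_sum
  refine ⟨C, hC, fun w τ => ?_⟩
  obtain ⟨h1, h2⟩ := h w
  refine le_trans ?_ h2
  unfold VKZ.gs
  refine tsum_of_norm_bounded h1.hasSum fun n => ?_
  rw [norm_mul, Complex.norm_real, Real.norm_of_nonneg (Real.exp_pos _).le]
  exact mul_le_mul (PMS_term n τ) (PMS_exp_mono (by norm_num) (by norm_num))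
    (Real.exp_pos _).le (PMS_a_nonneg n)

/-- the integrable majorant -/
private noncomputable def PMS_G (u : ℝ) : ℝ := (1 + |u|) ^ 6 * Real.exp (-u ^ 2 / 12)

private theorem PMS_G_nonneg (u : ℝ) : 0 ≤ PMS_G u := by
  unfold PMS_G
  positivity

private theorem PMS_G_int : Integrable PMS_G := by
  have h1 := integrable_exp_neg_mul_sq (b := 1 / 24) (by norm_num)
  have hb : ∃ K : ℝ, ∀ u : ℝ, (1 + |u|) ^ 6 * Real.exp (-u ^ 2 / 24) ≤ K := by
    refine ⟨Real.exp 216, fun u => ?_⟩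
    have h2 : (1 + |u|) ≤ Real.exp |u| := by
      have := Real.add_one_le_exp |u|
      linarith
    have h3 : (1 + |u|) ^ 6 ≤ Real.exp (6 * |u|) := by
      calc (1 + |u|) ^ 6 ≤ (Real.exp |u|) ^ 6 := pow_le_pow_left₀ (by positivity) h2 6
        _ = Real.exp (6 * |u|) := by
          rw [← Real.exp_nat_mul]
          norm_num
    calc (1 + |u|) ^ 6 * Real.exp (-u ^ 2 / 24)
        ≤ Real.exp (6 * |u|) * Real.exp (-u ^ 2 / 24) :=
          mul_le_mul_of_nonneg_right h3 (Real.exp_pos _).le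
      _ = Real.exp (6 * |u| + -u ^ 2 / 24) := (Real.exp_add _ _).symm
      _ ≤ Real.exp 216 := by
          apply Real.exp_le_exp.mpr
          rw [← sq_abs u]
          nlinarith [sq_nonneg (|u| - 72)]
  obtain ⟨K, hK⟩ := hb
  refine Integrable.mono' (h1.const_mul K) ?_ (Filter.Eventually.of_forall fun u => ?_)
  · refine Continuous.aestronglyMeasurable ?_
    unfold PMS_G
    fun_prop
  · rw [Real.norm_of_nonneg (PMS_G_nonneg u)]
    have e : PMS_G u = ((1 + |u|) ^ 6 * Real.exp (-u ^ 2 / 24)) * Real.exp (-(1 / 24) * u ^ 2) := by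
      unfold PMS_G
      rw [mul_assoc, ← Real.exp_add]
      congr 2
      ring
    rw [e]
    exact mul_le_mul_of_nonneg_right (hK u) (Real.exp_pos _).le

private theorem PMS_shift (L w : ℝ) : (1 + |w|) ^ 6 ≤ (1 + |L|) ^ 6 * (1 + |w - L|) ^ 6 := by
  rw [← mul_pow]
  refine pow_le_pow_left₀ (by positivity) ?_ 6
  have h1 : |w| ≤ |L| + |w - L| := by
    calc |w| = |L + (w - L)| := by congr 1; ring
      _ ≤ _ := abs_add_le _ _
  nlinarith [mul_nonneg (abs_nonneg L) (abs_nonneg (w - L))]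

private theorem PMS_point_aux {A : ℝ} (hA : 0 ≤ A) : ∃ L0 : ℝ, 1 ≤ L0 ∧ ∀ L τ : ℝ, L0 ≤ L →
    |τ| ≤ Real.exp L → ‖P L τ - mainT L τ‖ ≤ L ^ (-A) := by
  obtain ⟨C, hC, hgs⟩ := PMS_gs_bound
  obtain ⟨w0, hw0, hpg⟩ := VKZ.prime_gauss 2 (A + 1)
  set s0 := Real.sqrt (3 * Real.pi / 2) with hs0
  have hs0p : 0 < s0 := Real.sqrt_pos.mpr (by positivity)
  set s1 := Real.sqrt (2 * Real.pi) with hs1
  have hs1p : 0 ≤ s1 := Real.sqrt_nonneg _
  set I1 := ∫ u : ℝ, PMS_G u with hI1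
  have hI1p : 0 ≤ I1 := integral_nonneg PMS_G_nonneg
  -- the limits
  have hlim1 : Filter.Tendsto (fun L : ℝ => I1 * 2 ^ (A + 1) * L⁻¹) Filter.atTop (nhds 0) := by
    have := (tendsto_inv_atTop_zero (𝕜 := ℝ)).const_mul (I1 * 2 ^ (A + 1))
    rwa [mul_zero] at this
  have hlim2 : Filter.Tendsto (fun L : ℝ => (I1 * (C + s1) * 2 ^ (6 : ℕ)) *
      (L ^ (6 + A) * Real.exp (-(1 / 48) * L))) Filter.atTop (nhds 0) := by
    have := (tendsto_rpow_mul_exp_neg_mul_atTop_nhds_zero (6 + A) (1 / 48)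
      (by norm_num)).const_mul (I1 * (C + s1) * 2 ^ (6 : ℕ))
    rwa [mul_zero] at this
  obtain ⟨L1, hL1⟩ := Filter.eventually_atTop.1
    (hlim1.eventually_le_const (show (0 : ℝ) < s0 / 2 by positivity))
  obtain ⟨L2, hL2⟩ := Filter.eventually_atTop.1
    (hlim2.eventually_le_const (show (0 : ℝ) < s0 / 2 by positivity))
  refine ⟨max (max (2 * w0) 2) (max L1 L2), le_trans (by norm_num : (1 : ℝ) ≤ 2)
    ((le_max_right _ _).trans (le_max_left _ _)), fun L τ hL hτ => ?_⟩
  have hLw : 2 * w0 ≤ L := ((le_max_left _ _).trans (le_max_left _ _)).trans hL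
  have hL2' : 2 ≤ L := ((le_max_right _ _).trans (le_max_left _ _)).trans hL
  have hLL1 := hL1 L (((le_max_left _ _).trans (le_max_right _ _)).trans hL)
  have hLL2 := hL2 L (((le_max_right _ _).trans (le_max_right _ _)).trans hL)
  have hLp : 0 < L := by linarith
  -- pointwise bound
  set D : ℝ := (L / 2) ^ (-(A + 1)) + Real.exp (-L ^ 2 / 48) * ((C + s1) * (1 + L) ^ 6) with hD
  have hDp : 0 ≤ D := by positivity
  have hpt : ∀ w : ℝ, ‖(VKZ.gs (fun n => ArithmeticFunction.vonMangoldt n) w τ - PMS_M τ w) *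
      (Real.exp (-(w - L) ^ 2 / 6) : ℝ)‖ ≤ D * PMS_G (w - L) := by
    intro w
    rw [norm_mul, Complex.norm_real, Real.norm_of_nonneg (Real.exp_pos _).le]
    have hG1 : Real.exp (-(w - L) ^ 2 / 12) ≤ PMS_G (w - L) := by
      unfold PMS_G
      refine le_mul_of_one_le_left (Real.exp_pos _).le (one_le_pow₀ ?_)
      have := abs_nonneg (w - L)
      linarith
    rcases le_total (L / 2) w with hw | hw
    · have hww : w0 ≤ w := by linarith
      have hτw : |τ| ≤ Real.exp (2 * w) := hτ.trans (Real.exp_le_exp.mpr (by linarith))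
      have h1 := hpg w τ hww hτw
      have h2 : w ^ (-(A + 1)) ≤ (L / 2) ^ (-(A + 1)) :=
        Real.rpow_le_rpow_of_nonpos (by positivity) hw (by linarith)
      have h3 : ‖VKZ.gs (fun n => ArithmeticFunction.vonMangoldt n) w τ - PMS_M τ w‖ ≤ D := by
        refine (h1.trans h2).trans ?_
        rw [hD]
        have : 0 ≤ Real.exp (-L ^ 2 / 48) * ((C + s1) * (1 + L) ^ 6) := by positivity
        linarith
      refine mul_le_mul h3 (le_trans (PMS_exp_mono (by norm_num) (by norm_num)) hG1)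
        (Real.exp_pos _).le hDp
    · have h1 : ‖VKZ.gs (fun n => ArithmeticFunction.vonMangoldt n) w τ - PMS_M τ w‖ ≤
          (C + s1) * ((1 + L) ^ 6 * (1 + |w - L|) ^ 6) := by
        refine (norm_sub_le _ _).trans ?_
        have h2 := hgs w τ
        have h3 := PMS_M_norm τ w
        have h4 := PMS_shift L w
        rw [abs_of_pos hLp] at h4
        have h5 : (1 : ℝ) ≤ (1 + L) ^ 6 * (1 + |w - L|) ^ 6 := by
          have h6 : (1 : ℝ) ≤ (1 + L) ^ 6 := one_le_pow₀ (by linarith)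
          have h7 : (1 : ℝ) ≤ (1 + |w - L|) ^ 6 :=
            one_le_pow₀ (by have := abs_nonneg (w - L); linarith)
          nlinarith
        have h8 : C * (1 + |w|) ^ 6 ≤ C * ((1 + L) ^ 6 * (1 + |w - L|) ^ 6) :=
          mul_le_mul_of_nonneg_left h4 (by linarith)
        have h9 : s1 ≤ s1 * ((1 + L) ^ 6 * (1 + |w - L|) ^ 6) :=
          le_mul_of_one_le_right hs1p h5
        rw [add_mul]
        exact add_le_add (h2.trans h8) (h3.trans h9)
      have h2 : Real.exp (-(w - L) ^ 2 / 6) ≤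
          Real.exp (-L ^ 2 / 48) * Real.exp (-(w - L) ^ 2 / 12) := by
        rw [← Real.exp_add]
        apply Real.exp_le_exp.mpr
        nlinarith
      calc ‖VKZ.gs (fun n => ArithmeticFunction.vonMangoldt n) w τ - PMS_M τ w‖ *
            Real.exp (-(w - L) ^ 2 / 6)
          ≤ ((C + s1) * ((1 + L) ^ 6 * (1 + |w - L|) ^ 6)) *
            (Real.exp (-L ^ 2 / 48) * Real.exp (-(w - L) ^ 2 / 12)) :=
            mul_le_mul h1 h2 (Real.exp_pos _).le (by positivity)
        _ = (Real.exp (-L ^ 2 / 48) * ((C + s1) * (1 + L) ^ 6)) * PMS_G (w - L) := by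
            unfold PMS_G
            ring
        _ ≤ D * PMS_G (w - L) := by
            refine mul_le_mul_of_nonneg_right ?_ (PMS_G_nonneg _)
            rw [hD]
            have : 0 ≤ (L / 2) ^ (-(A + 1)) := by positivity
            linarith
  have hGint : Integrable (fun w : ℝ => D * PMS_G (w - L)) :=
    (PMS_G_int.comp_sub_right L).const_mul D
  have hgsint : Integrable (fun w : ℝ =>
      VKZ.gs (fun n => ArithmeticFunction.vonMangoldt n) w τ *
        (Real.exp (-(w - L) ^ 2 / 6) : ℝ)) := by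
    refine Integrable.mono' ((PMS_G_int.comp_sub_right L).const_mul (C * (1 + |L|) ^ 6)) ?_
      (Filter.Eventually.of_forall fun w => ?_)
    · have := PMS_F_cont L τ
      simp only [PMS_F_tsum] at this
      exact this.aestronglyMeasurable
    · rw [norm_mul, Complex.norm_real, Real.norm_of_nonneg (Real.exp_pos _).le]
      have h4 := PMS_shift L w
      calc ‖VKZ.gs (fun n => ArithmeticFunction.vonMangoldt n) w τ‖ *
            Real.exp (-(w - L) ^ 2 / 6)
          ≤ (C * ((1 + |L|) ^ 6 * (1 + |w - L|) ^ 6)) * Real.exp (-(w - L) ^ 2 / 12) := by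
            refine mul_le_mul ((hgs w τ).trans (mul_le_mul_of_nonneg_left h4 (by linarith)))
              (PMS_exp_mono (by norm_num) (by norm_num)) (Real.exp_pos _).le (by positivity)
        _ = C * (1 + |L|) ^ 6 * PMS_G (w - L) := by
            unfold PMS_G
            ring
  have hdiff : (s0 : ℂ) * (P L τ - mainT L τ) = ∫ w : ℝ,
      (VKZ.gs (fun n => ArithmeticFunction.vonMangoldt n) w τ - PMS_M τ w) *
        (Real.exp (-(w - L) ^ 2 / 6) : ℝ) := by
    rw [mul_sub, PMS_P_eq, PMS_main_eq, ← integral_sub hgsint (PMS_M_int L τ)]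
    refine integral_congr_ae (Filter.Eventually.of_forall fun w => ?_)
    simp only []
    ring
  have hbound : s0 * ‖P L τ - mainT L τ‖ ≤ D * I1 := by
    have h1 := norm_integral_le_of_norm_le hGint (Filter.Eventually.of_forall hpt)
    rw [← hdiff, norm_mul, Complex.norm_real, Real.norm_of_nonneg hs0p.le, integral_const_mul,
      integral_sub_right_eq_self (μ := (volume : Measure ℝ)) PMS_G L] at h1
    exact h1
  -- conclusion
  have hLA : 0 < L ^ (-A) := Real.rpow_pos_of_pos hLp _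
  have e1 : (L / 2) ^ (-(A + 1)) = 2 ^ (A + 1) * L⁻¹ * L ^ (-A) := by
    rw [Real.div_rpow hLp.le (by norm_num), Real.rpow_neg (by norm_num : (0 : ℝ) ≤ 2),
      neg_add, Real.rpow_add hLp, Real.rpow_neg_one]
    field_simp
  have e2 : Real.exp (-L ^ 2 / 48) * ((C + s1) * (1 + L) ^ 6) ≤
      (C + s1) * 2 ^ (6 : ℕ) * (L ^ (6 + A) * Real.exp (-(1 / 48) * L)) * L ^ (-A) := by
    have h1 : Real.exp (-L ^ 2 / 48) ≤ Real.exp (-(1 / 48) * L) := by
      apply Real.exp_le_exp.mpr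
      nlinarith
    have h2 : (1 + L) ^ 6 ≤ 2 ^ (6 : ℕ) * L ^ 6 := by
      rw [← mul_pow]
      exact pow_le_pow_left₀ (by positivity) (by linarith) 6
    have h3 : L ^ (6 + A) * L ^ (-A) = L ^ 6 := by
      rw [← Real.rpow_add hLp]
      have : (6 : ℝ) + A + -A = (6 : ℕ) := by
        push_cast
        ring
      rw [this, Real.rpow_natCast]
    calc Real.exp (-L ^ 2 / 48) * ((C + s1) * (1 + L) ^ 6)
        ≤ Real.exp (-(1 / 48) * L) * ((C + s1) * (2 ^ (6 : ℕ) * L ^ 6)) :=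
          mul_le_mul h1 (mul_le_mul_of_nonneg_left h2 (by positivity)) (by positivity)
            (Real.exp_pos _).le
      _ = (C + s1) * 2 ^ (6 : ℕ) * (L ^ (6 + A) * Real.exp (-(1 / 48) * L)) * L ^ (-A) := by
          rw [← h3]
          ring
  have h7 : D * I1 ≤ s0 * L ^ (-A) := by
    calc D * I1 ≤ (2 ^ (A + 1) * L⁻¹ * L ^ (-A) +
          (C + s1) * 2 ^ (6 : ℕ) * (L ^ (6 + A) * Real.exp (-(1 / 48) * L)) * L ^ (-A)) * I1 := by
          refine mul_le_mul_of_nonneg_right ?_ hI1p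
          rw [hD, e1]
          linarith
      _ = (I1 * 2 ^ (A + 1) * L⁻¹ + (I1 * (C + s1) * 2 ^ (6 : ℕ)) *
          (L ^ (6 + A) * Real.exp (-(1 / 48) * L))) * L ^ (-A) := by ring
      _ ≤ (s0 / 2 + s0 / 2) * L ^ (-A) :=
          mul_le_mul_of_nonneg_right (add_le_add hLL1 hLL2) hLA.le
      _ = s0 * L ^ (-A) := by ring
  exact le_of_mul_le_mul_left (hbound.trans h7) hs0p

theorem P_point (A : ℝ) : ∃ L0 : ℝ, 1 ≤ L0 ∧ ∀ L τ : ℝ, L0 ≤ L → |τ| ≤ Real.exp L →
    ‖P L τ - mainT L τ‖ ≤ L ^ (-A) := by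
  obtain ⟨L0, h1, h2⟩ := PMS_point_aux (le_max_right A 0)
  refine ⟨L0, h1, fun L τ hL hτ => (h2 L τ hL hτ).trans ?_⟩
  refine Real.rpow_le_rpow_of_exponent_le (h1.trans hL) ?_
  have := le_max_left A 0
  linarith

private theorem PMS_main_norm (L τ : ℝ) : ‖mainT L τ‖ ≤ 6 * Real.exp (-2 * τ ^ 2) := by
  unfold mainT
  have h1 : ‖Complex.exp (-(τ * L * Complex.I))‖ = 1 := by
    rw [Complex.norm_exp]
    simp
  rw [norm_mul, h1, mul_one, norm_mul, Complex.norm_real, Complex.norm_real,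
    Real.norm_of_nonneg (Real.sqrt_nonneg _), Real.norm_of_nonneg (Real.exp_pos _).le]
  refine mul_le_mul_of_nonneg_right ?_ (Real.exp_pos _).le
  rw [Real.sqrt_le_left (by norm_num)]
  have := Real.pi_lt_d2
  linarith

private theorem PMS_main_cont (L : ℝ) : Continuous (mainT L) := by
  unfold mainT
  fun_prop

private theorem PMS_T4_meas (L U : ℝ) : StronglyMeasurable (fun τ : ℝ => T4 L U τ) := by
  simp only [T4_eq]
  obtain ⟨h1, h2⟩ := AsBs_cont U
  refine StronglyMeasurable.const_mul ?_ _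
  have g1 : Continuous (fun q : ℝ × ℝ => (q.2, q.1)) := continuous_snd.prodMk continuous_fst
  have g2 : Continuous (fun q : ℝ × ℝ => (L - q.2, q.1)) :=
    (continuous_const.sub continuous_snd).prodMk continuous_fst
  have k1 := Continuous.comp (f := fun q : ℝ × ℝ => (q.2, q.1))
    (g := fun q : ℝ × ℝ => As U q.1 q.2) h1 g1
  have k2 := Continuous.comp (f := fun q : ℝ × ℝ => (L - q.2, q.1))
    (g := fun q : ℝ × ℝ => Bs U q.1 q.2) h2 g2
  have hc : Continuous (fun q : ℝ × ℝ => As U q.2 q.1 * Bs U (L - q.2) q.1) := k1.mul k2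
  exact hc.stronglyMeasurable.integral_prod_right (f := fun τ c => As U c τ * Bs U (L - c) τ)

theorem P_mean_sq (A : ℝ) : ∃ L0 : ℝ, 1 ≤ L0 ∧ ∀ L : ℝ, L0 ≤ L →
    ∫ τ in Set.Icc (-Real.exp (L / 2)) (Real.exp (L / 2)), ‖P L τ - mainT L τ‖ ^ 2 ≤ L ^ (-A) := by
  obtain ⟨L1, hL1, H1⟩ := P_point ((A + 2) / 2)
  obtain ⟨L2, hL2, H2⟩ := typeI
  obtain ⟨L3, hL3, H3⟩ := T4_ms (A + 1)
  have hlim : Filter.Tendsto (fun L : ℝ => 222 * (L ^ A * Real.exp (-(1 / 25) * L))) Filter.atTop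
      (nhds 0) := by
    have := (tendsto_rpow_mul_exp_neg_mul_atTop_nhds_zero A (1 / 25)
      (by norm_num)).const_mul (222 : ℝ)
    rwa [mul_zero] at this
  obtain ⟨L4, hL4⟩ := Filter.eventually_atTop.1
    (hlim.eventually_le_const (show (0 : ℝ) < 1 / 4 by norm_num))
  refine ⟨max (max L1 L2) (max (max L3 L4) 12), le_trans (by norm_num : (1 : ℝ) ≤ 12)
    ((le_max_right _ _).trans (le_max_right _ _)), fun L hL => ?_⟩
  have hLL1 : L1 ≤ L := ((le_max_left _ _).trans (le_max_left _ _)).trans hL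
  have hLL2 : L2 ≤ L := ((le_max_right _ _).trans (le_max_left _ _)).trans hL
  have hLL3 : L3 ≤ L :=
    ((le_max_left _ _).trans ((le_max_left _ _).trans (le_max_right _ _))).trans hL
  have hLL4 := hL4 L
    (((le_max_right _ _).trans ((le_max_left _ _).trans (le_max_right _ _))).trans hL)
  have hL12 : 12 ≤ L := ((le_max_right _ _).trans (le_max_right _ _)).trans hL
  have hLp : 0 < L := by linarith
  have hLA : 0 < L ^ (-A) := Real.rpow_pos_of_pos hLp _
  set T := Real.exp (L / 2) with hT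
  have hTp : 0 < T := Real.exp_pos _
  set f : ℝ → ℝ := fun τ => ‖P L τ - mainT L τ‖ ^ 2 with hf
  have hfc : Continuous f := (((P_cont L).sub (PMS_main_cont L)).norm).pow 2
  have hf0 : ∀ τ, 0 ≤ f τ := fun τ => by
    rw [hf]
    positivity
  set E : Set ℝ := {τ : ℝ | L ≤ |τ| ∧ |τ| ≤ T} with hE
  have hEm : MeasurableSet E :=
    (measurableSet_le measurable_const measurable_abs).inter
      (measurableSet_le measurable_abs measurable_const)
  have hEsub : E ⊆ Set.Icc (-T) T := fun τ hτ => abs_le.mp hτ.2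
  have hfI : IntegrableOn f (Set.Icc (-T) T) := hfc.continuousOn.integrableOn_Icc
  have hsplit := integral_inter_add_sdiff (μ := (volume : Measure ℝ)) (f := f)
    (measurableSet_Icc (a := -L) (b := L)) hfI
  show ∫ τ in Set.Icc (-T) T, f τ ≤ L ^ (-A)
  rw [← hsplit]
  -- the small `τ`
  have hsmall : ∫ τ in Set.Icc (-T) T ∩ Set.Icc (-L) L, f τ ≤ L ^ (-A) / 4 := by
    have h1 : ∫ τ in Set.Icc (-T) T ∩ Set.Icc (-L) L, f τ ≤ ∫ τ in Set.Icc (-L) L, f τ :=
      setIntegral_mono_set hfc.continuousOn.integrableOn_Icc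
        (Filter.Eventually.of_forall fun τ => hf0 τ)
        (Filter.Eventually.of_forall fun τ hτ => hτ.2)
    have h2 : ∫ τ in Set.Icc (-L) L, f τ ≤ ∫ τ in Set.Icc (-L) L, L ^ (-(A + 2)) := by
      refine setIntegral_mono_on hfc.continuousOn.integrableOn_Icc
        (continuous_const.continuousOn.integrableOn_Icc) measurableSet_Icc fun τ hτ => ?_
      have h3 : |τ| ≤ Real.exp L := by
        have := Real.add_one_le_exp L
        have := abs_le.mpr hτ
        linarith
      have h4 := H1 L τ hLL1 h3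
      have h4' : ‖P L τ - mainT L τ‖ ^ 2 ≤ (L ^ (-((A + 2) / 2))) ^ 2 :=
        pow_le_pow_left₀ (norm_nonneg _) h4 2
      have e0 : (L ^ (-((A + 2) / 2))) ^ 2 = L ^ (-(A + 2)) := by
        rw [← Real.rpow_natCast, ← Real.rpow_mul hLp.le]
        congr 1
        push_cast
        ring
      rw [e0] at h4'
      exact h4'
    refine h1.trans (h2.trans ?_)
    rw [setIntegral_const, smul_eq_mul, Real.volume_real_Icc_of_le (by linarith)]
    have e : L ^ (-(A + 2)) = L ^ (-A) * (L⁻¹ * L⁻¹) := by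
      rw [neg_add, Real.rpow_add hLp, Real.rpow_neg hLp.le 2]
      congr 1
      rw [show (2 : ℝ) = ((2 : ℕ) : ℝ) by norm_num, Real.rpow_natCast]
      field_simp
    rw [e]
    have e2 : (L - -L) * (L ^ (-A) * (L⁻¹ * L⁻¹)) = L ^ (-A) * (2 * L⁻¹) := by
      field_simp
      ring
    rw [e2]
    have h5 : 2 * L⁻¹ ≤ 1 / 4 := by
      rw [← div_eq_mul_inv, div_le_div_iff₀ hLp (by norm_num)]
      linarith
    calc L ^ (-A) * (2 * L⁻¹) ≤ L ^ (-A) * (1 / 4) := mul_le_mul_of_nonneg_left h5 hLA.le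
      _ = L ^ (-A) / 4 := by ring
  -- the large `τ`
  have hlarge : ∫ τ in Set.Icc (-T) T \ Set.Icc (-L) L, f τ ≤ 3 / 4 * L ^ (-A) := by
    have h1 : ∫ τ in Set.Icc (-T) T \ Set.Icc (-L) L, f τ ≤ ∫ τ in E, f τ := by
      refine setIntegral_mono_set (hfI.mono_set hEsub)
        (Filter.Eventually.of_forall fun τ => hf0 τ)
        (Filter.Eventually.of_forall fun τ hτ => ?_)
      refine ⟨?_, abs_le.mpr hτ.1⟩
      by_contra h
      push Not at h
      exact hτ.2 (abs_le.mp h.le)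
    have hT4b : ∀ τ ∈ E, ‖P L τ - T4 L (L / 20) τ‖ ≤ |τ| * Real.exp (-(77 / 100) * L) :=
      fun τ hτ => H2 L τ hLL2 hτ.1 hτ.2
    obtain ⟨B, hB⟩ := (isCompact_Icc (a := -T) (b := T)).exists_bound_of_continuousOn
      (P_cont L).continuousOn
    have hvolE : volume E < ⊤ := (measure_mono hEsub).trans_lt measure_Icc_lt_top
    have hT4int : IntegrableOn (fun τ => ‖T4 L (L / 20) τ‖ ^ 2) E := by
      refine Measure.integrableOn_of_bounded hvolE.ne
        (((PMS_T4_meas L (L / 20)).norm.pow 2).aestronglyMeasurable)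
        (M := (B + T) ^ 2) ?_
      refine (ae_restrict_iff' hEm).mpr (Filter.Eventually.of_forall fun τ hτ => ?_)
      rw [Real.norm_of_nonneg (by positivity)]
      refine pow_le_pow_left₀ (norm_nonneg _) ?_ 2
      have h2 := hT4b τ hτ
      have h3 := hB τ (hEsub hτ)
      have h4 : |τ| * Real.exp (-(77 / 100) * L) ≤ T := by
        have : Real.exp (-(77 / 100) * L) ≤ 1 := Real.exp_le_one_iff.mpr (by linarith)
        calc |τ| * Real.exp (-(77 / 100) * L) ≤ |τ| * 1 :=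
              mul_le_mul_of_nonneg_left this (abs_nonneg _)
          _ ≤ T := by
              rw [mul_one]
              exact hτ.2
      calc ‖T4 L (L / 20) τ‖ = ‖P L τ - (P L τ - T4 L (L / 20) τ)‖ := by
            congr 1
            ring
        _ ≤ ‖P L τ‖ + ‖P L τ - T4 L (L / 20) τ‖ := norm_sub_le _ _
        _ ≤ B + T := add_le_add h3 (h2.trans h4)
    have hconst : IntegrableOn (fun _ : ℝ => 3 * (36 * Real.exp (-L) +
        Real.exp (L - 154 / 100 * L))) E := integrableOn_const hvolE.ne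
    have h2 : ∫ τ in E, f τ ≤ ∫ τ in E, (3 * (36 * Real.exp (-L) +
        Real.exp (L - 154 / 100 * L)) + 3 * ‖T4 L (L / 20) τ‖ ^ 2) := by
      refine setIntegral_mono_on (hfI.mono_set hEsub) (hconst.add (hT4int.const_mul 3)) hEm
        fun τ hτ => ?_
      have a1 := PMS_main_norm L τ
      have a2 := hT4b τ hτ
      have a3 : ‖mainT L τ‖ ^ 2 ≤ 36 * Real.exp (-L) := by
        have b1 : ‖mainT L τ‖ ≤ 6 * Real.exp (-(L / 2)) := by
          refine a1.trans (mul_le_mul_of_nonneg_left ?_ (by norm_num))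
          apply Real.exp_le_exp.mpr
          have : L ^ 2 ≤ τ ^ 2 := by
            rw [← sq_abs τ]
            exact pow_le_pow_left₀ hLp.le hτ.1 2
          nlinarith
        calc ‖mainT L τ‖ ^ 2 ≤ (6 * Real.exp (-(L / 2))) ^ 2 :=
              pow_le_pow_left₀ (norm_nonneg _) b1 2
          _ = 36 * Real.exp (-L) := by
              rw [mul_pow, ← Real.exp_nat_mul]
              norm_num
              ring_nf
      have a4 : ‖P L τ - T4 L (L / 20) τ‖ ^ 2 ≤ Real.exp (L - 154 / 100 * L) := by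
        calc ‖P L τ - T4 L (L / 20) τ‖ ^ 2 ≤ (T * Real.exp (-(77 / 100) * L)) ^ 2 := by
              refine pow_le_pow_left₀ (norm_nonneg _) (a2.trans ?_) 2
              exact mul_le_mul_of_nonneg_right hτ.2 (Real.exp_pos _).le
          _ = Real.exp (L - 154 / 100 * L) := by
              rw [hT, ← Real.exp_add, ← Real.exp_nat_mul]
              congr 1
              push_cast
              ring
      have a5 : ‖P L τ - mainT L τ‖ ≤ ‖P L τ - T4 L (L / 20) τ‖ + ‖T4 L (L / 20) τ‖ +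
          ‖mainT L τ‖ := by
        calc ‖P L τ - mainT L τ‖ = ‖(P L τ - T4 L (L / 20) τ) + T4 L (L / 20) τ - mainT L τ‖ := by
              congr 1
              ring
          _ ≤ ‖(P L τ - T4 L (L / 20) τ) + T4 L (L / 20) τ‖ + ‖mainT L τ‖ := norm_sub_le _ _
          _ ≤ _ := by
              have := norm_add_le (P L τ - T4 L (L / 20) τ) (T4 L (L / 20) τ)
              linarith
      have a6 : ‖P L τ - mainT L τ‖ ^ 2 ≤ (‖P L τ - T4 L (L / 20) τ‖ + ‖T4 L (L / 20) τ‖ +
          ‖mainT L τ‖) ^ 2 := pow_le_pow_left₀ (norm_nonneg _) a5 2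
      show ‖P L τ - mainT L τ‖ ^ 2 ≤ _
      nlinarith [sq_nonneg (‖P L τ - T4 L (L / 20) τ‖ - ‖T4 L (L / 20) τ‖),
        sq_nonneg (‖T4 L (L / 20) τ‖ - ‖mainT L τ‖),
        sq_nonneg (‖P L τ - T4 L (L / 20) τ‖ - ‖mainT L τ‖)]
    have h3 : ∫ τ in E, (3 * (36 * Real.exp (-L) + Real.exp (L - 154 / 100 * L)) +
        3 * ‖T4 L (L / 20) τ‖ ^ 2) = (volume.real E) * (3 * (36 * Real.exp (-L) +
        Real.exp (L - 154 / 100 * L))) + 3 * ∫ τ in E, ‖T4 L (L / 20) τ‖ ^ 2 := by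
      rw [integral_add hconst (hT4int.const_mul 3), setIntegral_const, smul_eq_mul,
        integral_const_mul]
    have h4 := H3 L hLL3
    have h5 : volume.real E ≤ 2 * T := by
      have h6 := measureReal_mono (μ := (volume : Measure ℝ)) hEsub measure_Icc_lt_top.ne
      rw [Real.volume_real_Icc_of_le (by linarith)] at h6
      linarith
    have h7 : volume.real E * (3 * (36 * Real.exp (-L) + Real.exp (L - 154 / 100 * L))) ≤
        L ^ (-A) / 4 := by
      have b1 : T * Real.exp (-L) ≤ Real.exp (-(1 / 25) * L) := by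
        rw [hT, ← Real.exp_add]
        apply Real.exp_le_exp.mpr
        linarith
      have b2 : T * Real.exp (L - 154 / 100 * L) ≤ Real.exp (-(1 / 25) * L) := by
        rw [hT, ← Real.exp_add]
        apply Real.exp_le_exp.mpr
        linarith
      have b3 : volume.real E * (3 * (36 * Real.exp (-L) + Real.exp (L - 154 / 100 * L))) ≤
          2 * T * (3 * (36 * Real.exp (-L) + Real.exp (L - 154 / 100 * L))) :=
        mul_le_mul_of_nonneg_right h5 (by positivity)
      have b4 : 222 * Real.exp (-(1 / 25) * L) ≤ L ^ (-A) / 4 := by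
        have c1 : L ^ (-A) * (222 * (L ^ A * Real.exp (-(1 / 25) * L))) ≤ L ^ (-A) * (1 / 4) :=
          mul_le_mul_of_nonneg_left hLL4 hLA.le
        have c2 : L ^ (-A) * L ^ A = 1 := by
          rw [← Real.rpow_add hLp]
          simp
        have c3 : L ^ (-A) * (222 * (L ^ A * Real.exp (-(1 / 25) * L))) =
            222 * Real.exp (-(1 / 25) * L) * (L ^ (-A) * L ^ A) := by ring
        rw [c3, c2, mul_one] at c1
        linarith
      linarith
    have h8 : 3 * ∫ τ in E, ‖T4 L (L / 20) τ‖ ^ 2 ≤ L ^ (-A) / 4 := by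
      have b1 : L ^ (-(A + 1)) = L ^ (-A) * L⁻¹ := by
        rw [neg_add, Real.rpow_add hLp, Real.rpow_neg_one]
      rw [b1] at h4
      have b2 : L⁻¹ ≤ 1 / 12 := by
        rw [inv_eq_one_div]
        exact one_div_le_one_div_of_le (by norm_num) hL12
      have b3 : L ^ (-A) * L⁻¹ ≤ L ^ (-A) * (1 / 12) := mul_le_mul_of_nonneg_left b2 hLA.le
      have h4' : ∫ τ in E, ‖T4 L (L / 20) τ‖ ^ 2 ≤ L ^ (-A) * L⁻¹ := h4
      linarith
    rw [h3] at h2
    linarith
  linarith

end ASI
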