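import Pool.Agent.ASI.Div

/-!
# ASI.T4Eq: separation of the variables

PROOF. `∫ exp(-(u-c)²/4) exp(-(v+c)²/4) dc = √(2π) exp(-(u+v)²/8)`, so
`ps L (x + y) = (1/√(2π)) ∫ exp(-(x-c)²/4) exp(-(y-(L-c))²/4) dc`. Sum over `(m, k)` and exchange sum and integral
(absolutely convergent: `∑ Λ(m)/m exp(-(log m - c)²/4) ≤ C (1+|c|)^C` and the same for `d(k)/k`, and the
product decays like `exp(-c²/16)` for `|c| → ∞` since `log m, log k ≥ 0`).
`As_tail`, `Bs_tail`: for `c ≤ 0` and `x ≥ 0`: `(x-c)² ≥ c²/2 + (x-c)²/2`.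
-/

namespace ASI

open MeasureTheory

private noncomputable def T4Eq_gs (e : ℕ → ℝ) (c τ : ℝ) : ℂ :=
  ∑' n : ℕ, ((e n : ℝ) : ℂ) * np n τ * (Real.exp (-(Real.log n - c) ^ 2 / 4) : ℝ)

private noncomputable def T4Eq_W (n : ℕ) : ℝ := (n.divisors.card : ℝ) ^ 2 * (1 + Real.log n) ^ 2 / n

private theorem T4Eq_W_nonneg (n : ℕ) : 0 ≤ T4Eq_W n := by
  unfold T4Eq_W; positivity

private theorem T4Eq_np_norm (n : ℕ) (τ : ℝ) : ‖np n τ‖ = ((n : ℝ))⁻¹ := by
  unfold np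
  rcases Nat.eq_zero_or_pos n with h | h
  · subst h
    have hne : (-(1 + (τ : ℂ) * Complex.I)) ≠ 0 := by
      intro h0
      have := congrArg Complex.re h0
      simp at this
    simp only [Nat.cast_zero, inv_zero]
    rw [Complex.zero_cpow hne, norm_zero]
  · rw [Complex.norm_natCast_cpow_of_pos h]
    have : (-(1 + (τ : ℂ) * Complex.I)).re = -1 := by simp
    rw [this, Real.rpow_neg_one]

private theorem T4Eq_term {e : ℕ → ℝ}
    (he : ∀ n, |e n| ≤ (n.divisors.card : ℝ) ^ 2 * (1 + Real.log n) ^ 2) (n : ℕ) (τ r : ℝ) (hr : 0 ≤ r) :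
    ‖((e n : ℝ) : ℂ) * np n τ * ((r : ℝ) : ℂ)‖ ≤ T4Eq_W n * r := by
  rw [norm_mul, norm_mul, T4Eq_np_norm, Complex.norm_real, Complex.norm_real, Real.norm_eq_abs,
    Real.norm_eq_abs, abs_of_nonneg hr]
  unfold T4Eq_W
  apply mul_le_mul_of_nonneg_right _ hr
  rw [div_eq_mul_inv]
  exact mul_le_mul_of_nonneg_right (he n) (by positivity)

private theorem T4Eq_poly_exp (t : ℝ) (ht : 0 ≤ t) :
    (1 + t) ^ 6 * Real.exp (-3 * t ^ 2 / 16) ≤ 720 * Real.exp 3 * Real.exp (-t ^ 2 / 16) := by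
  have h1 : (1 + t) ^ 6 / (Nat.factorial 6 : ℝ) ≤ Real.exp (1 + t) :=
    Real.pow_div_factorial_le_exp (1 + t) (by linarith) 6
  have h2 : (1 + t) ^ 6 ≤ 720 * Real.exp (1 + t) := by
    have : (Nat.factorial 6 : ℝ) = 720 := by norm_num [Nat.factorial]
    rw [this, div_le_iff₀ (by norm_num)] at h1
    linarith
  calc (1 + t) ^ 6 * Real.exp (-3 * t ^ 2 / 16)
      ≤ 720 * Real.exp (1 + t) * Real.exp (-3 * t ^ 2 / 16) :=
        mul_le_mul_of_nonneg_right h2 (Real.exp_pos _).le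
    _ = 720 * Real.exp (1 + t + -3 * t ^ 2 / 16) := by rw [Real.exp_add (1 + t)]; ring
    _ ≤ 720 * Real.exp (3 + -t ^ 2 / 16) := by
        apply mul_le_mul_of_nonneg_left _ (by norm_num)
        apply Real.exp_le_exp.mpr
        nlinarith [sq_nonneg (t - 4)]
    _ = 720 * Real.exp 3 * Real.exp (-t ^ 2 / 16) := by rw [Real.exp_add]; ring

private theorem T4Eq_gs_bound : ∃ C : ℝ, 1 ≤ C ∧ ∀ e : ℕ → ℝ,
    (∀ n, |e n| ≤ (n.divisors.card : ℝ) ^ 2 * (1 + Real.log n) ^ 2) → ∀ c τ : ℝ,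
    Summable (fun n : ℕ => ‖((e n : ℝ) : ℂ) * np n τ * ((Real.exp (-(Real.log n - c) ^ 2 / 4) : ℝ) : ℂ)‖) ∧
    ‖T4Eq_gs e c τ‖ ≤ C * (1 + |c|) ^ 6 ∧
    (c ≤ 0 → ‖T4Eq_gs e c τ‖ ≤ C * Real.exp (-c ^ 2 / 16)) := by
  obtain ⟨C, hC1, hC⟩ := div_gauss
  have he3 : 1 ≤ Real.exp 3 := Real.one_le_exp (by norm_num)
  refine ⟨C * (720 * Real.exp 3), by nlinarith, ?_⟩
  intro e he c τ
  obtain ⟨hs, hb, -⟩ := hC c
  have hW : ∀ n : ℕ, (n.divisors.card : ℝ) ^ 2 * (1 + Real.log n) ^ 2 / n *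
      Real.exp (-(Real.log n - c) ^ 2 / 16) = T4Eq_W n * Real.exp (-(Real.log n - c) ^ 2 / 16) :=
    fun n => rfl
  simp only [hW] at hs hb
  have hterm : ∀ n : ℕ, ‖((e n : ℝ) : ℂ) * np n τ *
      ((Real.exp (-(Real.log n - c) ^ 2 / 4) : ℝ) : ℂ)‖ ≤
      T4Eq_W n * Real.exp (-(Real.log n - c) ^ 2 / 16) := by
    intro n
    refine (T4Eq_term he n τ _ (Real.exp_pos _).le).trans ?_
    apply mul_le_mul_of_nonneg_left _ (T4Eq_W_nonneg n)
    apply Real.exp_le_exp.mpr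
    nlinarith [sq_nonneg (Real.log n - c)]
  have hsum : Summable (fun n : ℕ => ‖((e n : ℝ) : ℂ) * np n τ *
      ((Real.exp (-(Real.log n - c) ^ 2 / 4) : ℝ) : ℂ)‖) :=
    Summable.of_nonneg_of_le (fun n => norm_nonneg _) hterm hs
  have hpos6 : 0 ≤ (1 + |c|) ^ 6 := by positivity
  refine ⟨hsum, ?_, ?_⟩
  · calc ‖T4Eq_gs e c τ‖ ≤ ∑' n : ℕ, ‖((e n : ℝ) : ℂ) * np n τ *
          ((Real.exp (-(Real.log n - c) ^ 2 / 4) : ℝ) : ℂ)‖ := norm_tsum_le_tsum_norm hsum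
      _ ≤ ∑' n : ℕ, T4Eq_W n * Real.exp (-(Real.log n - c) ^ 2 / 16) :=
          Summable.tsum_le_tsum hterm hsum hs
      _ ≤ C * (1 + |c|) ^ 6 := hb
      _ ≤ C * (720 * Real.exp 3) * (1 + |c|) ^ 6 := by
          apply mul_le_mul_of_nonneg_right _ hpos6
          nlinarith
  · intro hc
    have hterm2 : ∀ n : ℕ, ‖((e n : ℝ) : ℂ) * np n τ *
        ((Real.exp (-(Real.log n - c) ^ 2 / 4) : ℝ) : ℂ)‖ ≤
        (T4Eq_W n * Real.exp (-(Real.log n - c) ^ 2 / 16)) * Real.exp (-3 * c ^ 2 / 16) := by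
      intro n
      refine (T4Eq_term he n τ _ (Real.exp_pos _).le).trans ?_
      rw [mul_assoc, ← Real.exp_add]
      apply mul_le_mul_of_nonneg_left _ (T4Eq_W_nonneg n)
      apply Real.exp_le_exp.mpr
      have hlog : 0 ≤ Real.log (n : ℝ) := Real.log_natCast_nonneg n
      nlinarith [mul_nonneg hlog (neg_nonneg.mpr hc), sq_nonneg (Real.log (n : ℝ))]
    have habs : |c| = -c := abs_of_nonpos hc
    have hpe := T4Eq_poly_exp (-c) (by linarith)
    calc ‖T4Eq_gs e c τ‖ ≤ ∑' n : ℕ, ‖((e n : ℝ) : ℂ) * np n τ *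
          ((Real.exp (-(Real.log n - c) ^ 2 / 4) : ℝ) : ℂ)‖ := norm_tsum_le_tsum_norm hsum
      _ ≤ ∑' n : ℕ, (T4Eq_W n * Real.exp (-(Real.log n - c) ^ 2 / 16)) * Real.exp (-3 * c ^ 2 / 16) :=
          Summable.tsum_le_tsum hterm2 hsum (hs.mul_right _)
      _ = (∑' n : ℕ, T4Eq_W n * Real.exp (-(Real.log n - c) ^ 2 / 16)) * Real.exp (-3 * c ^ 2 / 16) :=
          tsum_mul_right
      _ ≤ (C * (1 + |c|) ^ 6) * Real.exp (-3 * c ^ 2 / 16) :=
          mul_le_mul_of_nonneg_right hb (Real.exp_pos _).le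
      _ = C * ((1 + -c) ^ 6 * Real.exp (-3 * (-c) ^ 2 / 16)) := by rw [habs, neg_sq]; ring
      _ ≤ C * (720 * Real.exp 3 * Real.exp (-(-c) ^ 2 / 16)) :=
          mul_le_mul_of_nonneg_left hpe (by linarith)
      _ = C * (720 * Real.exp 3) * Real.exp (-c ^ 2 / 16) := by rw [neg_sq]; ring

private theorem T4Eq_one_le_card {n : ℕ} (hn : 0 < n) : (1 : ℝ) ≤ (n.divisors.card : ℝ) := by
  have : 1 ≤ n.divisors.card := Finset.card_pos.mpr ⟨1, Nat.one_mem_divisors.mpr hn.ne'⟩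
  exact_mod_cast this

private theorem T4Eq_eA (U : ℝ) (n : ℕ) :
    |ArithmeticFunction.vonMangoldt n * hL U (Real.log n)| ≤
      (n.divisors.card : ℝ) ^ 2 * (1 + Real.log n) ^ 2 := by
  rcases Nat.eq_zero_or_pos n with h | h
  · subst h; simp
  · have h1 := T4Eq_one_le_card h
    have h2 : 0 ≤ Real.log (n : ℝ) := Real.log_natCast_nonneg n
    have h3 : ArithmeticFunction.vonMangoldt n ≤ Real.log n := ArithmeticFunction.vonMangoldt_le_log
    have h4 : 0 ≤ ArithmeticFunction.vonMangoldt n := ArithmeticFunction.vonMangoldt_nonneg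
    have h5 := hL_nonneg U (Real.log n)
    have h6 := hL_le U (Real.log n)
    rw [abs_of_nonneg (mul_nonneg h4 h5)]
    have h7 : ArithmeticFunction.vonMangoldt n * hL U (Real.log n) ≤ Real.log n :=
      (mul_le_of_le_one_right h4 h6).trans h3
    have h8 : Real.log (n : ℝ) ≤ (1 + Real.log n) ^ 2 := by nlinarith
    have h9 : (1 : ℝ) ≤ (n.divisors.card : ℝ) ^ 2 := one_le_pow₀ h1
    have h10 : (1 + Real.log (n : ℝ)) ^ 2 ≤ (n.divisors.card : ℝ) ^ 2 * (1 + Real.log n) ^ 2 :=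
      le_mul_of_one_le_left (sq_nonneg _) h9
    linarith

private theorem T4Eq_eB (U : ℝ) (n : ℕ) :
    |bt U n| ≤ (n.divisors.card : ℝ) ^ 2 * (1 + Real.log n) ^ 2 := by
  refine (bt_le U n).trans ?_
  rcases Nat.eq_zero_or_pos n with h | h
  · subst h; simp
  · have h1 := T4Eq_one_le_card h
    have h2 : 0 ≤ Real.log (n : ℝ) := Real.log_natCast_nonneg n
    have h3 : (1 : ℝ) ≤ (1 + Real.log (n : ℝ)) ^ 2 := one_le_pow₀ (by linarith)
    have h4 : (n.divisors.card : ℝ) ≤ (n.divisors.card : ℝ) ^ 2 := by nlinarith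
    have h5 : (n.divisors.card : ℝ) ^ 2 ≤ (n.divisors.card : ℝ) ^ 2 * (1 + Real.log n) ^ 2 :=
      le_mul_of_one_le_right (sq_nonneg _) h3
    linarith

private theorem T4Eq_As (U c τ : ℝ) :
    As U c τ = T4Eq_gs (fun m => ArithmeticFunction.vonMangoldt m * hL U (Real.log m)) c τ := rfl

private theorem T4Eq_Bs (U c τ : ℝ) : Bs U c τ = T4Eq_gs (fun k => bt U k) c τ := rfl

theorem As_tail : ∃ C : ℝ, 1 ≤ C ∧ ∀ U c τ : ℝ, ‖As U c τ‖ ≤ C * (1 + |c|) ^ 6 ∧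
    (c ≤ 0 → ‖As U c τ‖ ≤ C * Real.exp (-c ^ 2 / 16)) := by
  obtain ⟨C, hC1, hC⟩ := T4Eq_gs_bound
  refine ⟨C, hC1, fun U c τ => ?_⟩
  rw [T4Eq_As]
  exact (hC _ (T4Eq_eA U) c τ).2

theorem Bs_tail : ∃ C : ℝ, 1 ≤ C ∧ ∀ U y τ : ℝ, ‖Bs U y τ‖ ≤ C * (1 + |y|) ^ 6 ∧
    (y ≤ 0 → ‖Bs U y τ‖ ≤ C * Real.exp (-y ^ 2 / 16)) := by
  obtain ⟨C, hC1, hC⟩ := T4Eq_gs_bound
  refine ⟨C, hC1, fun U y τ => ?_⟩
  rw [T4Eq_Bs]
  exact (hC _ (T4Eq_eB U) y τ).2

private theorem T4Eq_W_summable :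
    Summable (fun n : ℕ => T4Eq_W n * Real.exp (-(Real.log n) ^ 2 / 16)) := by
  obtain ⟨C, hC1, hC⟩ := div_gauss
  have := (hC 0).1
  refine this.congr (fun n => ?_)
  rw [sub_zero]; rfl

private theorem T4Eq_np_cont (n : ℕ) : Continuous (fun τ : ℝ => np n τ) := by
  unfold np
  rcases Nat.eq_zero_or_pos n with h | h
  · subst h
    have : (fun τ : ℝ => ((0 : ℕ) : ℂ) ^ (-(1 + (τ : ℂ) * Complex.I))) = fun _ => (0 : ℂ) := by
      funext τ
      have hne : (-(1 + (τ : ℂ) * Complex.I)) ≠ 0 := by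
        intro h0
        have := congrArg Complex.re h0
        simp at this
      rw [Nat.cast_zero, Complex.zero_cpow hne]
    rw [this]; exact continuous_const
  · have hn : (n : ℂ) ≠ 0 := by exact_mod_cast h.ne'
    have h1 : Continuous (fun τ : ℝ => (-(1 + (τ : ℂ) * Complex.I))) := by fun_prop
    exact h1.const_cpow (Or.inl hn)

private theorem T4Eq_gs_cont {e : ℕ → ℝ}
    (he : ∀ n, |e n| ≤ (n.divisors.card : ℝ) ^ 2 * (1 + Real.log n) ^ 2) :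
    Continuous (fun q : ℝ × ℝ => T4Eq_gs e q.1 q.2) := by
  rw [continuous_iff_continuousAt]
  intro q₀
  set R : ℝ := |q₀.1| + 1 with hR
  have hopen : IsOpen {q : ℝ × ℝ | |q.1| < R} := isOpen_lt (by fun_prop) continuous_const
  have hmem : q₀ ∈ {q : ℝ × ℝ | |q.1| < R} := by
    change |q₀.1| < R
    rw [hR]; linarith
  have hco : ContinuousOn (fun q : ℝ × ℝ => T4Eq_gs e q.1 q.2) {q : ℝ × ℝ | |q.1| < R} := by
    unfold T4Eq_gs
    apply continuousOn_tsum (u := fun n : ℕ =>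
      (T4Eq_W n * Real.exp (-(Real.log n) ^ 2 / 16)) * Real.exp (R ^ 2 / 4))
    · intro n
      apply Continuous.continuousOn
      have h1 : Continuous (fun q : ℝ × ℝ => np n q.2) := (T4Eq_np_cont n).comp continuous_snd
      have h2 : Continuous (fun q : ℝ × ℝ =>
          ((Real.exp (-(Real.log n - q.1) ^ 2 / 4) : ℝ) : ℂ)) := by fun_prop
      exact (continuous_const.mul h1).mul h2
    · exact T4Eq_W_summable.mul_right _
    · intro n q hq
      refine (T4Eq_term he n q.2 _ (Real.exp_pos _).le).trans ?_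
      rw [mul_assoc, ← Real.exp_add]
      apply mul_le_mul_of_nonneg_left _ (T4Eq_W_nonneg n)
      apply Real.exp_le_exp.mpr
      have hq1 : |q.1| < R := hq
      have hq2 : q.1 ^ 2 ≤ R ^ 2 := by
        rw [← sq_abs q.1]
        exact pow_le_pow_left₀ (abs_nonneg _) hq1.le 2
      nlinarith [sq_nonneg (Real.log (n : ℝ) - 2 * q.1), sq_nonneg (Real.log (n : ℝ))]
  exact hco.continuousAt (hopen.mem_nhds hmem)

/-- Continuity, used for measurability and integrability. -/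
theorem AsBs_cont (U : ℝ) : Continuous (fun q : ℝ × ℝ => As U q.1 q.2) ∧
    Continuous (fun q : ℝ × ℝ => Bs U q.1 q.2) :=
  ⟨T4Eq_gs_cont (T4Eq_eA U), T4Eq_gs_cont (T4Eq_eB U)⟩

private theorem T4Eq_split (L x y c : ℝ) :
    Real.exp (-(x - c) ^ 2 / 4) * Real.exp (-(y - (L - c)) ^ 2 / 4) =
      ps L (x + y) * Real.exp (-(1 / 2) * (c - (x + (L - y)) / 2) ^ 2) := by
  unfold ps
  rw [← Real.exp_add, ← Real.exp_add]
  congr 1
  ring

private theorem T4Eq_integrable (L x y : ℝ) : Integrable (fun c : ℝ =>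
    Real.exp (-(x - c) ^ 2 / 4) * Real.exp (-(y - (L - c)) ^ 2 / 4)) := by
  simp_rw [T4Eq_split]
  have h := (integrable_exp_neg_mul_sq (b := 1 / 2) (by norm_num)).comp_sub_right ((x + (L - y)) / 2)
  exact h.const_mul _

private theorem T4Eq_integral (L x y : ℝ) : ∫ c : ℝ,
    Real.exp (-(x - c) ^ 2 / 4) * Real.exp (-(y - (L - c)) ^ 2 / 4) =
      Real.sqrt (2 * Real.pi) * ps L (x + y) := by
  simp_rw [T4Eq_split]
  rw [MeasureTheory.integral_const_mul]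
  have h := MeasureTheory.integral_sub_right_eq_self (μ := volume)
    (fun c : ℝ => Real.exp (-(1 / 2) * c ^ 2)) ((x + (L - y)) / 2)
  rw [h, integral_gaussian]
  have : Real.pi / (1 / 2) = 2 * Real.pi := by ring
  rw [this]; ring

theorem T4_eq (L U τ : ℝ) :
    T4 L U τ = (1 / Real.sqrt (2 * Real.pi) : ℝ) * ∫ c : ℝ, As U c τ * Bs U (L - c) τ := by
  have hs2 : 0 < Real.sqrt (2 * Real.pi) := Real.sqrt_pos.mpr (by positivity)
  set a : ℕ → ℝ := fun m => ArithmeticFunction.vonMangoldt m * hL U (Real.log m) with ha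
  set b : ℕ → ℝ := fun k => bt U k with hb
  have hA := T4Eq_eA U
  have hB := T4Eq_eB U
  obtain ⟨C, hC1, hC⟩ := T4Eq_gs_bound
  let F : ℕ × ℕ → ℝ → ℂ := fun q c =>
    (((a q.1 : ℝ) : ℂ) * np q.1 τ * ((Real.exp (-(Real.log q.1 - c) ^ 2 / 4) : ℝ) : ℂ)) *
    (((b q.2 : ℝ) : ℂ) * np q.2 τ * ((Real.exp (-(Real.log q.2 - (L - c)) ^ 2 / 4) : ℝ) : ℂ))
  have hF : ∀ q c, F q c = (((a q.1 : ℝ) : ℂ) * np q.1 τ * (((b q.2 : ℝ) : ℂ) * np q.2 τ)) *
      ((Real.exp (-(Real.log q.1 - c) ^ 2 / 4) * Real.exp (-(Real.log q.2 - (L - c)) ^ 2 / 4) : ℝ) : ℂ) := by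
    intro q c
    simp only [F]
    push_cast
    ring
  have hprod : ∀ c : ℝ, As U c τ * Bs U (L - c) τ = ∑' q : ℕ × ℕ, F q c := by
    intro c
    rw [T4Eq_As, T4Eq_Bs]
    unfold T4Eq_gs
    rw [tsum_mul_tsum_of_summable_norm (hC _ hA c τ).1 (hC _ hB (L - c) τ).1]
  have hFint : ∀ q, Integrable (F q) := by
    intro q
    have h1 : F q = fun c => (((a q.1 : ℝ) : ℂ) * np q.1 τ * (((b q.2 : ℝ) : ℂ) * np q.2 τ)) *
      ((Real.exp (-(Real.log q.1 - c) ^ 2 / 4) * Real.exp (-(Real.log q.2 - (L - c)) ^ 2 / 4) : ℝ) : ℂ) :=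
      funext (hF q)
    rw [h1]
    exact ((T4Eq_integrable L (Real.log q.1) (Real.log q.2)).ofReal).const_mul _
  have hnorm : ∀ q : ℕ × ℕ, ∫ c, ‖F q c‖ =
      ‖((a q.1 : ℝ) : ℂ) * np q.1 τ * (((b q.2 : ℝ) : ℂ) * np q.2 τ)‖ *
        (Real.sqrt (2 * Real.pi) * ps L (Real.log q.1 + Real.log q.2)) := by
    intro q
    rw [← T4Eq_integral, ← MeasureTheory.integral_const_mul]
    congr 1
    funext c
    rw [hF, norm_mul, Complex.norm_real, Real.norm_eq_abs, abs_of_nonneg (by positivity)]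
  have hval : ∀ q : ℕ × ℕ, ∫ c, F q c =
      (((a q.1 : ℝ) : ℂ) * np q.1 τ * (((b q.2 : ℝ) : ℂ) * np q.2 τ)) *
        ((Real.sqrt (2 * Real.pi) * ps L (Real.log q.1 + Real.log q.2) : ℝ) : ℂ) := by
    intro q
    rw [← T4Eq_integral, ← integral_complex_ofReal, ← MeasureTheory.integral_const_mul]
    congr 1
    funext c
    rw [hF]
  have hsum : Summable (fun q : ℕ × ℕ => ∫ c, ‖F q c‖) := by
    have hWW := (T4Eq_W_summable).mul_of_nonneg T4Eq_W_summable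
      (fun n => mul_nonneg (T4Eq_W_nonneg n) (Real.exp_pos _).le)
      (fun n => mul_nonneg (T4Eq_W_nonneg n) (Real.exp_pos _).le)
    refine Summable.of_nonneg_of_le (fun q => integral_nonneg (fun c => norm_nonneg _)) ?_
      (hWW.mul_right (Real.sqrt (2 * Real.pi) * Real.exp (L ^ 2 / 8)))
    intro q
    rw [hnorm]
    have h1 : ‖((a q.1 : ℝ) : ℂ) * np q.1 τ‖ ≤ T4Eq_W q.1 := by
      have := T4Eq_term hA q.1 τ 1 zero_le_one
      rwa [Complex.ofReal_one, mul_one, mul_one] at this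
    have h2 : ‖((b q.2 : ℝ) : ℂ) * np q.2 τ‖ ≤ T4Eq_W q.2 := by
      have := T4Eq_term hB q.2 τ 1 zero_le_one
      rwa [Complex.ofReal_one, mul_one, mul_one] at this
    have h3 : ps L (Real.log q.1 + Real.log q.2) ≤ Real.exp (-(Real.log q.1) ^ 2 / 16) *
        Real.exp (-(Real.log q.2) ^ 2 / 16) * Real.exp (L ^ 2 / 8) := by
      unfold ps
      rw [← Real.exp_add, ← Real.exp_add]
      apply Real.exp_le_exp.mpr
      have hx : 0 ≤ Real.log (q.1 : ℝ) := Real.log_natCast_nonneg q.1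
      have hy : 0 ≤ Real.log (q.2 : ℝ) := Real.log_natCast_nonneg q.2
      nlinarith [sq_nonneg (Real.log (q.1 : ℝ) + Real.log (q.2 : ℝ) - 2 * L), mul_nonneg hx hy]
    rw [norm_mul]
    calc ‖((a q.1 : ℝ) : ℂ) * np q.1 τ‖ * ‖((b q.2 : ℝ) : ℂ) * np q.2 τ‖ *
          (Real.sqrt (2 * Real.pi) * ps L (Real.log q.1 + Real.log q.2))
        ≤ (T4Eq_W q.1 * T4Eq_W q.2) * (Real.sqrt (2 * Real.pi) *
          (Real.exp (-(Real.log q.1) ^ 2 / 16) * Real.exp (-(Real.log q.2) ^ 2 / 16) *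
            Real.exp (L ^ 2 / 8))) := by
          apply mul_le_mul
          · exact mul_le_mul h1 h2 (norm_nonneg _) (T4Eq_W_nonneg _)
          · exact mul_le_mul_of_nonneg_left h3 hs2.le
          · exact mul_nonneg hs2.le (Real.exp_pos _).le
          · exact mul_nonneg (T4Eq_W_nonneg _) (T4Eq_W_nonneg _)
      _ = _ := by ring
  have hmain := integral_tsum_of_summable_integral_norm hFint hsum
  have hint : ∫ c : ℝ, As U c τ * Bs U (L - c) τ = ∑' q : ℕ × ℕ, ∫ c, F q c := by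
    rw [hmain]
    congr 1
    funext c
    exact hprod c
  rw [hint, ← tsum_mul_left]
  unfold T4
  congr 1
  funext q
  rw [hval]
  have hne : ((Real.sqrt (2 * Real.pi) : ℝ) : ℂ) ≠ 0 := by exact_mod_cast hs2.ne'
  simp only [ha, hb]
  push_cast
  field_simp

end ASI
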