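import Pool.Agent.ASI.Div

/-!
# ASI.Vaughan: Vaughan's identity with smooth cutoffs

PROOF. With the Dirichlet convolution of arithmetic functions: `Λ*1 = log`, `μ*1 = δ`. For `F = Λ(1-hL)`,
`G = μ(1-hM)`: `(Λ-F)*(μ-G)*1 = Λ - log*G - F + 1*F*G`. Group all the sums by the product `n` (absolutely
convergent: the coefficients are at most `log n` times numbers of divisors, `div_gauss`).
-/

namespace ASI

open ArithmeticFunction

/-- `F` part. -/
noncomputable def X1 (L U τ : ℝ) : ℂ :=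
  ∑' n : ℕ, ((vonMangoldt n * (1 - hL U (Real.log n)) : ℝ) : ℂ) * np n τ * (ps L (Real.log n) : ℝ)

/-- `log*G` part, sum over pairs `(b, e)`. -/
noncomputable def X2 (L U τ : ℝ) : ℂ :=
  ∑' q : ℕ × ℕ, (((moebius q.1 : ℝ) * (1 - hM U (Real.log q.1)) * Real.log q.2 : ℝ) : ℂ) *
    np q.1 τ * np q.2 τ * (ps L (Real.log q.1 + Real.log q.2) : ℝ)

/-- `1*F*G` part, sum over triples `(a, b, e)`. -/
noncomputable def X3 (L U τ : ℝ) : ℂ :=
  ∑' q : ℕ × ℕ × ℕ, ((vonMangoldt q.1 * (1 - hL U (Real.log q.1)) *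
      ((moebius q.2.1 : ℝ) * (1 - hM U (Real.log q.2.1))) : ℝ) : ℂ) *
    np q.1 τ * np q.2.1 τ * np q.2.2 τ *
    (ps L (Real.log q.1 + Real.log q.2.1 + Real.log q.2.2) : ℝ)

/-- Grouping an absolutely convergent sum. -/
private theorem Vaughan_group {ι : Type*} (pr : ι → ℕ) (S : ℕ → Finset ι) (f : ι → ℂ)
    (h1 : ∀ n, ∀ i ∈ S n, pr i = n) (h2 : ∀ i, f i ≠ 0 → i ∈ S (pr i))
    (hs : Summable fun n => ∑ i ∈ S n, ‖f i‖) :
    Summable f ∧ ∑' i, f i = ∑' n, ∑ i ∈ S n, f i := by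
  have hfib : ∀ {R : Type} [NormedAddCommGroup R] (g : ι → R) (_ : ∀ i, g i ≠ 0 → i ∈ S (pr i))
      (n : ℕ), Summable (fun i : {i // pr i = n} => g i) ∧
        ∑' i : {i // pr i = n}, g i = ∑ i ∈ S n, g i := by
    intro R _ g hg n
    have e1 : ∀ i ∉ S n, ({i | pr i = n} : Set ι).indicator g i = 0 := by
      intro i hi
      by_cases hp : pr i = n
      · rw [Set.indicator_of_mem (show i ∈ {i | pr i = n} from hp)]
        by_contra hne
        exact hi (hp ▸ hg i hne)
      · rw [Set.indicator_of_notMem (show i ∉ {i | pr i = n} from hp)]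
    have e2 : HasSum (({i | pr i = n} : Set ι).indicator g)
        (∑ i ∈ S n, ({i | pr i = n} : Set ι).indicator g i) := hasSum_sum_of_ne_finset_zero e1
    have e3 : ∑ i ∈ S n, ({i | pr i = n} : Set ι).indicator g i = ∑ i ∈ S n, g i :=
      Finset.sum_congr rfl fun i hi =>
        Set.indicator_of_mem (show i ∈ {i | pr i = n} from h1 n i hi) g
    rw [e3] at e2
    have e4 : HasSum (fun i : {i // pr i = n} => g i) (∑ i ∈ S n, g i) :=
      (hasSum_subtype_iff_indicator (s := {i | pr i = n})).mpr e2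
    exact ⟨e4.summable, e4.tsum_eq⟩
  have hnorm : Summable fun x : Σ n, {i // pr i = n} => ‖f (x.2 : ι)‖ := by
    rw [summable_sigma_of_nonneg (fun _ => norm_nonneg _)]
    refine ⟨fun n => (hfib (fun i => ‖f i‖) (fun i hi => h2 i (by simpa using hi)) n).1, ?_⟩
    refine hs.congr fun n => ?_
    exact ((hfib (fun i => ‖f i‖) (fun i hi => h2 i (by simpa using hi)) n).2).symm
  have hsum : Summable fun x : Σ n, {i // pr i = n} => f (x.2 : ι) := hnorm.of_norm
  have hsf : Summable f := by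
    rw [← (Equiv.sigmaFiberEquiv pr).summable_iff]
    exact hsum
  refine ⟨hsf, ?_⟩
  rw [← (Equiv.sigmaFiberEquiv pr).tsum_eq f]
  have e5 : ∑' x : Σ n, {i // pr i = n}, f ((Equiv.sigmaFiberEquiv pr) x) =
      ∑' x : Σ n, {i // pr i = n}, f (x.2 : ι) := rfl
  rw [e5, hsum.tsum_sigma]
  exact tsum_congr fun n => (hfib f h2 n).2

private theorem Vaughan_np_zero (τ : ℝ) : np 0 τ = 0 := by
  unfold np
  rw [Nat.cast_zero, Complex.zero_cpow]
  intro h
  have := congrArg Complex.re h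
  simp at this

private theorem Vaughan_np_norm (n : ℕ) (τ : ℝ) : ‖np n τ‖ = 1 / n := by
  rcases Nat.eq_zero_or_pos n with rfl | hn
  · rw [Vaughan_np_zero]; simp
  · unfold np
    rw [Complex.norm_natCast_cpow_of_pos hn]
    have : (-(1 + (τ : ℂ) * Complex.I)).re = -1 := by simp
    rw [this, Real.rpow_neg_one, one_div]

private theorem Vaughan_np_mul (a b : ℕ) (τ : ℝ) : np (a * b) τ = np a τ * np b τ := by
  unfold np
  rw [Nat.cast_mul, Complex.natCast_mul_natCast_cpow]

private theorem Vaughan_ps_nonneg (L x : ℝ) : 0 ≤ ps L x := (Real.exp_pos _).le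

private theorem Vaughan_sumc (L : ℝ) : Summable (fun n : ℕ =>
    (n.divisors.card : ℝ) * (1 + Real.log n) * (1 / n * ps L (Real.log n))) := by
  obtain ⟨C, _, h⟩ := div_gauss
  refine Summable.of_nonneg_of_le ?_ ?_ (h L).1
  · intro n
    have h1 : 0 ≤ Real.log (n : ℝ) := Real.log_natCast_nonneg n
    have h2 := Vaughan_ps_nonneg L (Real.log n)
    positivity
  · intro n
    rcases Nat.eq_zero_or_pos n with rfl | hn
    · simp
    · have h1 : 0 ≤ Real.log (n : ℝ) := Real.log_natCast_nonneg n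
      have hd : (1 : ℝ) ≤ n.divisors.card := by
        have : 0 < n.divisors.card := Finset.card_pos.mpr ⟨1, Nat.one_mem_divisors.mpr hn.ne'⟩
        exact_mod_cast this
      have hps : ps L (Real.log n) ≤ Real.exp (-(Real.log n - L) ^ 2 / 16) := by
        unfold ps
        apply Real.exp_le_exp.mpr
        nlinarith [sq_nonneg (Real.log (n : ℝ) - L)]
      have h3 : (n.divisors.card : ℝ) * (1 + Real.log n) ≤
          (n.divisors.card : ℝ) ^ 2 * (1 + Real.log n) ^ 2 := by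
        have h4 : (1 : ℝ) ≤ (n.divisors.card : ℝ) * (1 + Real.log n) := by nlinarith
        nlinarith
      have hn0 : (0 : ℝ) < n := by exact_mod_cast hn
      calc (n.divisors.card : ℝ) * (1 + Real.log n) * (1 / n * ps L (Real.log n))
          ≤ ((n.divisors.card : ℝ) ^ 2 * (1 + Real.log n) ^ 2) * (1 / n * ps L (Real.log n)) := by
            refine mul_le_mul_of_nonneg_right h3 ?_
            have h2 := Vaughan_ps_nonneg L (Real.log n)
            positivity
        _ ≤ ((n.divisors.card : ℝ) ^ 2 * (1 + Real.log n) ^ 2) *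
            (1 / n * Real.exp (-(Real.log n - L) ^ 2 / 16)) := by
            refine mul_le_mul_of_nonneg_left ?_ (by positivity)
            exact mul_le_mul_of_nonneg_left hps (by positivity)
        _ = _ := by ring

private theorem Vaughan_gen {ι : Type*} {L τ : ℝ} (pr : ι → ℕ) (S : ℕ → Finset ι) (a : ι → ℝ)
    (f : ι → ℂ) (h1 : ∀ n, ∀ i ∈ S n, pr i = n) (h2 : ∀ i, f i ≠ 0 → i ∈ S (pr i))
    (h3 : ∀ n, ∀ i ∈ S n, f i = (a i : ℂ) * (np n τ * (ps L (Real.log n) : ℝ)))
    (hb : ∀ n, ∑ i ∈ S n, |a i| ≤ (n.divisors.card : ℝ) * (1 + Real.log n)) :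
    Summable (fun n : ℕ => ((∑ i ∈ S n, a i : ℝ) : ℂ) * (np n τ * (ps L (Real.log n) : ℝ))) ∧
      ∑' i, f i = ∑' n : ℕ, ((∑ i ∈ S n, a i : ℝ) : ℂ) * (np n τ * (ps L (Real.log n) : ℝ)) := by
  have hw : ∀ n : ℕ, ‖np n τ * ((ps L (Real.log n) : ℝ) : ℂ)‖ = 1 / n * ps L (Real.log n) := by
    intro n
    rw [norm_mul, Vaughan_np_norm, Complex.norm_real, Real.norm_of_nonneg
      (Vaughan_ps_nonneg L (Real.log n))]
  have hw0 : ∀ n : ℕ, 0 ≤ 1 / (n : ℝ) * ps L (Real.log n) := by
    intro n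
    have h2 := Vaughan_ps_nonneg L (Real.log n)
    positivity
  have hs : Summable fun n => ∑ i ∈ S n, ‖f i‖ := by
    refine Summable.of_nonneg_of_le (fun n => Finset.sum_nonneg fun i _ => norm_nonneg _) ?_
      (Vaughan_sumc L)
    intro n
    have e1 : ∑ i ∈ S n, ‖f i‖ = (∑ i ∈ S n, |a i|) * (1 / n * ps L (Real.log n)) := by
      rw [Finset.sum_mul]
      refine Finset.sum_congr rfl fun i hi => ?_
      rw [h3 n i hi, norm_mul, hw, Complex.norm_real, Real.norm_eq_abs]
    rw [e1]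
    exact mul_le_mul_of_nonneg_right (hb n) (hw0 n)
  obtain ⟨h4, h5⟩ := Vaughan_group pr S f h1 h2 hs
  have e2 : ∀ n, ∑ i ∈ S n, f i =
      ((∑ i ∈ S n, a i : ℝ) : ℂ) * (np n τ * (ps L (Real.log n) : ℝ)) := by
    intro n
    rw [Complex.ofReal_sum, Finset.sum_mul]
    exact Finset.sum_congr rfl fun i hi => h3 n i hi
  refine ⟨?_, ?_⟩
  · refine Summable.of_norm_bounded (g := fun n : ℕ =>
      (n.divisors.card : ℝ) * (1 + Real.log n) * (1 / n * ps L (Real.log n)))
      (Vaughan_sumc L) ?_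
    intro n
    rw [norm_mul, hw, Complex.norm_real, Real.norm_eq_abs]
    exact mul_le_mul_of_nonneg_right ((Finset.abs_sum_le_sum_abs _ _).trans (hb n)) (hw0 n)
  · rw [h5]
    exact tsum_congr e2

private theorem Vaughan_log_mul {a b : ℕ} (ha : a ≠ 0) (hb : b ≠ 0) :
    Real.log a + Real.log b = Real.log ((a * b : ℕ) : ℝ) := by
  rw [Nat.cast_mul, Real.log_mul (by exact_mod_cast ha) (by exact_mod_cast hb)]

private noncomputable def Vaughan_F (U : ℝ) : ArithmeticFunction ℝ :=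
  ⟨fun n => vonMangoldt n * (1 - hL U (Real.log n)), by simp⟩

private noncomputable def Vaughan_G (U : ℝ) : ArithmeticFunction ℝ :=
  ⟨fun n => (moebius n : ℝ) * (1 - hM U (Real.log n)), by simp⟩

private theorem Vaughan_F_apply (U : ℝ) (n : ℕ) :
    Vaughan_F U n = vonMangoldt n * (1 - hL U (Real.log n)) := rfl

private theorem Vaughan_G_apply (U : ℝ) (n : ℕ) :
    Vaughan_G U n = (moebius n : ℝ) * (1 - hM U (Real.log n)) := rfl

private theorem Vaughan_sub (f g : ArithmeticFunction ℝ) (n : ℕ) :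
    (f - g) n = f n - g n := by
  rw [sub_eq_add_neg, sub_eq_add_neg]; rfl

private theorem Vaughan_id (U : ℝ) (n : ℕ) :
    vonMangoldt n = Vaughan_F U n + (Vaughan_G U * ArithmeticFunction.log) n -
      (Vaughan_F U * (Vaughan_G U * (zeta : ArithmeticFunction ℝ))) n +
      ((vonMangoldt - Vaughan_F U) * (((moebius : ArithmeticFunction ℝ) - Vaughan_G U) *
        (zeta : ArithmeticFunction ℝ))) n := by
  have h1 : (vonMangoldt - Vaughan_F U) * (((moebius : ArithmeticFunction ℝ) - Vaughan_G U) *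
      (zeta : ArithmeticFunction ℝ)) = vonMangoldt - Vaughan_F U -
        Vaughan_G U * ArithmeticFunction.log +
        Vaughan_F U * (Vaughan_G U * (zeta : ArithmeticFunction ℝ)) := by
    have h2 : ((moebius : ArithmeticFunction ℝ) - Vaughan_G U) * (zeta : ArithmeticFunction ℝ) =
        1 - Vaughan_G U * (zeta : ArithmeticFunction ℝ) := by
      rw [sub_mul, coe_moebius_mul_coe_zeta]
    rw [h2, ← vonMangoldt_mul_zeta]
    ring
  rw [h1, ArithmeticFunction.add_apply, Vaughan_sub, Vaughan_sub]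
  ring

/-- `|bt|` and divisors -/
private theorem Vaughan_bt (U : ℝ) (k : ℕ) : bt U k =
    (((moebius : ArithmeticFunction ℝ) - Vaughan_G U) * (zeta : ArithmeticFunction ℝ)) k := by
  rw [coe_mul_zeta_apply]
  unfold bt
  refine Finset.sum_congr rfl fun d _ => ?_
  rw [Vaughan_sub, Vaughan_G_apply, intCoe_apply]
  ring

private theorem Vaughan_card (n : ℕ) : ∑ q ∈ n.divisorsAntidiagonal, vonMangoldt q.1 =
    Real.log n := by
  rw [← vonMangoldt_sum, Nat.sum_divisorsAntidiagonal (f := fun i _ => vonMangoldt i)]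

private theorem Vaughan_abs_F (U : ℝ) (n : ℕ) : |Vaughan_F U n| ≤ vonMangoldt n := by
  rw [Vaughan_F_apply, abs_mul, abs_of_nonneg vonMangoldt_nonneg]
  have h1 := hL_nonneg U (Real.log n)
  have h2 := hL_le U (Real.log n)
  have h3 : |1 - hL U (Real.log n)| ≤ 1 := abs_le.mpr ⟨by linarith, by linarith⟩
  calc vonMangoldt n * |1 - hL U (Real.log n)| ≤ vonMangoldt n * 1 :=
        mul_le_mul_of_nonneg_left h3 vonMangoldt_nonneg
    _ = vonMangoldt n := mul_one _

private theorem Vaughan_abs_G (U : ℝ) (n : ℕ) : |Vaughan_G U n| ≤ 1 := by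
  rw [Vaughan_G_apply, abs_mul]
  have h1 := hM_nonneg U (Real.log n)
  have h2 := hM_le U (Real.log n)
  have h3 : |1 - hM U (Real.log n)| ≤ 1 := abs_le.mpr ⟨by linarith, by linarith⟩
  have h4 : |(moebius n : ℝ)| ≤ 1 := by
    have : |moebius n| ≤ 1 := abs_moebius_le_one
    exact_mod_cast this
  calc |(moebius n : ℝ)| * |1 - hM U (Real.log n)| ≤ 1 * 1 :=
        mul_le_mul h4 h3 (abs_nonneg _) zero_le_one
    _ = 1 := mul_one _

private theorem Vaughan_div_le {k n : ℕ} (hk : k ∣ n) (hn : n ≠ 0) :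
    (k.divisors.card : ℝ) ≤ n.divisors.card := by
  exact_mod_cast Finset.card_le_card (Nat.divisors_subset_of_dvd hn hk)

/-- the bound for sums of `Λ(a) c(k)` with `|c(k)| ≤ d(k)` -/
private theorem Vaughan_bound (c : ℕ → ℝ) (hc : ∀ k, c k ≤ (k.divisors.card : ℝ)) (n : ℕ) :
    ∑ q ∈ n.divisorsAntidiagonal, vonMangoldt q.1 * c q.2 ≤
      (n.divisors.card : ℝ) * (1 + Real.log n) := by
  have hlog : 0 ≤ Real.log (n : ℝ) := Real.log_natCast_nonneg n
  calc ∑ q ∈ n.divisorsAntidiagonal, vonMangoldt q.1 * c q.2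
      ≤ ∑ q ∈ n.divisorsAntidiagonal, vonMangoldt q.1 * (n.divisors.card : ℝ) := by
        refine Finset.sum_le_sum fun q hq => mul_le_mul_of_nonneg_left ?_ vonMangoldt_nonneg
        obtain ⟨h1, h2⟩ := Nat.mem_divisorsAntidiagonal.mp hq
        exact (hc _).trans (Vaughan_div_le ⟨q.1, by rw [← h1, mul_comm]⟩ h2)
    _ = (n.divisors.card : ℝ) * Real.log n := by
        rw [← Finset.sum_mul, Vaughan_card, mul_comm]
    _ ≤ _ := by
        refine mul_le_mul_of_nonneg_left (by linarith) (by positivity)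

private theorem Vaughan_X2 (L U τ : ℝ) :
    Summable (fun n : ℕ => (((Vaughan_G U * ArithmeticFunction.log) n : ℝ) : ℂ) *
      (np n τ * (ps L (Real.log n) : ℝ))) ∧
    X2 L U τ = ∑' n : ℕ, (((Vaughan_G U * ArithmeticFunction.log) n : ℝ) : ℂ) *
      (np n τ * (ps L (Real.log n) : ℝ)) := by
  have key := Vaughan_gen (L := L) (τ := τ) (fun q : ℕ × ℕ => q.1 * q.2)
    (fun n => n.divisorsAntidiagonal)
    (fun q => Vaughan_G U q.1 * ArithmeticFunction.log q.2)
    (fun q => (((moebius q.1 : ℝ) * (1 - hM U (Real.log q.1)) * Real.log q.2 : ℝ) : ℂ) *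
      np q.1 τ * np q.2 τ * (ps L (Real.log q.1 + Real.log q.2) : ℝ)) ?_ ?_ ?_ ?_
  · have e : ∀ n : ℕ, ∑ q ∈ n.divisorsAntidiagonal, Vaughan_G U q.1 *
        ArithmeticFunction.log q.2 = (Vaughan_G U * ArithmeticFunction.log) n :=
      fun n => (mul_apply).symm
    simp only [e] at key
    exact key
  · intro n q hq
    exact (Nat.mem_divisorsAntidiagonal.mp hq).1
  · intro q hq
    rw [Nat.mem_divisorsAntidiagonal]
    refine ⟨rfl, ?_⟩
    intro h0
    apply hq
    try dsimp only at h0 ⊢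
    rcases Nat.mul_eq_zero.mp h0 with h | h
    · rw [h, Vaughan_np_zero]; ring
    · rw [h, Vaughan_np_zero]; ring
  · intro n q hq
    obtain ⟨h1, h2⟩ := Nat.mem_divisorsAntidiagonal.mp hq
    have ha : q.1 ≠ 0 := fun h => h2 (by rw [← h1, h, zero_mul])
    have hb : q.2 ≠ 0 := fun h => h2 (by rw [← h1, h, mul_zero])
    try dsimp only
    rw [Vaughan_log_mul ha hb, h1, ← h1, Vaughan_np_mul, h1, Vaughan_G_apply, log_apply]
    ring
  · intro n
    have hlog : 0 ≤ Real.log (n : ℝ) := Real.log_natCast_nonneg n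
    have e1 : ∀ q ∈ n.divisorsAntidiagonal,
        |Vaughan_G U q.1 * ArithmeticFunction.log q.2| ≤ Real.log n := by
      intro q hq
      obtain ⟨h1, h2⟩ := Nat.mem_divisorsAntidiagonal.mp hq
      have hb : q.2 ≠ 0 := fun h => h2 (by rw [← h1, h, mul_zero])
      rw [abs_mul, log_apply, abs_of_nonneg (Real.log_natCast_nonneg q.2)]
      have h3 : Real.log (q.2 : ℝ) ≤ Real.log n := by
        refine Real.log_le_log (by exact_mod_cast Nat.pos_of_ne_zero hb) ?_
        exact_mod_cast Nat.le_of_dvd (Nat.pos_of_ne_zero h2) ⟨q.1, by rw [← h1, mul_comm]⟩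
      calc |Vaughan_G U q.1| * Real.log q.2 ≤ 1 * Real.log n :=
            mul_le_mul (Vaughan_abs_G U q.1) h3 (Real.log_natCast_nonneg q.2) zero_le_one
        _ = Real.log n := one_mul _
    refine (Finset.sum_le_sum e1).trans ?_
    rw [Finset.sum_const, nsmul_eq_mul]
    have e2 : n.divisorsAntidiagonal.card = n.divisors.card := by
      rw [← Nat.map_div_right_divisors, Finset.card_map]
    rw [e2]
    refine mul_le_mul_of_nonneg_left (by linarith) (by positivity)

private theorem Vaughan_T4 (L U τ : ℝ) :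
    Summable (fun n : ℕ => (((vonMangoldt - Vaughan_F U) *
      (((moebius : ArithmeticFunction ℝ) - Vaughan_G U) * (zeta : ArithmeticFunction ℝ)) : 
        ArithmeticFunction ℝ) n : ℂ) * (np n τ * (ps L (Real.log n) : ℝ))) ∧
    T4 L U τ = ∑' n : ℕ, (((vonMangoldt - Vaughan_F U) *
      (((moebius : ArithmeticFunction ℝ) - Vaughan_G U) * (zeta : ArithmeticFunction ℝ)) : 
        ArithmeticFunction ℝ) n : ℂ) * (np n τ * (ps L (Real.log n) : ℝ)) := by
  have hF : ∀ n : ℕ, (vonMangoldt - Vaughan_F U : ArithmeticFunction ℝ) n =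
      vonMangoldt n * hL U (Real.log n) := by
    intro n
    rw [Vaughan_sub, Vaughan_F_apply]
    ring
  have key := Vaughan_gen (L := L) (τ := τ) (fun q : ℕ × ℕ => q.1 * q.2)
    (fun n => n.divisorsAntidiagonal)
    (fun q => (vonMangoldt - Vaughan_F U : ArithmeticFunction ℝ) q.1 *
      (((moebius : ArithmeticFunction ℝ) - Vaughan_G U) * (zeta : ArithmeticFunction ℝ)) q.2)
    (fun q => ((vonMangoldt q.1 * hL U (Real.log q.1) * bt U q.2 : ℝ) : ℂ) * np q.1 τ *
      np q.2 τ * (ps L (Real.log q.1 + Real.log q.2) : ℝ)) ?_ ?_ ?_ ?_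
  · have e : ∀ n : ℕ, ∑ q ∈ n.divisorsAntidiagonal,
        (vonMangoldt - Vaughan_F U : ArithmeticFunction ℝ) q.1 *
        (((moebius : ArithmeticFunction ℝ) - Vaughan_G U) * (zeta : ArithmeticFunction ℝ)) q.2 =
        ((vonMangoldt - Vaughan_F U) *
          (((moebius : ArithmeticFunction ℝ) - Vaughan_G U) *
            (zeta : ArithmeticFunction ℝ)) : ArithmeticFunction ℝ) n :=
      fun n => (mul_apply).symm
    simp only [e] at key
    exact key
  · intro n q hq
    exact (Nat.mem_divisorsAntidiagonal.mp hq).1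
  · intro q hq
    rw [Nat.mem_divisorsAntidiagonal]
    refine ⟨rfl, ?_⟩
    intro h0
    apply hq
    try dsimp only at h0 ⊢
    rcases Nat.mul_eq_zero.mp h0 with h | h
    · rw [h, Vaughan_np_zero]; ring
    · rw [h, Vaughan_np_zero]; ring
  · intro n q hq
    obtain ⟨h1, h2⟩ := Nat.mem_divisorsAntidiagonal.mp hq
    have ha : q.1 ≠ 0 := fun h => h2 (by rw [← h1, h, zero_mul])
    have hb : q.2 ≠ 0 := fun h => h2 (by rw [← h1, h, mul_zero])
    try dsimp only
    rw [Vaughan_log_mul ha hb, h1, ← h1, Vaughan_np_mul, h1, hF, ← Vaughan_bt]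
    ring
  · intro n
    have e1 : ∀ q ∈ n.divisorsAntidiagonal,
        |(vonMangoldt - Vaughan_F U : ArithmeticFunction ℝ) q.1 *
          (((moebius : ArithmeticFunction ℝ) - Vaughan_G U) * (zeta : ArithmeticFunction ℝ)) q.2| ≤
        vonMangoldt q.1 * (q.2.divisors.card : ℝ) := by
      intro q _
      rw [abs_mul, hF, ← Vaughan_bt]
      refine mul_le_mul ?_ (bt_le U q.2) (abs_nonneg _) vonMangoldt_nonneg
      rw [abs_mul, abs_of_nonneg vonMangoldt_nonneg, abs_of_nonneg (hL_nonneg _ _)]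
      calc vonMangoldt q.1 * hL U (Real.log q.1) ≤ vonMangoldt q.1 * 1 :=
            mul_le_mul_of_nonneg_left (hL_le _ _) vonMangoldt_nonneg
        _ = vonMangoldt q.1 := mul_one _
    refine (Finset.sum_le_sum e1).trans ?_
    exact Vaughan_bound (fun k => (k.divisors.card : ℝ)) (fun k => le_rfl) n

/-- the triples with product `n` -/
private def Vaughan_S (n : ℕ) : Finset (ℕ × ℕ × ℕ) :=
  n.divisorsAntidiagonal.biUnion fun p => p.2.divisorsAntidiagonal.image fun q => (p.1, q)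

private theorem Vaughan_mem_S {n : ℕ} {q : ℕ × ℕ × ℕ} :
    q ∈ Vaughan_S n ↔ q.1 * (q.2.1 * q.2.2) = n ∧ n ≠ 0 := by
  unfold Vaughan_S
  rw [Finset.mem_biUnion]
  constructor
  · rintro ⟨p, hp, hq⟩
    obtain ⟨r, hr, rfl⟩ := Finset.mem_image.mp hq
    obtain ⟨h1, h2⟩ := Nat.mem_divisorsAntidiagonal.mp hp
    obtain ⟨h3, h4⟩ := Nat.mem_divisorsAntidiagonal.mp hr
    exact ⟨by dsimp only; rw [h3, h1], h2⟩
  · rintro ⟨h1, h2⟩
    refine ⟨(q.1, q.2.1 * q.2.2), Nat.mem_divisorsAntidiagonal.mpr ⟨h1, h2⟩, ?_⟩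
    refine Finset.mem_image.mpr ⟨q.2, Nat.mem_divisorsAntidiagonal.mpr ⟨rfl, ?_⟩, rfl⟩
    intro h0
    have h0' : q.2.1 * q.2.2 = 0 := h0
    exact h2 (by rw [← h1, h0', mul_zero])

private theorem Vaughan_sum_S (n : ℕ) (g : ℕ × ℕ × ℕ → ℝ) :
    ∑ q ∈ Vaughan_S n, g q =
      ∑ p ∈ n.divisorsAntidiagonal, ∑ q ∈ p.2.divisorsAntidiagonal, g (p.1, q) := by
  unfold Vaughan_S
  rw [Finset.sum_biUnion]
  · refine Finset.sum_congr rfl fun p _ => ?_
    rw [Finset.sum_image]
    intro q _ q' _ h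
    exact (Prod.mk.inj h).2
  · intro p hp p' hp' hne
    rw [Function.onFun, Finset.disjoint_left]
    intro x hx hx'
    obtain ⟨r, hr, h1⟩ := Finset.mem_image.mp hx
    obtain ⟨r', hr', h2⟩ := Finset.mem_image.mp hx'
    apply hne
    rw [← h2] at h1
    have h3 : p.1 = p'.1 := (Prod.mk.inj h1).1
    have h4 : r = r' := (Prod.mk.inj h1).2
    have h5 := (Nat.mem_divisorsAntidiagonal.mp hr).1
    have h6 := (Nat.mem_divisorsAntidiagonal.mp hr').1
    refine Prod.ext h3 ?_
    rw [← h5, ← h6, h4]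

private theorem Vaughan_X3 (L U τ : ℝ) :
    Summable (fun n : ℕ => (((Vaughan_F U * (Vaughan_G U * (zeta : ArithmeticFunction ℝ)) :
      ArithmeticFunction ℝ) n : ℝ) : ℂ) * (np n τ * (ps L (Real.log n) : ℝ))) ∧
    X3 L U τ = ∑' n : ℕ, (((Vaughan_F U * (Vaughan_G U * (zeta : ArithmeticFunction ℝ)) :
      ArithmeticFunction ℝ) n : ℝ) : ℂ) * (np n τ * (ps L (Real.log n) : ℝ)) := by
  have key := Vaughan_gen (L := L) (τ := τ) (fun q : ℕ × ℕ × ℕ => q.1 * (q.2.1 * q.2.2))
    Vaughan_S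
    (fun q => Vaughan_F U q.1 * (Vaughan_G U q.2.1 * (zeta : ArithmeticFunction ℝ) q.2.2))
    (fun q => ((vonMangoldt q.1 * (1 - hL U (Real.log q.1)) *
      ((moebius q.2.1 : ℝ) * (1 - hM U (Real.log q.2.1))) : ℝ) : ℂ) *
      np q.1 τ * np q.2.1 τ * np q.2.2 τ *
      (ps L (Real.log q.1 + Real.log q.2.1 + Real.log q.2.2) : ℝ)) ?_ ?_ ?_ ?_
  · have e : ∀ n : ℕ, ∑ q ∈ Vaughan_S n, Vaughan_F U q.1 * (Vaughan_G U q.2.1 *
        (zeta : ArithmeticFunction ℝ) q.2.2) =
        (Vaughan_F U * (Vaughan_G U * (zeta : ArithmeticFunction ℝ)) :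
          ArithmeticFunction ℝ) n := by
      intro n
      rw [Vaughan_sum_S, mul_apply]
      refine Finset.sum_congr rfl fun p _ => ?_
      rw [mul_apply, Finset.mul_sum]
    simp only [e] at key
    exact key
  · intro n q hq
    exact (Vaughan_mem_S.mp hq).1
  · intro q hq
    rw [Vaughan_mem_S]
    refine ⟨rfl, ?_⟩
    intro h0
    apply hq
    try dsimp only at h0 ⊢
    rcases Nat.mul_eq_zero.mp h0 with h | h
    · rw [h, Vaughan_np_zero]; ring
    · rcases Nat.mul_eq_zero.mp h with h | h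
      · rw [h, Vaughan_np_zero]; ring
      · rw [h, Vaughan_np_zero]; ring
  · intro n q hq
    obtain ⟨h1, h2⟩ := Vaughan_mem_S.mp hq
    have ha : q.1 ≠ 0 := fun h => h2 (by rw [← h1, h, zero_mul])
    have hb : q.2.1 ≠ 0 := fun h => h2 (by rw [← h1, h, zero_mul, mul_zero])
    have hc : q.2.2 ≠ 0 := fun h => h2 (by rw [← h1, h, mul_zero, mul_zero])
    have hz : (zeta : ArithmeticFunction ℝ) q.2.2 = 1 := by
      rw [natCoe_apply, zeta_apply, if_neg hc, Nat.cast_one]
    try dsimp only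
    rw [add_assoc, Vaughan_log_mul hb hc, Vaughan_log_mul ha (Nat.mul_ne_zero hb hc), h1, hz,
      ← h1, Vaughan_np_mul, Vaughan_np_mul, h1, Vaughan_F_apply, Vaughan_G_apply]
    push_cast
    ring
  · intro n
    rw [Vaughan_sum_S]
    have e1 : ∀ p ∈ n.divisorsAntidiagonal, ∑ q ∈ p.2.divisorsAntidiagonal,
        |Vaughan_F U p.1 * (Vaughan_G U q.1 * (zeta : ArithmeticFunction ℝ) q.2)| ≤
        vonMangoldt p.1 * (p.2.divisors.card : ℝ) := by
      intro p _
      have e2 : ∀ q ∈ p.2.divisorsAntidiagonal,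
          |Vaughan_F U p.1 * (Vaughan_G U q.1 * (zeta : ArithmeticFunction ℝ) q.2)| ≤
          vonMangoldt p.1 := by
        intro q _
        rw [abs_mul, abs_mul]
        have h3 : |(zeta : ArithmeticFunction ℝ) q.2| ≤ 1 := by
          rw [natCoe_apply, zeta_apply]
          split_ifs <;> simp
        calc |Vaughan_F U p.1| * (|Vaughan_G U q.1| * |(zeta : ArithmeticFunction ℝ) q.2|)
            ≤ vonMangoldt p.1 * (1 * 1) := by
              refine mul_le_mul (Vaughan_abs_F U p.1) ?_ (by positivity) vonMangoldt_nonneg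
              exact mul_le_mul (Vaughan_abs_G U q.1) h3 (abs_nonneg _) zero_le_one
          _ = vonMangoldt p.1 := by ring
      refine (Finset.sum_le_sum e2).trans ?_
      rw [Finset.sum_const, nsmul_eq_mul]
      have e3 : p.2.divisorsAntidiagonal.card = p.2.divisors.card := by
        rw [← Nat.map_div_right_divisors, Finset.card_map]
      rw [e3, mul_comm]
    refine (Finset.sum_le_sum e1).trans ?_
    exact Vaughan_bound (fun k => (k.divisors.card : ℝ)) (fun k => le_rfl) n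

private theorem Vaughan_X1 (L U τ : ℝ) :
    Summable (fun n : ℕ => ((Vaughan_F U n : ℝ) : ℂ) * (np n τ * (ps L (Real.log n) : ℝ))) ∧
    X1 L U τ = ∑' n : ℕ, ((Vaughan_F U n : ℝ) : ℂ) * (np n τ * (ps L (Real.log n) : ℝ)) := by
  constructor
  · refine Summable.of_norm_bounded (g := fun n : ℕ =>
      (n.divisors.card : ℝ) * (1 + Real.log n) * (1 / n * ps L (Real.log n)))
      (Vaughan_sumc L) ?_
    intro n
    have hps := Vaughan_ps_nonneg L (Real.log n)
    rw [norm_mul, norm_mul, Vaughan_np_norm, Complex.norm_real, Complex.norm_real,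
      Real.norm_eq_abs, Real.norm_of_nonneg hps]
    refine mul_le_mul_of_nonneg_right ?_ (by positivity)
    have hlog : 0 ≤ Real.log (n : ℝ) := Real.log_natCast_nonneg n
    rcases Nat.eq_zero_or_pos n with rfl | hn
    · simp
    · have hd : (1 : ℝ) ≤ n.divisors.card := by
        have : 0 < n.divisors.card := Finset.card_pos.mpr ⟨1, Nat.one_mem_divisors.mpr hn.ne'⟩
        exact_mod_cast this
      refine (Vaughan_abs_F U n).trans ((vonMangoldt_le_log).trans ?_)
      nlinarith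
  · unfold X1
    refine tsum_congr fun n => ?_
    rw [Vaughan_F_apply]
    ring

theorem vaughan {L U τ : ℝ} (hU : 0 ≤ U) : P L τ = X1 L U τ + X2 L U τ - X3 L U τ + T4 L U τ := by
  have _ := hU
  obtain ⟨s1, e1⟩ := Vaughan_X1 L U τ
  obtain ⟨s2, e2⟩ := Vaughan_X2 L U τ
  obtain ⟨s3, e3⟩ := Vaughan_X3 L U τ
  obtain ⟨s4, e4⟩ := Vaughan_T4 L U τ
  rw [e1, e2, e3, e4, ← s1.tsum_add s2, ← (s1.add s2).tsum_sub s3,
    ← ((s1.add s2).sub s3).tsum_add s4]
  unfold P
  refine tsum_congr fun n => ?_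
  have h := Vaughan_id U n
  have h' : ((vonMangoldt n : ℝ) : ℂ) = ((Vaughan_F U n : ℝ) : ℂ) +
      (((Vaughan_G U * ArithmeticFunction.log) n : ℝ) : ℂ) -
      (((Vaughan_F U * (Vaughan_G U * (zeta : ArithmeticFunction ℝ)) :
        ArithmeticFunction ℝ) n : ℝ) : ℂ) +
      ((((vonMangoldt - Vaughan_F U) * (((moebius : ArithmeticFunction ℝ) - Vaughan_G U) *
        (zeta : ArithmeticFunction ℝ)) : ArithmeticFunction ℝ) n : ℝ) : ℂ) := by
    exact_mod_cast congrArg (fun x : ℝ => (x : ℂ)) h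
  rw [h']
  ring

end ASI
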